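import Mathlib

/-!
# Auxiliary facts for the existence of a saddle periodic point (MP_7f73f9_an)

* `sad_norm_trace_le`: in a finite dimensional commutative `ℂ`-algebra `A`, the trace of the
  multiplication by `g` is at most `C * dim A` in modulus, if every point `φ : A →ₐ[ℂ] ℂ` has
  `‖φ g‖ ≤ C`.
* `sad_trace_pow`: the traces of the powers of a complex matrix are the power sums of a multiset.
* `sad_recur`: recurrence of the arguments of the powers of finitely many complex numbers.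
* `sad_concl`: the final contradiction.
* `sad_eig`: two complex numbers which are both outside the open unit disc or both in the closed
  unit disc satisfy `‖l + m‖ ≤ 1 + ‖l * m‖`.
-/

namespace SAD

open Module

/-- The trace of `f ^ n` on a generalized eigenspace. -/
theorem trace_pow_of_nilpotent {V : Type*} [AddCommGroup V] [Module ℂ V] [FiniteDimensional ℂ V]
    (f : Module.End ℂ V) (μ : ℂ) (hf : IsNilpotent (f - algebraMap ℂ _ μ)) (n : ℕ) :
    LinearMap.trace ℂ V (f ^ n) = (finrank ℂ V : ℂ) * μ ^ n := by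
  induction n with
  | zero => simp
  | succ n ih =>
    have hc : Commute (f ^ n) f := (Commute.refl f).pow_left n
    have h := LinearMap.trace_comp_eq_mul_of_commute_of_isNilpotent (f := f ^ n) (g := f) μ hc hf
    rw [pow_succ]
    change LinearMap.trace ℂ V ((f ^ n) ∘ₗ f) = _
    rw [h, ih]
    ring

/-- Power sums: the traces of the powers of an endomorphism. -/
theorem trace_pow_eq_sum {V : Type*} [AddCommGroup V] [Module ℂ V] [FiniteDimensional ℂ V]
    (f : Module.End ℂ V) :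
    ∃ s : Finset ℂ, (∀ μ ∈ s, f.HasEigenvalue μ) ∧
      ∀ n : ℕ, LinearMap.trace ℂ V (f ^ n) =
        ∑ μ ∈ s, (finrank ℂ (f.maxGenEigenspace μ) : ℂ) * μ ^ n := by
  classical
  have hds := DirectSum.isInternal_submodule_of_iSupIndep_of_iSup_eq_top
      f.independent_maxGenEigenspace (Module.End.iSup_maxGenEigenspace_eq_top f)
  have h_fin : {μ | f.maxGenEigenspace μ ≠ ⊥}.Finite :=
      WellFoundedGT.finite_ne_bot_of_iSupIndep f.independent_maxGenEigenspace
  refine ⟨h_fin.toFinset, ?_, ?_⟩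
  · intro μ hμ
    rw [Set.Finite.mem_toFinset] at hμ
    by_contra hne
    apply hμ
    rw [Module.End.HasEigenvalue, Module.End.HasUnifEigenvalue] at hne
    push Not at hne
    have h2 : Module.End.genEigenspace f μ 1 = ⊥ := hne
    rw [Module.End.maxGenEigenspace]
    rw [eq_bot_iff]
    intro x hx
    rw [Module.End.mem_genEigenspace_top] at hx
    obtain ⟨k, hk⟩ := hx
    have hinj : Function.Injective (f - μ • (1 : Module.End ℂ V)) := by
      rw [← LinearMap.ker_eq_bot]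
      rw [Module.End.genEigenspace_one] at h2
      exact h2
    have hinj2 : Function.Injective ((f - μ • (1 : Module.End ℂ V)) ^ k) := by
      rw [Module.End.coe_pow]
      exact hinj.iterate k
    rw [LinearMap.mem_ker] at hk
    have : x = 0 := by
      apply hinj2
      rw [hk, map_zero]
    rw [this]
    exact Submodule.zero_mem _
  · intro n
    have hcomm : Commute f (f ^ n) := (Commute.refl f).pow_right n
    have hmaps : ∀ μ, Set.MapsTo (f ^ n) (f.maxGenEigenspace μ) (f.maxGenEigenspace μ) := fun μ =>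
      f.mapsTo_maxGenEigenspace_of_comm hcomm μ
    rw [LinearMap.trace_eq_sum_trace_restrict' hds h_fin hmaps]
    apply Finset.sum_congr rfl
    intro μ _
    have h1 : Set.MapsTo f (f.maxGenEigenspace μ) (f.maxGenEigenspace μ) :=
      f.mapsTo_maxGenEigenspace_of_comm (Commute.refl f) μ
    have h2 : (f ^ n).restrict (hmaps μ) = (f.restrict h1) ^ n :=
      (Module.End.pow_restrict n h1 (hmaps μ)).symm
    rw [h2]
    exact trace_pow_of_nilpotent _ μ (f.isNilpotent_restrict_maxGenEigenspace_sub_algebraMap μ) n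

/-- The dimensions of the generalized eigenspaces add up. -/
theorem trace_pow_eq_sum' {V : Type*} [AddCommGroup V] [Module ℂ V] [FiniteDimensional ℂ V]
    (f : Module.End ℂ V) :
    ∃ (s : Finset ℂ) (c : ℂ → ℕ), (∀ μ ∈ s, f.HasEigenvalue μ) ∧
      (∑ μ ∈ s, c μ = finrank ℂ V) ∧
      ∀ n : ℕ, LinearMap.trace ℂ V (f ^ n) = ∑ μ ∈ s, (c μ : ℂ) * μ ^ n := by
  obtain ⟨s, hs, h⟩ := trace_pow_eq_sum f
  refine ⟨s, fun μ => finrank ℂ (f.maxGenEigenspace μ), hs, ?_, h⟩
  have h0 := h 0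
  simp only [pow_zero, mul_one] at h0
  have h1 : LinearMap.trace ℂ V (1 : Module.End ℂ V) = (finrank ℂ V : ℂ) :=
    LinearMap.trace_one ℂ V
  rw [h1] at h0
  exact_mod_cast h0.symm

/-- The traces of the powers of a complex matrix are power sums. -/
theorem sad_trace_pow {m : Type*} [Fintype m] [DecidableEq m] (M : Matrix m m ℂ) :
    ∃ (s : Finset ℂ) (c : ℂ → ℕ), ∀ n : ℕ, (M ^ n).trace = ∑ μ ∈ s, (c μ : ℂ) * μ ^ n := by
  obtain ⟨s, c, -, -, h⟩ := trace_pow_eq_sum' (Matrix.toLin' M)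
  refine ⟨s, c, fun n => ?_⟩
  rw [← h n, ← Matrix.toLin'_pow, Matrix.trace_toLin'_eq]

/-- An eigenvalue of the multiplication by `g` in a finite dimensional commutative algebra over
`ℂ` is the value of `g` at a point. -/
theorem exists_point {A : Type*} [CommRing A] [Algebra ℂ A] [Module.Finite ℂ A] (g : A) (μ : ℂ)
    (h : Module.End.HasEigenvalue (LinearMap.mulLeft ℂ g) μ) : ∃ φ : A →ₐ[ℂ] ℂ, φ g = μ := by
  obtain ⟨v, hv⟩ := h.exists_hasEigenvector
  have hv1 : g * v = μ • v := by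
    have := hv.apply_eq_smul
    simpa using this
  have hv0 : v ≠ 0 := hv.2
  have hz : (g - algebraMap ℂ A μ) * v = 0 := by
    rw [sub_mul, hv1, Algebra.smul_def, sub_self]
  have hnu : ¬ IsUnit (g - algebraMap ℂ A μ) := by
    intro hu
    apply hv0
    exact (hu.mul_right_eq_zero).1 hz
  obtain ⟨I, hI, hmem⟩ := exists_max_ideal_of_mem_nonunits hnu
  have := hI
  let _ : Field (A ⧸ I) := Ideal.Quotient.field I
  have : Module.Finite ℂ (A ⧸ I) := Module.Finite.of_surjective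
    (Ideal.Quotient.mkₐ ℂ I).toLinearMap (Ideal.Quotient.mkₐ_surjective ℂ I)
  have : Algebra.IsIntegral ℂ (A ⧸ I) := Algebra.IsIntegral.of_finite ℂ (A ⧸ I)
  have hbij := IsAlgClosed.algebraMap_bijective_of_isIntegral (k := ℂ) (K := A ⧸ I)
  let e : ℂ ≃ₐ[ℂ] (A ⧸ I) := AlgEquiv.ofBijective (Algebra.ofId ℂ (A ⧸ I)) hbij
  refine ⟨(e.symm : (A ⧸ I) →ₐ[ℂ] ℂ).comp (Ideal.Quotient.mkₐ ℂ I), ?_⟩
  have h1 : Ideal.Quotient.mkₐ ℂ I g = e μ := by
    have h2 : Ideal.Quotient.mkₐ ℂ I (g - algebraMap ℂ A μ) = 0 := by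
      rw [Ideal.Quotient.mkₐ_eq_mk, Ideal.Quotient.eq_zero_iff_mem]
      exact hmem
    rw [map_sub, sub_eq_zero] at h2
    rw [h2]
    rw [AlgHom.commutes]
    rfl
  change e.symm (Ideal.Quotient.mkₐ ℂ I g) = μ
  rw [h1, AlgEquiv.symm_apply_apply]

/-- If all values of `g` at the points of a finite dimensional commutative algebra `A` are at most
`C` in modulus, the trace of the multiplication by `g` is at most `C * dim A`. -/
theorem sad_norm_trace_le {A : Type*} [CommRing A] [Algebra ℂ A] [Module.Finite ℂ A] (g : A)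
    (C : ℝ) (h : ∀ φ : A →ₐ[ℂ] ℂ, ‖φ g‖ ≤ C) :
    ‖LinearMap.trace ℂ A (LinearMap.mulLeft ℂ g)‖ ≤ C * (finrank ℂ A : ℝ) := by
  obtain ⟨s, c, hs, hc, ht⟩ := trace_pow_eq_sum' (LinearMap.mulLeft ℂ g)
  have h1 := ht 1
  rw [pow_one] at h1
  rw [h1, ← hc]
  push_cast
  rw [Finset.mul_sum]
  refine (norm_sum_le _ _).trans (Finset.sum_le_sum fun μ hμ => ?_)
  obtain ⟨φ, hφ⟩ := exists_point g μ (hs μ hμ)
  have h2 := h φ
  rw [hφ] at h2
  rw [norm_mul, pow_one, Complex.norm_natCast, mul_comm]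
  exact mul_le_mul_of_nonneg_right h2 (Nat.cast_nonneg _)

/-- Recurrence of the arguments of the powers of finitely many complex numbers. -/
theorem sad_recur (s : Finset ℂ) (n0 : ℕ) :
    ∃ n ≥ n0, ∀ z ∈ s, ‖z ^ n - ((‖z‖ ^ n : ℝ) : ℂ)‖ ≤ (1 / 2) * ‖z‖ ^ n := by
  classical
  -- the unit vectors
  let w : ℂ → ℂ := fun z => if z = 0 then 1 else z / (‖z‖ : ℂ)
  have hw : ∀ z, ‖w z‖ = 1 := by
    intro z
    by_cases hz : z = 0
    · simp [w, hz]
    · have : (‖z‖ : ℝ) ≠ 0 := norm_ne_zero_iff.2 hz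
      simp only [w, hz, if_false]
      rw [norm_div, Complex.norm_real, norm_norm, div_self this]
  have hzw : ∀ z, z = (‖z‖ : ℂ) * w z := by
    intro z
    by_cases hz : z = 0
    · simp [w, hz]
    · have : ((‖z‖ : ℝ) : ℂ) ≠ 0 := by exact_mod_cast norm_ne_zero_iff.2 hz
      simp only [w, hz, if_false]
      field_simp
  let u : ℕ → (s → ℂ) := fun n i => w i ^ n
  have hu : ∀ n, u n ∈ Metric.closedBall (0 : s → ℂ) 1 := by
    intro n
    rw [mem_closedBall_zero_iff, pi_norm_le_iff_of_nonneg zero_le_one]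
    intro i
    simp only [u, norm_pow, hw, one_pow]
    exact le_refl _
  obtain ⟨L, -, φ, hφ, hL⟩ := (isCompact_closedBall (0 : s → ℂ) 1).tendsto_subseq hu
  have hC := hL.cauchySeq
  rw [Metric.cauchySeq_iff] at hC
  obtain ⟨N, hN⟩ := hC (1 / 2) (by norm_num)
  have hle : N ≤ N + n0 := Nat.le_add_right _ _
  have hd := hN (N + n0) hle N (le_refl N)
  have hmono : φ N + n0 ≤ φ (N + n0) := by
    have := hφ.le_apply (x := n0)
    clear this
    induction n0 with
    | zero => simp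
    | succ k ih =>
      have h1 : φ (N + k) < φ (N + (k + 1)) := hφ (by omega)
      by_cases hk : φ N + k ≤ φ (N + k)
      · omega
      · exfalso
        have h3 : ∀ k, φ N + k ≤ φ (N + k) := by
          intro k
          induction k with
          | zero => simp
          | succ j ihj =>
            have h1 : φ (N + j) < φ (N + (j + 1)) := hφ (by omega)
            omega
        exact hk (h3 k)
  refine ⟨φ (N + n0) - φ N, by omega, fun z hz => ?_⟩
  set n := φ (N + n0) - φ N with hn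
  have hsum : φ (N + n0) = φ N + n := by omega
  have h1 : ‖w z ^ n - 1‖ ≤ 1 / 2 := by
    have h2 : dist (w z ^ φ (N + n0)) (w z ^ φ N) ≤ 1 / 2 := by
      have h3 := (dist_le_pi_dist ((u ∘ φ) (N + n0)) ((u ∘ φ) N) ⟨z, hz⟩)
      exact h3.trans hd.le
    rw [dist_eq_norm, hsum, pow_add] at h2
    have h4 : w z ^ φ N * w z ^ n - w z ^ φ N = w z ^ φ N * (w z ^ n - 1) := by ring
    rw [h4, norm_mul, norm_pow, hw, one_pow, one_mul] at h2
    exact h2
  have h5 : z ^ n - ((‖z‖ ^ n : ℝ) : ℂ) = ((‖z‖ ^ n : ℝ) : ℂ) * (w z ^ n - 1) := by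
    conv_lhs => rw [hzw z]
    have h6 : ‖((‖z‖ : ℂ) * w z)‖ = ‖z‖ := by rw [← hzw z]
    rw [h6]
    push_cast
    ring
  rw [h5, norm_mul, Complex.norm_real, norm_pow, norm_norm, mul_comm]
  exact mul_le_mul_of_nonneg_right h1 (by positivity)

/-- The real part of a number close to a nonnegative real. -/
theorem re_ge_half {z : ℂ} {r : ℝ} (h : ‖z - (r : ℂ)‖ ≤ (1 / 2) * r) : r / 2 ≤ z.re := by
  have h1 := (Complex.abs_re_le_norm (z - (r : ℂ))).trans h
  rw [Complex.sub_re, Complex.ofReal_re, abs_le] at h1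
  linarith [h1.1]

/-- The final contradiction: `(1 + δ ^ n) (D ^ (2 n) - D ^ n) + tr (M ^ n)` is larger than
`(1 + |δ| ^ n) D ^ n` for infinitely many `n`. -/
theorem sad_concl {m : Type*} [Fintype m] [DecidableEq m] (D : ℕ) (hD : 2 ≤ D) (δ : ℂ)
    (M : Matrix m m ℂ) (n0 : ℕ) :
    ∃ n ≥ n0, (1 + ‖δ‖ ^ n) * (D : ℝ) ^ n <
      ‖(1 + δ ^ n) * ((D : ℂ) ^ (2 * n) - (D : ℂ) ^ n) + (M ^ n).trace‖ := by
  classical
  obtain ⟨s, c, hM⟩ := sad_trace_pow M
  obtain ⟨n, hn, hrec⟩ := sad_recur (insert δ s) (max n0 2)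
  have hn0 : n0 ≤ n := (le_max_left _ _).trans hn
  have hn2 : 2 ≤ n := (le_max_right _ _).trans hn
  refine ⟨n, hn0, ?_⟩
  have hδ : ‖δ‖ ^ n / 2 ≤ (δ ^ n).re := re_ge_half (hrec δ (Finset.mem_insert_self _ _))
  have hDn : (4 : ℝ) ≤ (D : ℝ) ^ n := by
    have h1 : (2 : ℝ) ≤ (D : ℝ) := by exact_mod_cast hD
    calc (4 : ℝ) = 2 ^ 2 := by norm_num
      _ ≤ (D : ℝ) ^ 2 := by gcongr
      _ ≤ (D : ℝ) ^ n := pow_le_pow_right₀ (by linarith) hn2
  have hre : ((1 + δ ^ n) * ((D : ℂ) ^ (2 * n) - (D : ℂ) ^ n) + (M ^ n).trace).re =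
      (1 + (δ ^ n).re) * ((D : ℝ) ^ n * ((D : ℝ) ^ n - 1)) +
        ∑ μ ∈ s, (c μ : ℝ) * (μ ^ n).re := by
    rw [Complex.add_re, hM n, Complex.re_sum]
    have e1 : ((D : ℂ) ^ (2 * n) - (D : ℂ) ^ n) =
        ((((D : ℝ) ^ n * ((D : ℝ) ^ n - 1)) : ℝ) : ℂ) := by
      push_cast
      ring
    rw [e1, Complex.re_mul_ofReal, Complex.add_re, Complex.one_re]
    congr 1
    apply Finset.sum_congr rfl
    intro μ _
    have e2 : ((c μ : ℂ)) = (((c μ : ℝ)) : ℂ) := by push_cast; rfl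
    rw [e2, Complex.re_ofReal_mul]
  have hsum : 0 ≤ ∑ μ ∈ s, (c μ : ℝ) * (μ ^ n).re := by
    apply Finset.sum_nonneg
    intro μ hμ
    have h1 : ‖μ‖ ^ n / 2 ≤ (μ ^ n).re := re_ge_half (hrec μ (Finset.mem_insert_of_mem hμ))
    have h2 : 0 ≤ ‖μ‖ ^ n / 2 := by positivity
    exact mul_nonneg (Nat.cast_nonneg _) (h2.trans h1)
  have hlow : (1 + ‖δ‖ ^ n) * (D : ℝ) ^ n <
      (1 + (δ ^ n).re) * ((D : ℝ) ^ n * ((D : ℝ) ^ n - 1)) := by
    have hx : 0 ≤ ‖δ‖ ^ n := by positivity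
    set x := ‖δ‖ ^ n with hxdef
    set X := (D : ℝ) ^ n with hX
    have h1 : 1 + x / 2 ≤ 1 + (δ ^ n).re := by linarith
    have h3 : (1 + x / 2) * (X * (X - 1)) ≤ (1 + (δ ^ n).re) * (X * (X - 1)) :=
      mul_le_mul_of_nonneg_right h1 (by nlinarith)
    have h4 : (1 + x) * X < (1 + x / 2) * (X * (X - 1)) := by
      have h5 : (1 + x / 2) * (X * (X - 1)) - (1 + x) * X = X * ((1 + x / 2) * (X - 1) - (1 + x)) := by
        ring
      have h6 : 0 < (1 + x / 2) * (X - 1) - (1 + x) := by nlinarith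
      have h7 : 0 < X * ((1 + x / 2) * (X - 1) - (1 + x)) := mul_pos (by linarith) h6
      linarith
    linarith
  calc (1 + ‖δ‖ ^ n) * (D : ℝ) ^ n
      < (1 + (δ ^ n).re) * ((D : ℝ) ^ n * ((D : ℝ) ^ n - 1)) +
        ∑ μ ∈ s, (c μ : ℝ) * (μ ^ n).re := by linarith
    _ = ((1 + δ ^ n) * ((D : ℂ) ^ (2 * n) - (D : ℂ) ^ n) + (M ^ n).trace).re := hre.symm
    _ ≤ ‖(1 + δ ^ n) * ((D : ℂ) ^ (2 * n) - (D : ℂ) ^ n) + (M ^ n).trace‖ :=
        Complex.re_le_norm _

/-- Two numbers which are both in the closed unit disc or both outside the open unit disc. -/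
theorem sad_eig (l m : ℂ) (h : (1 ≤ ‖l‖ ∧ 1 ≤ ‖m‖) ∨ (‖l‖ ≤ 1 ∧ ‖m‖ ≤ 1)) :
    ‖l + m‖ ≤ 1 + ‖l * m‖ := by
  rw [norm_mul]
  have h1 := norm_add_le l m
  rcases h with ⟨h2, h3⟩ | ⟨h2, h3⟩ <;> nlinarith

end SAD
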