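import Mathlib

/-!
# Saddle points of Henon maps: definitions

Ordered products of matrices, the Jacobian matrices of Henon maps and the trace of their product.
The cyclic system of `N` sites is `P_i(x_i) = x_{i+1} + a_i x_{i-1}` (indices modulo `N`); its
solutions are the periodic orbits of the maps `(x, y) ↦ (P_i(x) - a_i y, x)`.
-/

set_option autoImplicit false

open Polynomial

namespace Pool.Agent.SAD

/-- the ordered product `C (n-1) * ... * C 0` -/
def mprod {S m : Type*} [CommRing S] [Fintype m] [DecidableEq m] (C : ℕ → Matrix m m S) :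
    ℕ → Matrix m m S
  | 0 => 1
  | n + 1 => C n * mprod C n

/-- the Jacobian matrix of `(x, y) ↦ (P(x) - a y, x)`, `p = P'(x)` -/
def cm {S : Type*} [CommRing S] (p a : S) : Matrix (Fin 2) (Fin 2) S := !![p, -a; 1, 0]

/-- the product of the Jacobian matrices -/
def cprod {S : Type*} [CommRing S] (p a : ℕ → S) (n : ℕ) : Matrix (Fin 2) (Fin 2) S :=
  mprod (fun i => cm (p i) (a i)) n

/-- the trace of the product of the Jacobian matrices -/
def tr2 {S : Type*} [CommRing S] (p a : ℕ → S) (n : ℕ) : S :=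
  cprod p a n 0 0 + cprod p a n 1 1

/-- a solution of the cyclic system with `N` sites -/
def IsSol {A : Type*} [CommRing A] [Algebra ℂ A] (N : ℕ) (P : ℕ → ℂ[X]) (a : ℕ → ℂ)
    (x : ℕ → A) : Prop :=
  (∀ i, x (i + N) = x i) ∧ ∀ i < N, aeval (x i) (P i) = x (i + 1) + a i • x (i + N - 1)

/-- the trace of the Jacobian of the return map, as an element of the algebra -/
noncomputable def TT {A : Type*} [CommRing A] [Algebra ℂ A] (N : ℕ) (P : ℕ → ℂ[X]) (a : ℕ → ℂ)
    (x : ℕ → A) : A :=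
  tr2 (fun i => aeval (x i) (derivative (P i))) (fun i => algebraMap ℂ A (a i)) N

/-- the exponent `(deg P_i - 1)_i` -/
noncomputable def top (N : ℕ) (P : ℕ → ℂ[X]) : Fin N →₀ ℕ :=
  Finsupp.equivFunOnFinite.symm fun i : Fin N => (P i).natDegree - 1

/-- the residue functional on monomials of small degree -/
def IsRho {A : Type*} [CommRing A] [Algebra ℂ A] (N : ℕ) (P : ℕ → ℂ[X]) (x : ℕ → A)
    (ρ : A →ₗ[ℂ] ℂ) : Prop :=
  ∀ β : Fin N →₀ ℕ, β.degree ≤ (top N P).degree →
    ρ (∏ i : Fin N, x i ^ β i) = if β = top N P then 1 else 0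

/-- `σ(P)`: the coefficient of `X^(d-1)` in `P'^2` modulo `P` -/
noncomputable def sg (P : ℂ[X]) : ℂ :=
  ((derivative P ^ 2) %ₘ P).coeff (P.natDegree - 1)

/-- the four boundary states and the transfer matrices of the letters `0`, `+`, `-`:
`0 : s0 → s0`, `+ : s0 → s1, s+ → s+`, `- : s1 → s0, s- → s-` (states numbered `0, 1, 2, 3`);
the entry `(s', s)` is the number of transitions from `s` to `s'` -/
def ZZ (c : Fin 3) : Matrix (Fin 4) (Fin 4) ℂ :=
  match c with
  | 0 => !![1, 0, 0, 0; 0, 0, 0, 0; 0, 0, 0, 0; 0, 0, 0, 0]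
  | 1 => !![0, 0, 0, 0; 1, 0, 0, 0; 0, 0, 1, 0; 0, 0, 0, 0]
  | 2 => !![0, 1, 0, 0; 0, 0, 0, 0; 0, 0, 0, 0; 0, 0, 0, 1]

/-- the weights of the letters `0`, `+`, `-` at a site with degree `d` -/
def WW (s d a : ℂ) (c : Fin 3) : Matrix (Fin 3) (Fin 3) ℂ :=
  match c with
  | 0 => !![s, -(a * d), 0; 2 * d, 0, 0; 0, 0, 0]
  | 1 => !![d ^ 2, 0, 0; 0, 0, 0; 0, 0, 0]
  | 2 => !![a * d ^ 2, 0, 0; 0, 0, 0; 0, 0, 0]

open scoped Kronecker in
/-- the transfer matrix of a site -/
noncomputable def VV (P : ℂ[X]) (a : ℂ) : Matrix (Fin 4 × Fin 3) (Fin 4 × Fin 3) ℂ :=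
  ∑ c : Fin 3, ZZ c ⊗ₖ WW (sg P) P.natDegree a c

end Pool.Agent.SAD
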