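import Mathlib
import Pool.Agent.SAD.Defs

set_option autoImplicit false

/-!
# SAD / Bez: the kernel of a cyclic Henon system and the trace formula

`A` is a commutative algebra generated by `x i` (`i : ℕ`, period `N`) with
`P i (x i) = x (i+1) + a i • x (i+N-1)` for `i < N`, and `ρ` is a linear functional on `A` which
on the monomials of total degree at most `∑ (d i - 1)` is the coefficient of `∏ x i ^ (d i - 1)`.
Then `A` is finite dimensional and `trace (g ·) = ρ (g * (T - 1 - ∏ a i))` with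
`T = trace ∏ [[P i '(x i), - a i], [1, 0]]`.
-/

namespace Pool.Agent.SAD

open Finset TensorProduct

section Ring

variable {S : Type*} [CommRing S]

@[simp] lemma cprod_zero (p a : ℕ → S) : cprod p a 0 = 1 := rfl

lemma cprod_succ (p a : ℕ → S) (n : ℕ) : cprod p a (n + 1) = cm (p n) (a n) * cprod p a n := rfl

lemma cprod_succ_00 (p a : ℕ → S) (n : ℕ) :
    cprod p a (n + 1) 0 0 = p n * cprod p a n 0 0 - a n * cprod p a n 1 0 := by
  rw [cprod_succ]
  simp [cm, Matrix.mul_apply, Fin.sum_univ_two]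
  ring

lemma cprod_succ_01 (p a : ℕ → S) (n : ℕ) :
    cprod p a (n + 1) 0 1 = p n * cprod p a n 0 1 - a n * cprod p a n 1 1 := by
  rw [cprod_succ]
  simp [cm, Matrix.mul_apply, Fin.sum_univ_two]
  ring

lemma cprod_succ_10 (p a : ℕ → S) (n : ℕ) :
    cprod p a (n + 1) 1 0 = cprod p a n 0 0 := by
  rw [cprod_succ]
  simp [cm, Matrix.mul_apply, Fin.sum_univ_two]

lemma cprod_succ_11 (p a : ℕ → S) (n : ℕ) :
    cprod p a (n + 1) 1 1 = cprod p a n 0 1 := by
  rw [cprod_succ]
  simp [cm, Matrix.mul_apply, Fin.sum_univ_two]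

lemma tr2_eq (p a : ℕ → S) (n : ℕ) : tr2 p a n = (cprod p a n).trace := by
  simp [tr2, Matrix.trace_fin_two]

lemma det_cprod (p a : ℕ → S) (n : ℕ) :
    cprod p a n 0 0 * cprod p a n 1 1 - cprod p a n 0 1 * cprod p a n 1 0 =
      ∏ i ∈ range n, a i := by
  induction n with
  | zero => simp
  | succ n ih =>
    rw [cprod_succ_00, cprod_succ_01, cprod_succ_10, cprod_succ_11, prod_range_succ, ← ih]
    ring

lemma map_cprod {S' : Type*} [CommRing S'] (f : S →+* S') (p a : ℕ → S) (n : ℕ) :
    ∀ i j, f (cprod p a n i j) = cprod (fun k => f (p k)) (fun k => f (a k)) n i j := by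
  induction n with
  | zero =>
    intro i j
    fin_cases i <;> fin_cases j <;> simp
  | succ n ih =>
    intro i j
    fin_cases i <;> fin_cases j
    · simp only [Fin.zero_eta, cprod_succ_00, map_sub, map_mul, ih]
    · simp only [Fin.zero_eta, Fin.mk_one, cprod_succ_01, map_sub, map_mul, ih]
    · simp only [Fin.zero_eta, Fin.mk_one, cprod_succ_10, ih]
    · simp only [Fin.mk_one, cprod_succ_11, ih]

lemma map_tr2 {S' : Type*} [CommRing S'] (f : S →+* S') (p a : ℕ → S) (n : ℕ) :
    f (tr2 p a n) = tr2 (fun k => f (p k)) (fun k => f (a k)) n := by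
  simp only [tr2, map_add, map_cprod]

lemma cprod_congr (p a p' a' : ℕ → S) (n : ℕ) (hp : ∀ i < n, p i = p' i) (ha : ∀ i < n, a i = a' i) :
    cprod p a n = cprod p' a' n := by
  induction n with
  | zero => rfl
  | succ n ih =>
    rw [cprod_succ, cprod_succ, ih (fun i hi => hp i (by omega)) (fun i hi => ha i (by omega)),
      hp n (by omega), ha n (by omega)]

/-- the kernel relation -/
lemma kernel (N : ℕ) (hN : 1 ≤ N) (D p a : ℕ → S) (hper : ∀ i, D (i + N) = D i)
    (h : ∀ i < N, p i * D i = D (i + 1) + a i * D (i + N - 1)) :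
    ∀ j ≤ N, (tr2 p a N - 1 - ∏ i ∈ range N, a i) * D j = 0 := by
  have key : ∀ n ≤ N, D n = cprod p a n 0 0 * D 0 + cprod p a n 0 1 * D (N - 1) ∧
      D (n + N - 1) = cprod p a n 1 0 * D 0 + cprod p a n 1 1 * D (N - 1) := by
    intro n
    induction n with
    | zero => intro _; simp
    | succ n ih =>
      intro hn
      obtain ⟨h1, h2⟩ := ih (by omega)
      have h3 := h n (by omega)
      have h4 : D (n + 1 + N - 1) = D n := by
        rw [show n + 1 + N - 1 = n + N by omega, hper]
      refine ⟨?_, ?_⟩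
      · rw [cprod_succ_00, cprod_succ_01]
        linear_combination -h3 + p n * h1 - a n * h2
      · rw [h4, cprod_succ_10, cprod_succ_11]
        exact h1
  have hN1 := key N le_rfl
  have e1 : D N = D 0 := by
    have := hper 0
    rwa [zero_add] at this
  have e2 : D (N + N - 1) = D (N - 1) := by
    rw [show N + N - 1 = (N - 1) + N by omega, hper]
  rw [e1, e2] at hN1
  obtain ⟨h1, h2⟩ := hN1
  have hdet := det_cprod p a N
  have k0 : (tr2 p a N - 1 - ∏ i ∈ range N, a i) * D 0 = 0 := by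
    rw [← hdet, tr2]
    linear_combination (cprod p a N 1 1 - 1) * h1 - cprod p a N 0 1 * h2
  have k1 : (tr2 p a N - 1 - ∏ i ∈ range N, a i) * D (N - 1) = 0 := by
    rw [← hdet, tr2]
    linear_combination (cprod p a N 0 0 - 1) * h2 - cprod p a N 1 0 * h1
  intro j hj
  rw [(key j hj).1]
  linear_combination cprod p a j 0 0 * k0 + cprod p a j 0 1 * k1

end Ring

section Dd

variable {S : Type*} [CommRing S] [Algebra ℂ S]

/-- divided difference -/
noncomputable def dd (P : Polynomial ℂ) (u v : S) : S :=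
  P.sum (fun k c => algebraMap ℂ S c * ∑ s ∈ range k, u ^ s * v ^ (k - 1 - s))

lemma dd_mul_sub (P : Polynomial ℂ) (u v : S) :
    dd P u v * (u - v) = Polynomial.aeval u P - Polynomial.aeval v P := by
  rw [dd, Polynomial.sum, Finset.sum_mul, Polynomial.aeval_eq_sum_range,
    Polynomial.aeval_eq_sum_range]
  rw [← Finset.sum_sub_distrib]
  rw [Polynomial.natDegree]
  have h1 : ∀ n ∈ P.support, algebraMap ℂ S (P.coeff n) * (∑ s ∈ range n, u ^ s * v ^ (n - 1 - s)) *
      (u - v) = P.coeff n • u ^ n - P.coeff n • v ^ n := by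
    intro n _
    rw [mul_assoc, (Commute.all u v).geom_sum₂_mul, Algebra.smul_def, Algebra.smul_def]
    ring
  rw [Finset.sum_congr rfl h1]
  apply Finset.sum_subset
  · intro n hn
    simp only [Finset.mem_range]
    exact Nat.lt_succ_of_le (Polynomial.le_natDegree_of_mem_supp n hn)
  · intro n _ hn
    rw [Polynomial.notMem_support_iff] at hn
    simp [hn]

lemma map_dd {S' : Type*} [CommRing S'] [Algebra ℂ S'] (f : S →ₐ[ℂ] S') (P : Polynomial ℂ)
    (u v : S) : f (dd P u v) = dd P (f u) (f v) := by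
  simp only [dd, Polynomial.sum, map_sum, map_mul, map_pow, AlgHom.commutes]

lemma dd_self (P : Polynomial ℂ) (u : S) :
    dd P u u = Polynomial.aeval u (Polynomial.derivative P) := by
  rw [dd, Polynomial.derivative, Polynomial.sum]
  simp only [LinearMap.coe_mk, AddHom.coe_mk, Polynomial.sum, map_sum, map_mul, map_pow,
    Polynomial.aeval_C, Polynomial.aeval_X, map_natCast]
  apply Finset.sum_congr rfl
  intro n _
  have h1 : ∀ s ∈ range n, u ^ s * u ^ (n - 1 - s) = u ^ (n - 1) := by
    intro s hs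
    rw [← pow_add]
    congr 1
    have := Finset.mem_range.mp hs
    omega
  rw [Finset.sum_congr rfl h1]
  simp
  ring

end Dd

section Low

open MvPolynomial

variable {σ : Type*} {A : Type*} [CommRing A]

/-- all monomials have total degree smaller than `k` -/
def LowD (k : ℕ) (p : MvPolynomial σ A) : Prop := ∀ β : σ →₀ ℕ, k ≤ β.degree → coeff β p = 0

lemma LowD.mono {j k : ℕ} (h : j ≤ k) {p : MvPolynomial σ A} (hp : LowD j p) : LowD k p :=
  fun β hβ => hp β (h.trans hβ)

lemma LowD.add {k : ℕ} {p q : MvPolynomial σ A} (hp : LowD k p) (hq : LowD k q) :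
    LowD k (p + q) := by
  intro β hβ
  rw [coeff_add, hp β hβ, hq β hβ, add_zero]

lemma LowD.sub {k : ℕ} {p q : MvPolynomial σ A} (hp : LowD k p) (hq : LowD k q) :
    LowD k (p - q) := by
  intro β hβ
  rw [coeff_sub, hp β hβ, hq β hβ, sub_zero]

lemma lowD_zero (k : ℕ) : LowD k (0 : MvPolynomial σ A) := by
  intro β _
  simp

lemma LowD.sum {k : ℕ} {ι : Type*} (s : Finset ι) (f : ι → MvPolynomial σ A)
    (h : ∀ i ∈ s, LowD k (f i)) : LowD k (∑ i ∈ s, f i) := by
  intro β hβ
  rw [coeff_sum]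
  exact Finset.sum_eq_zero (fun i hi => h i hi β hβ)

lemma LowD.mul {j k : ℕ} {p q : MvPolynomial σ A} (hp : LowD (j + 1) p) (hq : LowD k q) :
    LowD (j + k) (p * q) := by
  classical
  intro β hβ
  rw [coeff_mul]
  apply Finset.sum_eq_zero
  rintro ⟨u, v⟩ huv
  rw [Finset.HasAntidiagonal.mem_antidiagonal] at huv
  simp only at huv
  have hd : u.degree + v.degree = β.degree := by
    rw [← huv, map_add]
  rcases Nat.lt_or_ge j u.degree with h1 | h1
  · simp only
    rw [hp u h1, zero_mul]
  · simp only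
    rw [hq v (by omega), mul_zero]

lemma LowD.mul' {j k : ℕ} {p q : MvPolynomial σ A} (hp : LowD j p) (hq : LowD (k + 1) q) :
    LowD (j + k) (p * q) := by
  rw [mul_comm, add_comm]
  exact hq.mul hp

lemma lowD_C (c : A) : LowD 1 (C c : MvPolynomial σ A) := by
  classical
  intro β hβ
  rw [coeff_C, if_neg]
  rintro rfl
  simp at hβ

lemma lowD_one : LowD 1 (1 : MvPolynomial σ A) := by
  rw [← C_1]
  exact lowD_C 1

lemma lowD_monomial (β : σ →₀ ℕ) (c : A) {k : ℕ} (h : β.degree < k) :
    LowD k (monomial β c) := by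
  classical
  intro γ hγ
  rw [coeff_monomial, if_neg]
  rintro rfl
  omega

/-- the monomial `β` is the only one of degree at least `β.degree`, with coefficient `1` -/
def HT (p : MvPolynomial σ A) (β : σ →₀ ℕ) : Prop := LowD β.degree (p - monomial β 1)

lemma HT.lowD {p : MvPolynomial σ A} {β : σ →₀ ℕ} (h : HT p β) : LowD (β.degree + 1) p := by
  have h1 : p = (p - monomial β 1) + monomial β 1 := by ring
  rw [h1]
  exact (LowD.mono (by omega) h).add (lowD_monomial β 1 (by omega))

lemma HT.mul {p q : MvPolynomial σ A} {β γ : σ →₀ ℕ} (hp : HT p β) (hq : HT q γ) :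
    HT (p * q) (β + γ) := by
  unfold HT
  have h1 : p * q - monomial (β + γ) 1 =
      (p - monomial β 1) * q + monomial β 1 * (q - monomial γ 1) := by
    have : (monomial (β + γ) (1 : A)) = monomial β 1 * monomial γ 1 := by
      rw [monomial_mul, mul_one]
    rw [this]
    ring
  rw [h1, map_add]
  exact (LowD.mul' hp hq.lowD).add (LowD.mul (lowD_monomial β 1 (by omega)) hq)

lemma HT.add {p q : MvPolynomial σ A} {β : σ →₀ ℕ} (hp : HT p β) (hq : LowD β.degree q) :
    HT (p + q) β := by
  unfold HT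
  rw [show p + q - monomial β 1 = (p - monomial β 1) + q by ring]
  exact LowD.add hp hq

lemma HT.sub {p q : MvPolynomial σ A} {β : σ →₀ ℕ} (hp : HT p β) (hq : LowD β.degree q) :
    HT (p - q) β := by
  unfold HT
  rw [show p - q - monomial β 1 = (p - monomial β 1) - q by ring]
  exact LowD.sub hp hq

/-- the product of elementary matrices has one leading entry -/
lemma cprod_top (p : ℕ → MvPolynomial σ A) (a : ℕ → A) (t : ℕ → σ →₀ ℕ)
    (ht : ∀ i, 1 ≤ (t i).degree) (hp : ∀ i, HT (p i) (t i)) :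
    ∀ n, 1 ≤ n → HT (cprod p (fun i => C (a i)) n 0 0) (∑ i ∈ range n, t i) ∧
      LowD (∑ i ∈ range n, t i).degree (cprod p (fun i => C (a i)) n 0 1) ∧
      LowD (∑ i ∈ range n, t i).degree (cprod p (fun i => C (a i)) n 1 0) ∧
      LowD (∑ i ∈ range n, t i).degree (cprod p (fun i => C (a i)) n 1 1) := by
  intro n hn
  induction n, hn using Nat.le_induction with
  | base =>
    rw [cprod_succ_00, cprod_succ_01, cprod_succ_10, cprod_succ_11]
    simp only [cprod_zero, range_one, sum_singleton]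
    have e1 : (1 : Matrix (Fin 2) (Fin 2) (MvPolynomial σ A)) 1 0 = 0 := rfl
    have e2 : (1 : Matrix (Fin 2) (Fin 2) (MvPolynomial σ A)) 0 1 = 0 := rfl
    have e3 : (1 : Matrix (Fin 2) (Fin 2) (MvPolynomial σ A)) 0 0 = 1 := rfl
    have e4 : (1 : Matrix (Fin 2) (Fin 2) (MvPolynomial σ A)) 1 1 = 1 := rfl
    rw [e1, e2, e3, e4]
    refine ⟨?_, ?_, ?_, ?_⟩
    · rw [mul_one, mul_zero, sub_zero]
      exact hp 0
    · rw [mul_one, mul_zero, zero_sub]
      rw [← zero_sub]
      exact (lowD_zero _).sub ((lowD_C _).mono (ht 0))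
    · exact lowD_one.mono (ht 0)
    · exact lowD_zero _
  | succ n hn ih =>
    obtain ⟨h1, h2, h3, h4⟩ := ih
    rw [cprod_succ_00, cprod_succ_01, cprod_succ_10, cprod_succ_11]
    have hsum : ∑ i ∈ range (n + 1), t i = t n + ∑ i ∈ range n, t i := by
      rw [sum_range_succ, add_comm]
    have htn := ht n
    have hCm : ∀ q : MvPolynomial σ A, LowD (∑ i ∈ range n, t i).degree q →
        LowD (t n + ∑ i ∈ range n, t i).degree (C (a n) * q) := by
      intro q hq
      refine LowD.mono ?_ (LowD.mul (j := 0) (lowD_C (a n)) hq)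
      rw [map_add]
      omega
    rw [hsum]
    refine ⟨?_, ?_, ?_, ?_⟩
    · exact ((hp n).mul h1).sub (hCm _ h3)
    · refine LowD.sub ?_ (hCm _ h4)
      rw [map_add]
      exact LowD.mul (hp n).lowD h2
    · refine LowD.mono ?_ h1.lowD
      rw [map_add]
      omega
    · refine LowD.mono ?_ h2
      rw [map_add]
      omega

lemma HT_tr2 (p : ℕ → MvPolynomial σ A) (a : ℕ → A) (t : ℕ → σ →₀ ℕ)
    (ht : ∀ i, 1 ≤ (t i).degree) (hp : ∀ i, HT (p i) (t i)) (n : ℕ) (hn : 1 ≤ n) (c : A) :
    HT (tr2 p (fun i => C (a i)) n - C c) (∑ i ∈ range n, t i) := by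
  obtain ⟨h1, -, -, h4⟩ := cprod_top p a t ht hp n hn
  unfold tr2
  refine (h1.add h4).sub ((lowD_C c).mono ?_)
  obtain ⟨m, rfl⟩ : ∃ m, n = m + 1 := ⟨n - 1, by omega⟩
  rw [sum_range_succ, map_add]
  have := ht m
  omega

lemma HT_dd [Algebra ℂ A] (P : Polynomial ℂ) (hP : P.Monic) (hd : 1 ≤ P.natDegree) (u : A)
    (i : σ) : HT (dd P (C u) (X i : MvPolynomial σ A)) (Finsupp.single i (P.natDegree - 1)) := by
  unfold HT
  have hlow : ∀ (s t k : ℕ), t < k → LowD k ((C u : MvPolynomial σ A) ^ s * X i ^ t) := by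
    intro s t k htk
    rw [← C_pow, X_pow_eq_monomial, C_mul_monomial]
    apply lowD_monomial
    rw [Finsupp.degree_single]
    exact htk
  have hc : ∀ (c : ℂ) (k : ℕ) (q : MvPolynomial σ A), LowD k q →
      LowD k (algebraMap ℂ (MvPolynomial σ A) c * q) := by
    intro c k q hq
    rw [IsScalarTower.algebraMap_apply ℂ A (MvPolynomial σ A), MvPolynomial.algebraMap_eq]
    have := LowD.mul (j := 0) (lowD_C (σ := σ) (algebraMap ℂ A c)) hq
    rwa [zero_add] at this
  obtain ⟨e, he⟩ : ∃ e, P.natDegree = e + 1 := ⟨P.natDegree - 1, by omega⟩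
  rw [Finsupp.degree_single]
  unfold dd
  rw [Polynomial.sum_over_range _ (by intro n; simp), sum_range_succ, hP.coeff_natDegree, map_one,
    one_mul, he]
  have e1 : e + 1 - 1 = e := rfl
  rw [e1]
  have e0 : ∑ s ∈ range (e + 1), (C u : MvPolynomial σ A) ^ s * X i ^ (e - s) =
      ∑ s ∈ range e, C u ^ (s + 1) * X i ^ (e - (s + 1)) + C u ^ 0 * X i ^ (e - 0) :=
    Finset.sum_range_succ' _ e
  rw [e0]
  have e2 : (monomial (Finsupp.single i e) (1 : A)) = X i ^ e := by
    rw [X_pow_eq_monomial]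
  rw [e2]
  have e3 : ∀ a b c : MvPolynomial σ A, a + (b + (C u ^ 0 * X i ^ (e - 0))) - X i ^ e = a + b := by
    intro a b c
    rw [pow_zero, one_mul, Nat.sub_zero]
    ring
  rw [e3 _ _ 0]
  refine LowD.add ?_ ?_
  · apply LowD.sum
    intro k hk
    rw [mem_range] at hk
    apply hc
    apply LowD.sum
    intro s hs
    rw [mem_range] at hs
    apply hlow
    omega
  · apply LowD.sum
    intro s hs
    rw [mem_range] at hs
    apply hlow
    omega

end Low

end Pool.Agent.SAD
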