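import Mathlib
import Pool.Agent.SAD.Bez

set_option autoImplicit false

/-!
# SAD / Trace: the trace formula

See `Pool.Agent.SAD.Bez`.
-/

namespace Pool.Agent.SAD

open Finset TensorProduct

variable {A : Type*} [CommRing A] [Algebra ℂ A]

/-- contraction of the second factor with `ρ` -/
noncomputable def Th (ρ : A →ₗ[ℂ] ℂ) : A ⊗[ℂ] A →ₗ[ℂ] A :=
  (TensorProduct.rid ℂ A).toLinearMap ∘ₗ (LinearMap.lTensor A ρ)

lemma Th_tmul (ρ : A →ₗ[ℂ] ℂ) (u v : A) : Th ρ (u ⊗ₜ v) = ρ v • u := by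
  simp [Th]

/-- the operator of a kernel -/
noncomputable def Op (ρ : A →ₗ[ℂ] ℂ) (w : A ⊗[ℂ] A) : A →ₗ[ℂ] A where
  toFun a := Th ρ ((1 ⊗ₜ a) * w)
  map_add' a b := by
    rw [TensorProduct.tmul_add, add_mul, map_add]
  map_smul' c a := by
    rw [TensorProduct.tmul_smul, smul_mul_assoc, map_smul]
    rfl

lemma Op_apply (ρ : A →ₗ[ℂ] ℂ) (w : A ⊗[ℂ] A) (a : A) : Op ρ w a = Th ρ ((1 ⊗ₜ a) * w) := rfl

lemma Op_tmul (ρ : A →ₗ[ℂ] ℂ) (u v a : A) : Op ρ (u ⊗ₜ v) a = ρ (a * v) • u := by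
  rw [Op_apply, Algebra.TensorProduct.tmul_mul_tmul, one_mul, Th_tmul]

lemma Op_add (ρ : A →ₗ[ℂ] ℂ) (w w' : A ⊗[ℂ] A) : Op ρ (w + w') = Op ρ w + Op ρ w' := by
  ext a
  rw [LinearMap.add_apply, Op_apply, Op_apply, Op_apply, mul_add, map_add]

lemma Op_zero (ρ : A →ₗ[ℂ] ℂ) : Op ρ (0 : A ⊗[ℂ] A) = 0 := by
  ext a
  rw [Op_apply, mul_zero, map_zero, LinearMap.zero_apply]

lemma Op_range (ρ : A →ₗ[ℂ] ℂ) (w : A ⊗[ℂ] A) :
    ∃ F : Finset A, ∀ a, Op ρ w a ∈ Submodule.span ℂ (F : Set A) := by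
  classical
  induction w using TensorProduct.induction_on with
  | zero =>
    refine ⟨∅, fun a => ?_⟩
    rw [Op_zero]
    simp
  | tmul u v =>
    refine ⟨{u}, fun a => ?_⟩
    rw [Op_tmul]
    exact Submodule.smul_mem _ _ (Submodule.subset_span (by simp))
  | add w w' h h' =>
    obtain ⟨F, hF⟩ := h
    obtain ⟨F', hF'⟩ := h'
    refine ⟨F ∪ F', fun a => ?_⟩
    rw [Op_add, LinearMap.add_apply]
    refine Submodule.add_mem _ ?_ ?_
    · exact Submodule.span_mono (by simp) (hF a)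
    · exact Submodule.span_mono (by simp) (hF' a)

lemma Op_trace [Module.Finite ℂ A] (ρ : A →ₗ[ℂ] ℂ) (w : A ⊗[ℂ] A) :
    LinearMap.trace ℂ A (Op ρ w) = ρ (LinearMap.mul' ℂ A w) := by
  induction w using TensorProduct.induction_on with
  | zero => rw [Op_zero, map_zero, map_zero, map_zero]
  | tmul u v =>
    have h1 : Op ρ (u ⊗ₜ v) =
        dualTensorHom ℂ A A ((ρ ∘ₗ LinearMap.mulRight ℂ v) ⊗ₜ u) := by
      ext a
      rw [Op_tmul, dualTensorHom_apply]
      rfl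
    rw [h1, LinearMap.trace_eq_contract_apply, contractLeft_apply, LinearMap.mul'_apply]
    rfl
  | add w w' h h' => rw [Op_add, map_add, h, h', map_add, map_add]

/-- abstract form of the trace formula -/
lemma trace_of_kernel (ρ : A →ₗ[ℂ] ℂ) (B : A ⊗[ℂ] A) (hB : Th ρ B = 1)
    (hsym : ∀ g : A, (g ⊗ₜ[ℂ] (1 : A)) * B = ((1 : A) ⊗ₜ[ℂ] g) * B) :
    Module.Finite ℂ A ∧ ∀ g : A, LinearMap.trace ℂ A (LinearMap.mulLeft ℂ g) =
      ρ (g * LinearMap.mul' ℂ A B) := by
  have hmul : ∀ (g : A) (w : A ⊗[ℂ] A), Th ρ ((g ⊗ₜ[ℂ] (1 : A)) * w) = g * Th ρ w := by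
    intro g w
    induction w using TensorProduct.induction_on with
    | zero => rw [mul_zero, map_zero, mul_zero]
    | tmul u v =>
      rw [Algebra.TensorProduct.tmul_mul_tmul, one_mul, Th_tmul, Th_tmul, mul_smul_comm]
    | add w w' h h' => rw [mul_add, map_add, h, h', map_add, mul_add]
  have hmul' : ∀ (g : A) (w : A ⊗[ℂ] A),
      LinearMap.mul' ℂ A ((g ⊗ₜ[ℂ] (1 : A)) * w) = g * LinearMap.mul' ℂ A w := by
    intro g w
    induction w using TensorProduct.induction_on with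
    | zero => rw [mul_zero, map_zero, mul_zero]
    | tmul u v =>
      rw [Algebra.TensorProduct.tmul_mul_tmul, one_mul, LinearMap.mul'_apply,
        LinearMap.mul'_apply, mul_assoc]
    | add w w' h h' => rw [mul_add, map_add, h, h', map_add, mul_add]
  have hOp : ∀ g : A, Op ρ ((g ⊗ₜ[ℂ] (1 : A)) * B) = LinearMap.mulLeft ℂ g := by
    intro g
    ext a
    rw [Op_apply, LinearMap.mulLeft_apply]
    have h1 : ((1 : A) ⊗ₜ[ℂ] a) * ((g ⊗ₜ[ℂ] (1 : A)) * B) =
        (g ⊗ₜ[ℂ] (1 : A)) * ((a ⊗ₜ[ℂ] (1 : A)) * B) := by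
      rw [hsym a]
      ring
    rw [h1, hmul, hmul, hB, mul_one]
  have hfin : Module.Finite ℂ A := by
    obtain ⟨F, hF⟩ := Op_range ρ (((1 : A) ⊗ₜ[ℂ] (1 : A)) * B)
    refine ⟨F, ?_⟩
    rw [eq_top_iff]
    intro a _
    have := hF a
    rwa [hOp 1, LinearMap.mulLeft_apply, one_mul] at this
  refine ⟨hfin, fun g => ?_⟩
  rw [← hOp g, Op_trace, hmul']

section Cyc

open MvPolynomial

variable {σ : Type*}

/-- the exponent of the leading monomial -/
noncomputable def topv (sh : ℕ → σ) (P : ℕ → Polynomial ℂ) (N : ℕ) : σ →₀ ℕ :=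
  ∑ i ∈ range N, Finsupp.single (sh i) ((P i).natDegree - 1)

theorem trace_formula (N : ℕ) (hN : 1 ≤ N) (sh : ℕ → σ) (hsh : ∀ i, sh (i + N) = sh i)
    (hsurj : ∀ j, ∃ i, sh i = j) (x : σ → A) (hgen : Algebra.adjoin ℂ (Set.range x) = ⊤)
    (P : ℕ → Polynomial ℂ) (a : ℕ → ℂ) (hP : ∀ i, (P i).Monic) (hd : ∀ i, 2 ≤ (P i).natDegree)
    (hrel : ∀ i < N, Polynomial.aeval (x (sh i)) (P i) =
      x (sh (i + 1)) + a i • x (sh (i + N - 1)))
    (ρ : A →ₗ[ℂ] ℂ)
    (h1 : ρ ((topv sh P N).prod (fun j e => x j ^ e)) = 1)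
    (h0 : ∀ β : σ →₀ ℕ, β.degree < (topv sh P N).degree → ρ (β.prod (fun j e => x j ^ e)) = 0) :
    Module.Finite ℂ A ∧ ∀ g : A, LinearMap.trace ℂ A (LinearMap.mulLeft ℂ g) =
      ρ (g * (TT N P a (fun i => x (sh i)) - 1 - algebraMap ℂ A (∏ i ∈ range N, a i))) := by
  set X' : ℕ → A ⊗[ℂ] A := fun i => x (sh i) ⊗ₜ[ℂ] (1 : A) with hX'
  set Y' : ℕ → A ⊗[ℂ] A := fun i => (1 : A) ⊗ₜ[ℂ] x (sh i) with hY'
  set B : A ⊗[ℂ] A := tr2 (fun i => dd (P i) (X' i) (Y' i))
    (fun i => algebraMap ℂ (A ⊗[ℂ] A) (a i)) N - 1 -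
      ∏ i ∈ range N, algebraMap ℂ (A ⊗[ℂ] A) (a i) with hBdef
  -- the kernel relation
  have hker : ∀ j ≤ N, B * (X' j - Y' j) = 0 := by
    apply kernel N hN (fun i => X' i - Y' i)
    · intro i
      simp only [hX', hY', hsh]
    · intro i hi
      rw [dd_mul_sub]
      have e1 : Polynomial.aeval (X' i) (P i) = (Polynomial.aeval (x (sh i)) (P i)) ⊗ₜ[ℂ] (1 : A) := by
        have := Polynomial.aeval_algHom_apply
          (Algebra.TensorProduct.includeLeft : A →ₐ[ℂ] A ⊗[ℂ] A) (x (sh i)) (P i)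
        exact this
      have e2 : Polynomial.aeval (Y' i) (P i) = (1 : A) ⊗ₜ[ℂ] (Polynomial.aeval (x (sh i)) (P i)) := by
        have := Polynomial.aeval_algHom_apply
          (Algebra.TensorProduct.includeRight : A →ₐ[ℂ] A ⊗[ℂ] A) (x (sh i)) (P i)
        exact this
      rw [e1, e2, hrel i hi, TensorProduct.add_tmul, TensorProduct.tmul_add,
        TensorProduct.tmul_smul, ← TensorProduct.smul_tmul', ← Algebra.smul_def, smul_sub]
      simp only [hX', hY']
      abel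
  have hsymx : ∀ j : σ, (x j ⊗ₜ[ℂ] (1 : A)) * B = ((1 : A) ⊗ₜ[ℂ] x j) * B := by
    intro j
    obtain ⟨i, hi⟩ := hsurj j
    have hmod : sh (i % N) = sh i := by
      have : ∀ k, sh (i % N + N * k) = sh (i % N) := by
        intro k
        induction k with
        | zero => simp
        | succ k ih => rw [Nat.mul_succ, ← add_assoc, hsh, ih]
      have h2 := this (i / N)
      rw [Nat.mod_add_div] at h2
      exact h2.symm
    have h3 := hker (i % N) (Nat.mod_lt _ hN).le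
    simp only [hX', hY', hmod, hi] at h3
    linear_combination h3
  have hsym : ∀ g : A, (g ⊗ₜ[ℂ] (1 : A)) * B = ((1 : A) ⊗ₜ[ℂ] g) * B := by
    intro g
    have hg : g ∈ Algebra.adjoin ℂ (Set.range x) := by rw [hgen]; trivial
    induction hg using Algebra.adjoin_induction with
    | mem y hy =>
      obtain ⟨j, rfl⟩ := hy
      exact hsymx j
    | algebraMap r =>
      rw [Algebra.algebraMap_eq_smul_one, ← TensorProduct.smul_tmul', TensorProduct.tmul_smul]
    | add y z _ _ h h' =>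
      rw [TensorProduct.add_tmul, TensorProduct.tmul_add, add_mul, add_mul, h, h']
    | mul y z _ _ h h' =>
      have e1 : (y * z) ⊗ₜ[ℂ] (1 : A) = (y ⊗ₜ[ℂ] (1 : A)) * (z ⊗ₜ[ℂ] (1 : A)) := by
        rw [Algebra.TensorProduct.tmul_mul_tmul, one_mul]
      have e2 : (1 : A) ⊗ₜ[ℂ] (y * z) = ((1 : A) ⊗ₜ[ℂ] y) * ((1 : A) ⊗ₜ[ℂ] z) := by
        rw [Algebra.TensorProduct.tmul_mul_tmul, one_mul]
      rw [e1, e2]
      calc (y ⊗ₜ[ℂ] (1 : A)) * (z ⊗ₜ[ℂ] (1 : A)) * B
          = (y ⊗ₜ[ℂ] (1 : A)) * ((z ⊗ₜ[ℂ] (1 : A)) * B) := by ring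
        _ = (y ⊗ₜ[ℂ] (1 : A)) * (((1 : A) ⊗ₜ[ℂ] z) * B) := by rw [h']
        _ = ((1 : A) ⊗ₜ[ℂ] z) * ((y ⊗ₜ[ℂ] (1 : A)) * B) := by ring
        _ = ((1 : A) ⊗ₜ[ℂ] z) * (((1 : A) ⊗ₜ[ℂ] y) * B) := by rw [h]
        _ = ((1 : A) ⊗ₜ[ℂ] y) * ((1 : A) ⊗ₜ[ℂ] z) * B := by ring
  -- the lift to polynomials in the second variables
  set φ : MvPolynomial σ A →ₐ[A] A ⊗[ℂ] A :=
    MvPolynomial.aeval (fun j => (1 : A) ⊗ₜ[ℂ] x j) with hφ
  have hφm : ∀ (β : σ →₀ ℕ) (c : A), φ (monomial β c) = c ⊗ₜ[ℂ] β.prod (fun j e => x j ^ e) := by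
    intro β c
    rw [hφ, MvPolynomial.aeval_monomial, Algebra.TensorProduct.algebraMap_apply]
    have e1 : (β.prod fun i k => ((1 : A) ⊗ₜ[ℂ] x i) ^ k) =
        (1 : A) ⊗ₜ[ℂ] (β.prod fun i k => x i ^ k) := by
      have h2 : ∀ y : A, (1 : A) ⊗ₜ[ℂ] y =
          (Algebra.TensorProduct.includeRight : A →ₐ[ℂ] A ⊗[ℂ] A) y := fun y => rfl
      simp only [h2]
      rw [Finsupp.prod, Finsupp.prod, map_prod]
      simp only [map_pow]
    rw [e1, Algebra.TensorProduct.tmul_mul_tmul, one_mul]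
    simp
  have hθm : ∀ (β : σ →₀ ℕ) (c : A), Th ρ (φ (monomial β c)) =
      ρ (β.prod (fun j e => x j ^ e)) • c := by
    intro β c
    rw [hφm, Th_tmul]
  have hlow : ∀ p : MvPolynomial σ A, LowD (topv sh P N).degree p → Th ρ (φ p) = 0 := by
    intro p hp
    rw [p.as_sum, map_sum, map_sum]
    apply Finset.sum_eq_zero
    intro β hβ
    rw [hθm]
    rw [MvPolynomial.mem_support_iff] at hβ
    by_cases h : β.degree < (topv sh P N).degree
    · rw [h0 β h, zero_smul]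
    · exact absurd (hp β (not_lt.mp h)) hβ
  set B' : MvPolynomial σ A := tr2 (fun i => dd (P i) (C (x (sh i))) (X (sh i)))
    (fun i => C (algebraMap ℂ A (a i))) N - C (1 + ∏ i ∈ range N, algebraMap ℂ A (a i)) with hB'
  have hBB : φ B' = B := by
    rw [hB', hBdef, map_sub]
    have e1 := map_tr2 (φ : MvPolynomial σ A →+* A ⊗[ℂ] A)
      (fun i => dd (P i) (C (x (sh i))) (X (sh i))) (fun i => C (algebraMap ℂ A (a i))) N
    have e2 : ∀ c : A, φ (C c) = c ⊗ₜ[ℂ] (1 : A) := by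
      intro c
      rw [hφ, MvPolynomial.aeval_C, Algebra.TensorProduct.algebraMap_apply]
      simp
    have e3 : ∀ c : ℂ, (algebraMap ℂ A c) ⊗ₜ[ℂ] (1 : A) = algebraMap ℂ (A ⊗[ℂ] A) c := by
      intro c
      rw [Algebra.TensorProduct.algebraMap_apply]
    have e4 : ∀ i, φ (dd (P i) (C (x (sh i))) (X (sh i))) = dd (P i) (X' i) (Y' i) := by
      intro i
      have h4 := map_dd (φ.restrictScalars ℂ) (P i) (C (x (sh i))) (X (sh i))
      have h5 : (φ.restrictScalars ℂ) (C (x (sh i))) = X' i := e2 _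
      have h6 : (φ.restrictScalars ℂ) (X (sh i)) = Y' i := by
        change φ (X (sh i)) = _
        rw [hφ, MvPolynomial.aeval_X]
      rw [h5, h6] at h4
      exact h4
    have e5 : φ (tr2 (fun i => dd (P i) (C (x (sh i))) (X (sh i)))
        (fun i => C (algebraMap ℂ A (a i))) N) = tr2 (fun i => dd (P i) (X' i) (Y' i))
        (fun i => algebraMap ℂ (A ⊗[ℂ] A) (a i)) N := by
      have e6 : (fun k => (φ : MvPolynomial σ A →+* A ⊗[ℂ] A)
          (dd (P k) (C (x (sh k))) (X (sh k)))) = fun i => dd (P i) (X' i) (Y' i) := by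
        funext k
        exact e4 k
      have e7 : (fun k => (φ : MvPolynomial σ A →+* A ⊗[ℂ] A) (C (algebraMap ℂ A (a k)))) =
          fun i => algebraMap ℂ (A ⊗[ℂ] A) (a i) := by
        funext k
        exact (e2 _).trans (e3 _)
      rw [e6, e7] at e1
      exact e1
    rw [e5, e2, TensorProduct.add_tmul]
    have e8 : (∏ i ∈ range N, algebraMap ℂ A (a i)) ⊗ₜ[ℂ] (1 : A) =
        ∏ i ∈ range N, algebraMap ℂ (A ⊗[ℂ] A) (a i) := by
      rw [← map_prod, e3, map_prod]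
    rw [e8]
    have e9 : (1 : A) ⊗ₜ[ℂ] (1 : A) = (1 : A ⊗[ℂ] A) := rfl
    rw [e9]
    ring
  have hTh : Th ρ B = 1 := by
    rw [← hBB]
    have hHT : HT B' (topv sh P N) := by
      rw [hB']
      have h2 := HT_tr2 (σ := σ) (fun i => dd (P i) (C (x (sh i))) (X (sh i)))
        (fun i => algebraMap ℂ A (a i)) (fun i => Finsupp.single (sh i) ((P i).natDegree - 1))
        (by
          intro i
          rw [Finsupp.degree_single]
          have := hd i
          omega)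
        (by
          intro i
          exact HT_dd (P i) (hP i) (by have := hd i; omega) _ _) N hN
        (1 + ∏ i ∈ range N, algebraMap ℂ A (a i))
      exact h2
    have h3 : B' = (B' - monomial (topv sh P N) 1) + monomial (topv sh P N) 1 := by ring
    rw [h3, map_add, map_add, hlow _ hHT, zero_add, hθm, h1, one_smul]
  obtain ⟨hfin, htr⟩ := trace_of_kernel ρ B hTh hsym
  refine ⟨hfin, fun g => ?_⟩
  rw [htr g]
  congr 2
  -- multiplication of the kernel
  set μ : A ⊗[ℂ] A →ₐ[ℂ] A := Algebra.TensorProduct.lmul' ℂ with hμ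
  have hμ' : LinearMap.mul' ℂ A B = μ B := rfl
  rw [hμ', hBdef, map_sub, map_sub, map_one, map_prod]
  have e1 := map_tr2 (μ : A ⊗[ℂ] A →+* A) (fun i => dd (P i) (X' i) (Y' i))
    (fun i => algebraMap ℂ (A ⊗[ℂ] A) (a i)) N
  have e2 : (fun k => (μ : A ⊗[ℂ] A →+* A) (dd (P k) (X' k) (Y' k))) =
      fun i => Polynomial.aeval (x (sh i)) (Polynomial.derivative (P i)) := by
    funext k
    have h4 := map_dd μ (P k) (X' k) (Y' k)
    have h5 : μ (X' k) = x (sh k) := by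
      rw [hμ, hX']
      simp
    have h6 : μ (Y' k) = x (sh k) := by
      rw [hμ, hY']
      simp
    rw [h5, h6, dd_self] at h4
    exact h4
  have e3 : (fun k => (μ : A ⊗[ℂ] A →+* A) (algebraMap ℂ (A ⊗[ℂ] A) (a k))) =
      fun i => algebraMap ℂ A (a i) := by
    funext k
    exact AlgHom.commutes μ _
  rw [e2, e3] at e1
  have e4 : μ (tr2 (fun i => dd (P i) (X' i) (Y' i))
      (fun i => algebraMap ℂ (A ⊗[ℂ] A) (a i)) N) = TT N P a (fun i => x (sh i)) := e1
  rw [e4, map_prod]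
  simp only [AlgHom.commutes]

/-- the trace formula for a solution of the cyclic system, in the vocabulary of `Defs` -/
theorem bez (N : ℕ) (hN : 1 ≤ N) (P : ℕ → Polynomial ℂ) (a : ℕ → ℂ) (hP : ∀ i, (P i).Monic)
    (hd : ∀ i, 2 ≤ (P i).natDegree) (x : ℕ → A) (hx : IsSol N P a x)
    (hgen : Algebra.adjoin ℂ (Set.range x) = ⊤) (ρ : A →ₗ[ℂ] ℂ) (hρ : IsRho N P x ρ) :
    Module.Finite ℂ A ∧ ∀ g : A, LinearMap.trace ℂ A (LinearMap.mulLeft ℂ g) =
      ρ (g * (TT N P a x - 1 - ∏ i ∈ range N, algebraMap ℂ A (a i))) := by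
  classical
  obtain ⟨hper, hrel⟩ := hx
  set sh : ℕ → Fin N := fun i => ⟨i % N, Nat.mod_lt _ hN⟩ with hsh
  have hperk : ∀ i k, x (i + N * k) = x i := by
    intro i k
    induction k with
    | zero => simp
    | succ k ih => rw [Nat.mul_succ, ← add_assoc, hper, ih]
  have hmod : ∀ i, x (i % N) = x i := by
    intro i
    have h2 := hperk (i % N) (i / N)
    rw [Nat.mod_add_div] at h2
    exact h2.symm
  have hxs : ∀ i, (fun j : Fin N => x j) (sh i) = x i := fun i => hmod i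
  have hgen' : Algebra.adjoin ℂ (Set.range (fun j : Fin N => x j)) = ⊤ := by
    rw [← hgen]
    congr 1
    ext y
    constructor
    · rintro ⟨j, rfl⟩
      exact ⟨j, rfl⟩
    · rintro ⟨i, rfl⟩
      exact ⟨sh i, hxs i⟩
  have htop : topv sh P N = top N P := by
    ext j
    rw [topv, Finsupp.finsetSum_apply, Finset.sum_eq_single (j : ℕ)]
    · have : sh (j : ℕ) = j := by
        apply Fin.ext
        exact Nat.mod_eq_of_lt j.2
      rw [this, Finsupp.single_eq_same]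
      rfl
    · intro i hi hij
      rw [Finsupp.single_apply, if_neg]
      intro h
      apply hij
      have h3 := congrArg Fin.val h
      simp only [hsh] at h3
      rw [Nat.mod_eq_of_lt (Finset.mem_range.mp hi)] at h3
      exact h3
    · intro h
      exact absurd (Finset.mem_range.mpr j.2) h
  have hprod : ∀ β : Fin N →₀ ℕ, β.prod (fun j e => (fun j : Fin N => x j) j ^ e) =
      ∏ i : Fin N, x i ^ β i := by
    intro β
    rw [Finsupp.prod_fintype]
    intro i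
    exact pow_zero _
  have key := trace_formula N hN sh (by
      intro i
      apply Fin.ext
      simp [hsh]) (by
      intro j
      refine ⟨j, Fin.ext ?_⟩
      exact Nat.mod_eq_of_lt j.2) (fun j : Fin N => x j) hgen' P a hP hd (by
      intro i hi
      simp only [hxs]
      have h1 := hrel i hi
      simpa only [hmod] using h1) ρ (by
      rw [hprod, htop, hρ _ le_rfl, if_pos rfl]) (by
      intro β hβ
      rw [htop] at hβ
      rw [hprod, hρ _ hβ.le, if_neg]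
      rintro rfl
      exact lt_irrefl _ hβ)
  have hTT : TT N P a (fun i => (fun j : Fin N => x j) (sh i)) = TT N P a x := by
    congr 1
    funext i
    exact hxs i
  rw [hTT, map_prod] at key
  exact key

end Cyc

end Pool.Agent.SAD
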