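import Mathlib
import Pool.Agent.SAD.Trace

set_option autoImplicit false

set_option linter.unusedSectionVars false

/-!
# SAD / Rho: the residue functional

`σ` finite, `P i` monic of degree at least `2`, `L i` a polynomial of total degree at most `1`.
There is a linear functional `ρ` on `MvPolynomial σ ℂ` which vanishes on the ideal generated by
`P i (x i) - L i` and which on polynomials of total degree at most `∑ (d i - 1)` is the coefficient
of `∏ x i ^ (d i - 1)`.
-/

namespace Pool.Agent.SAD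

open Finset Polynomial

section One

variable (P : ℂ[X]) (hP : P.Monic)

include hP in
lemma divByMonic_add' (p q : ℂ[X]) : (p + q) /ₘ P = p /ₘ P + q /ₘ P := by
  refine (div_modByMonic_unique _ (p %ₘ P + q %ₘ P) hP ⟨?_, ?_⟩).1
  · have h1 := modByMonic_add_div p P
    have h2 := modByMonic_add_div q P
    linear_combination h1 + h2
  · exact (degree_add_le _ _).trans_lt
      (max_lt (degree_modByMonic_lt p hP) (degree_modByMonic_lt q hP))

include hP in
lemma divByMonic_smul' (c : ℂ) (p : ℂ[X]) : (c • p) /ₘ P = c • (p /ₘ P) := by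
  refine (div_modByMonic_unique _ (c • (p %ₘ P)) hP ⟨?_, ?_⟩).1
  · have h1 := modByMonic_add_div p P
    rw [mul_smul_comm, ← smul_add, h1]
  · exact (degree_smul_le _ _).trans_lt (degree_modByMonic_lt p hP)

/-- division by a monic polynomial as a linear map -/
noncomputable def divHom : ℂ[X] →ₗ[ℂ] ℂ[X] where
  toFun p := p /ₘ P
  map_add' := divByMonic_add' P hP
  map_smul' := by
    intro c p
    rw [divByMonic_smul' P hP]
    rfl

/-- coefficient of `x ^ (-1)` in `h / P ^ (m + 1)` at infinity -/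
noncomputable def rs : ℕ → (ℂ[X] →ₗ[ℂ] ℂ)
  | 0 => lcoeff ℂ (P.natDegree - 1) ∘ₗ modByMonicHom P
  | m + 1 => rs m ∘ₗ divHom P hP

lemma rs_zero (h : ℂ[X]) : rs P hP 0 h = (h %ₘ P).coeff (P.natDegree - 1) := rfl

lemma rs_succ (m : ℕ) (h : ℂ[X]) : rs P hP (m + 1) h = rs P hP m (h /ₘ P) := rfl

lemma rs_zero_mul (h : ℂ[X]) : rs P hP 0 (P * h) = 0 := by
  rw [rs_zero, (modByMonic_eq_zero_iff_dvd hP).mpr (dvd_mul_right P h), coeff_zero]

lemma rs_succ_mul (m : ℕ) (h : ℂ[X]) : rs P hP (m + 1) (P * h) = rs P hP m h := by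
  rw [rs_succ, mul_divByMonic_cancel_left h hP]

lemma rs_low (hd : 1 ≤ P.natDegree) (m : ℕ) :
    ∀ k : ℕ, k + 1 < P.natDegree * (m + 1) → rs P hP m (X ^ k) = 0 := by
  have key : ∀ m : ℕ, ∀ h : ℂ[X], h.natDegree + 1 < P.natDegree * (m + 1) → rs P hP m h = 0 := by
    intro m
    induction m with
    | zero =>
      intro h hh
      have h1 : h.degree < P.degree := by
        apply Polynomial.degree_lt_degree
        omega
      rw [rs_zero, (modByMonic_eq_self_iff hP).mpr h1]
      exact coeff_eq_zero_of_natDegree_lt (by omega)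
    | succ m ih =>
      intro h hh
      rw [rs_succ]
      have e : P.natDegree * (m + 1 + 1) = P.natDegree * (m + 1) + P.natDegree := by ring
      rcases Nat.lt_or_ge h.natDegree P.natDegree with h3 | h3
      · have h1 : h.degree < P.degree := Polynomial.degree_lt_degree h3
        rw [(divByMonic_eq_zero_iff hP).mpr h1, map_zero]
      · apply ih
        rw [natDegree_divByMonic h hP]
        omega
  intro k hk
  apply key
  rw [natDegree_X_pow]
  exact hk

lemma rs_top (hd : 1 ≤ P.natDegree) : rs P hP 0 (X ^ (P.natDegree - 1)) = 1 := by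
  have h1 : (X ^ (P.natDegree - 1) : ℂ[X]).degree < P.degree := by
    apply Polynomial.degree_lt_degree
    rw [natDegree_X_pow]
    omega
  rw [rs_zero, (modByMonic_eq_self_iff hP).mpr h1, coeff_X_pow, if_pos rfl]

end One

section Many

open MvPolynomial

variable {σ : Type*} [Fintype σ] [DecidableEq σ] (P : σ → ℂ[X]) (hP : ∀ i, (P i).Monic)

/-- the residue of `h / ∏ P_i ^ (m_i + 1)` at infinity -/
noncomputable def Rs (m : σ → ℕ) : MvPolynomial σ ℂ →ₗ[ℂ] ℂ :=
  (MvPolynomial.basisMonomials σ ℂ).constr ℂ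
    (fun β => ∏ i, rs (P i) (hP i) (m i) (Polynomial.X ^ (β i)))

lemma Rs_monomial (m : σ → ℕ) (β : σ →₀ ℕ) : Rs P hP m (monomial β 1) =
    ∏ i, rs (P i) (hP i) (m i) (Polynomial.X ^ (β i)) := by
  rw [Rs]
  have := (MvPolynomial.basisMonomials σ ℂ).constr_basis ℂ
    (fun β => ∏ i, rs (P i) (hP i) (m i) (Polynomial.X ^ (β i))) β
  rw [MvPolynomial.coe_basisMonomials] at this
  exact this

lemma Rs_monomial' (m : σ → ℕ) (β : σ →₀ ℕ) (c : ℂ) : Rs P hP m (monomial β c) =
    c * ∏ i, rs (P i) (hP i) (m i) (Polynomial.X ^ (β i)) := by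
  have h1 : (monomial β c : MvPolynomial σ ℂ) = c • monomial β 1 := by
    rw [MvPolynomial.smul_monomial, smul_eq_mul, mul_one]
  rw [h1, map_smul, Rs_monomial, smul_eq_mul]

/-- linear functionals on polynomials are determined by the monomials -/
lemma mv_ext (f g : MvPolynomial σ ℂ →ₗ[ℂ] ℂ) (h : ∀ β, f (monomial β 1) = g (monomial β 1)) :
    f = g := by
  apply (MvPolynomial.basisMonomials σ ℂ).ext
  intro β
  rw [MvPolynomial.coe_basisMonomials]
  exact h β

/-- multiplication with `P_j(x_j)` inside the residue, on monomials -/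
lemma Rs_mul_P (m : σ → ℕ) (j : σ) (β : σ →₀ ℕ) :
    Rs P hP m (Polynomial.aeval (MvPolynomial.X j : MvPolynomial σ ℂ) (P j) * monomial β 1) =
      (∏ i ∈ univ.erase j, rs (P i) (hP i) (m i) (Polynomial.X ^ (β i))) *
        rs (P j) (hP j) (m j) (P j * Polynomial.X ^ (β j)) := by
  rw [Polynomial.aeval_eq_sum_range, Finset.sum_mul, map_sum]
  have e1 : ∀ k ∈ Finset.range ((P j).natDegree + 1),
      Rs P hP m ((P j).coeff k • (MvPolynomial.X j : MvPolynomial σ ℂ) ^ k * monomial β 1) =
      (∏ i ∈ univ.erase j, rs (P i) (hP i) (m i) (Polynomial.X ^ (β i))) *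
        rs (P j) (hP j) (m j) (((P j).coeff k • Polynomial.X ^ k) * Polynomial.X ^ (β j)) := by
    intro k _
    rw [smul_mul_assoc, map_smul, MvPolynomial.X_pow_eq_monomial, monomial_mul, one_mul,
      Rs_monomial, smul_mul_assoc, map_smul, ← pow_add]
    rw [← Finset.mul_prod_erase univ _ (Finset.mem_univ j)]
    have e2 : (Finsupp.single j k + β) j = k + β j := by simp
    have e3 : ∏ x ∈ univ.erase j, rs (P x) (hP x) (m x)
          (Polynomial.X ^ ((Finsupp.single j k + β) x)) =
        ∏ i ∈ univ.erase j, rs (P i) (hP i) (m i) (Polynomial.X ^ (β i)) := by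
      apply Finset.prod_congr rfl
      intro i hi
      have hij : i ≠ j := Finset.ne_of_mem_erase hi
      have : (Finsupp.single j k + β) i = β i := by
        simp [hij.symm]
      rw [this]
    rw [e2, e3, smul_eq_mul, smul_eq_mul]
    ring
  rw [Finset.sum_congr rfl e1, ← Finset.mul_sum, ← map_sum, ← Finset.sum_mul]
  congr 3
  conv_rhs => rw [(P j).as_sum_range_C_mul_X_pow]
  simp only [Polynomial.smul_eq_C_mul]

lemma Rs_mul_P_zero (m : σ → ℕ) (j : σ) (hm : m j = 0) (h : MvPolynomial σ ℂ) :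
    Rs P hP m (Polynomial.aeval (MvPolynomial.X j : MvPolynomial σ ℂ) (P j) * h) = 0 := by
  have h1 : Rs P hP m ∘ₗ (LinearMap.mulLeft ℂ
      (Polynomial.aeval (MvPolynomial.X j : MvPolynomial σ ℂ) (P j))) = 0 := by
    apply mv_ext
    intro β
    rw [LinearMap.comp_apply, LinearMap.mulLeft_apply, Rs_mul_P, hm, rs_zero_mul, mul_zero,
      LinearMap.zero_apply]
  have := LinearMap.congr_fun h1 h
  exact this

lemma Rs_mul_P_succ (m : σ → ℕ) (j : σ) (h : MvPolynomial σ ℂ) :
    Rs P hP (m + Pi.single j 1)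
      (Polynomial.aeval (MvPolynomial.X j : MvPolynomial σ ℂ) (P j) * h) = Rs P hP m h := by
  have h1 : Rs P hP (m + Pi.single j 1) ∘ₗ (LinearMap.mulLeft ℂ
      (Polynomial.aeval (MvPolynomial.X j : MvPolynomial σ ℂ) (P j))) = Rs P hP m := by
    apply mv_ext
    intro β
    rw [LinearMap.comp_apply, LinearMap.mulLeft_apply, Rs_mul_P, Rs_monomial]
    have e1 : (m + Pi.single j 1 : σ → ℕ) j = m j + 1 := by simp
    rw [e1, rs_succ_mul, ← Finset.mul_prod_erase univ _ (Finset.mem_univ j), mul_comm]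
    congr 1
    apply Finset.prod_congr rfl
    intro i hi
    have hij : i ≠ j := Finset.ne_of_mem_erase hi
    have : (m + Pi.single j 1 : σ → ℕ) i = m i := by
      simp [hij]
    rw [this]
  have := LinearMap.congr_fun h1 h
  exact this

lemma Rs_low (hd : ∀ i, 1 ≤ (P i).natDegree) (m : σ → ℕ) (h : MvPolynomial σ ℂ) (k : ℕ)
    (hk : k + Fintype.card σ ≤ ∑ i, (P i).natDegree * (m i + 1)) (hh : LowD k h) :
    Rs P hP m h = 0 := by
  rw [h.as_sum, map_sum]
  apply Finset.sum_eq_zero
  intro β hβ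
  rw [MvPolynomial.mem_support_iff] at hβ
  have hβk : β.degree < k := by
    by_contra hcon
    exact hβ (hh β (not_lt.mp hcon))
  rw [Rs_monomial']
  have : ∃ i, β i + 1 < (P i).natDegree * (m i + 1) := by
    by_contra hcon
    push Not at hcon
    have h1 : ∑ i, (P i).natDegree * (m i + 1) ≤ ∑ i, (β i + 1) :=
      Finset.sum_le_sum (fun i _ => hcon i)
    rw [Finset.sum_add_distrib, Finset.sum_const, Finset.card_univ, smul_eq_mul, mul_one] at h1
    have h2 : β.degree = ∑ i, β i := by
      rw [Finsupp.degree_eq_sum]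
    omega
  obtain ⟨i, hi⟩ := this
  rw [Finset.prod_eq_zero (Finset.mem_univ i) (rs_low (P i) (hP i) (hd i) (m i) (β i) hi), mul_zero]

section Func

variable (L : σ → MvPolynomial σ ℂ)

/-- the monomial in the `L_i` -/
noncomputable def Lm (m : σ → ℕ) : MvPolynomial σ ℂ := ∏ i, L i ^ m i

lemma Lm_succ (m : σ → ℕ) (j : σ) : Lm L (m + Pi.single j 1) = L j * Lm L m := by
  unfold Lm
  rw [← Finset.mul_prod_erase univ _ (Finset.mem_univ j),
    ← Finset.mul_prod_erase univ (fun i => L i ^ m i) (Finset.mem_univ j)]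
  have e1 : (m + Pi.single j 1 : σ → ℕ) j = m j + 1 := by simp
  rw [e1, pow_succ]
  have e2 : ∏ x ∈ univ.erase j, L x ^ (m + Pi.single j 1 : σ → ℕ) x =
      ∏ x ∈ univ.erase j, L x ^ m x := by
    apply Finset.prod_congr rfl
    intro i hi
    have hij : i ≠ j := Finset.ne_of_mem_erase hi
    have : (m + Pi.single j 1 : σ → ℕ) i = m i := by
      simp [hij]
    rw [this]
  rw [e2]
  ring

lemma lowD_pow {p : MvPolynomial σ ℂ} (hp : LowD 2 p) (k : ℕ) : LowD (k + 1) (p ^ k) := by
  induction k with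
  | zero =>
    rw [pow_zero]
    exact lowD_one
  | succ k ih =>
    rw [pow_succ, mul_comm]
    have := LowD.mul (j := 1) hp ih
    rwa [add_comm 1 (k + 1)] at this

lemma lowD_prod (s : Finset σ) (f : σ → MvPolynomial σ ℂ) (k : σ → ℕ)
    (h : ∀ i ∈ s, LowD (k i + 1) (f i)) : LowD (∑ i ∈ s, k i + 1) (∏ i ∈ s, f i) := by
  induction s using Finset.induction_on with
  | empty => simpa using lowD_one
  | insert a s ha ih =>
    rw [Finset.prod_insert ha, Finset.sum_insert ha]
    have h1 := LowD.mul (h a (Finset.mem_insert_self a s))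
      (ih (fun i hi => h i (Finset.mem_insert_of_mem hi)))
    rwa [← add_assoc] at h1

lemma lowD_Lm (hL : ∀ i, LowD 2 (L i)) (m : σ → ℕ) : LowD (∑ i, m i + 1) (Lm L m) :=
  lowD_prod univ _ m (fun i _ => lowD_pow (hL i) (m i))

/-- the terms of the functional -/
noncomputable def tm (h : MvPolynomial σ ℂ) (m : σ → ℕ) : ℂ := Rs P hP m (h * Lm L m)

lemma tm_eq_zero (hd : ∀ i, 2 ≤ (P i).natDegree) (hL : ∀ i, LowD 2 (L i))
    (h : MvPolynomial σ ℂ) (k : ℕ) (hh : LowD (k + 1) h) (m : σ → ℕ)
    (hk : k + ∑ i, m i + 1 + Fintype.card σ ≤ ∑ i, (P i).natDegree * (m i + 1)) :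
    tm P hP L h m = 0 := by
  apply Rs_low P hP (fun i => by have := hd i; omega) m _ (k + (∑ i, m i + 1))
  · omega
  · exact LowD.mul hh (lowD_Lm L hL m)

lemma tm_support (hd : ∀ i, 2 ≤ (P i).natDegree) (hL : ∀ i, LowD 2 (L i))
    (h : MvPolynomial σ ℂ) (k : ℕ) (hh : LowD (k + 1) h) :
    Function.support (tm P hP L h) ⊆ Set.Iic (fun _ => k) := by
  intro m hm
  rw [Function.mem_support] at hm
  by_contra hcon
  apply hm
  apply tm_eq_zero P hP L hd hL h k hh m
  have h1 : ∃ i, k < m i := by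
    by_contra h2
    push Not at h2
    exact hcon (fun i => h2 i)
  obtain ⟨i, hi⟩ := h1
  have h2 : m i ≤ ∑ i, m i := Finset.single_le_sum (fun _ _ => Nat.zero_le _) (Finset.mem_univ i)
  have h3 : ∑ i, (2 * (m i + 1)) ≤ ∑ i, (P i).natDegree * (m i + 1) :=
    Finset.sum_le_sum (fun i _ => Nat.mul_le_mul_right _ (hd i))
  have h4 : ∑ i, (2 * (m i + 1)) = 2 * (∑ i, m i) + 2 * Fintype.card σ := by
    rw [← Finset.mul_sum, Finset.sum_add_distrib, Finset.sum_const, Finset.card_univ, smul_eq_mul,
      mul_one]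
    ring
  have h5 : 1 ≤ Fintype.card σ := Fintype.card_pos_iff.mpr ⟨i⟩
  omega

lemma exists_lowD (h : MvPolynomial σ ℂ) : ∃ k : ℕ, LowD (k + 1) h := by
  refine ⟨h.totalDegree, fun β hβ => ?_⟩
  by_contra hcon
  have h1 := MvPolynomial.le_totalDegree (MvPolynomial.mem_support_iff.mpr hcon)
  have h2 : β.degree = β.sum fun _ e => e := rfl
  omega

lemma tm_summable (hd : ∀ i, 2 ≤ (P i).natDegree) (hL : ∀ i, LowD 2 (L i))
    (h : MvPolynomial σ ℂ) : Summable (tm P hP L h) := by
  obtain ⟨k, hk⟩ := exists_lowD h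
  apply summable_of_hasFiniteSupport
  exact (Set.finite_Iic _).subset (tm_support P hP L hd hL h k hk)

/-- the functional -/
noncomputable def rho0 (hd : ∀ i, 2 ≤ (P i).natDegree) (hL : ∀ i, LowD 2 (L i)) :
    MvPolynomial σ ℂ →ₗ[ℂ] ℂ where
  toFun h := ∑' m, tm P hP L h m
  map_add' h h' := by
    rw [← (tm_summable P hP L hd hL h).tsum_add (tm_summable P hP L hd hL h')]
    congr 1
    funext m
    unfold tm
    rw [add_mul, map_add]
  map_smul' c h := by
    rw [RingHom.id_apply, smul_eq_mul, ← tsum_mul_left]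
    congr 1
    funext m
    unfold tm
    rw [smul_mul_assoc, map_smul, smul_eq_mul]

lemma rho0_ideal (hd : ∀ i, 2 ≤ (P i).natDegree) (hL : ∀ i, LowD 2 (L i)) (j : σ)
    (h : MvPolynomial σ ℂ) : rho0 P hP L hd hL
      ((Polynomial.aeval (MvPolynomial.X j : MvPolynomial σ ℂ) (P j) - L j) * h) = 0 := by
  rw [sub_mul, map_sub, sub_eq_zero]
  change ∑' m, tm P hP L (Polynomial.aeval (MvPolynomial.X j : MvPolynomial σ ℂ) (P j) * h) m =
    ∑' m, tm P hP L (L j * h) m
  have hinj : Function.Injective (fun m : σ → ℕ => m + Pi.single j 1) := by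
    intro m m' hmm
    exact add_right_cancel hmm
  have hA : ∀ m : σ → ℕ, tm P hP L
      (Polynomial.aeval (MvPolynomial.X j : MvPolynomial σ ℂ) (P j) * h) (m + Pi.single j 1) =
      tm P hP L (L j * h) m := by
    intro m
    unfold tm
    rw [Lm_succ, mul_assoc, Rs_mul_P_succ, mul_left_comm h (L j) (Lm L m), ← mul_assoc]
  have hB : Function.support (tm P hP L
      (Polynomial.aeval (MvPolynomial.X j : MvPolynomial σ ℂ) (P j) * h)) ⊆
      Set.range (fun m : σ → ℕ => m + Pi.single j 1) := by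
    intro m hm
    rw [Function.mem_support] at hm
    have hmj : m j ≠ 0 := by
      intro h0
      apply hm
      unfold tm
      rw [mul_assoc, Rs_mul_P_zero P hP m j h0]
    refine ⟨m - Pi.single j 1, ?_⟩
    funext i
    by_cases hij : i = j
    · subst hij
      simp
      omega
    · simp [hij]
  rw [← hinj.tsum_eq hB]
  exact tsum_congr hA

/-- the exponent `(d_i - 1)_i` -/
noncomputable def topw : σ →₀ ℕ := Finsupp.equivFunOnFinite.symm (fun i => (P i).natDegree - 1)

lemma topw_apply (i : σ) : topw P i = (P i).natDegree - 1 := rfl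

lemma rho0_low (hd : ∀ i, 2 ≤ (P i).natDegree) (hL : ∀ i, LowD 2 (L i)) (β : σ →₀ ℕ)
    (hβ : β.degree ≤ (topw P).degree) :
    rho0 P hP L hd hL (monomial β 1) = if β = topw P then 1 else 0 := by
  change ∑' m, tm P hP L (monomial β 1) m = _
  have hdeg : (topw P).degree + Fintype.card σ = ∑ i, (P i).natDegree := by
    rw [Finsupp.degree_eq_sum]
    have h1 : Fintype.card σ = ∑ _i : σ, 1 := by simp
    rw [h1, ← Finset.sum_add_distrib]
    apply Finset.sum_congr rfl
    intro i _
    rw [topw_apply]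
    have := hd i
    omega
  rw [tsum_eq_single (0 : σ → ℕ)]
  · unfold tm Lm
    have e1 : ∏ i, L i ^ ((0 : σ → ℕ) i) = 1 := by simp
    rw [e1, mul_one, Rs_monomial]
    simp only [Pi.zero_apply]
    by_cases hb : β = topw P
    · rw [if_pos hb, hb]
      apply Finset.prod_eq_one
      intro i _
      rw [topw_apply]
      exact rs_top (P i) (hP i) (by have := hd i; omega)
    · rw [if_neg hb]
      have : ∃ i, β i < (P i).natDegree - 1 := by
        by_contra hcon
        push Not at hcon
        apply hb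
        have h1 : ∀ i, topw P i ≤ β i := fun i => hcon i
        have h2 : topw P ≤ β := h1
        have h3 : (topw P) + (β - topw P) = β := add_tsub_cancel_of_le h2
        have h4 : (topw P).degree + (β - topw P).degree = β.degree := by
          rw [← map_add, h3]
        have h5 : (β - topw P).degree = 0 := by omega
        rw [Finsupp.degree_eq_zero_iff] at h5
        rw [← h3, h5, add_zero]
      obtain ⟨i, hi⟩ := this
      apply Finset.prod_eq_zero (Finset.mem_univ i)
      apply rs_low (P i) (hP i) (by have := hd i; omega)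
      omega
  · intro m hm
    apply tm_eq_zero P hP L hd hL _ β.degree (lowD_monomial β 1 (by omega))
    have h1 : ∃ i, m i ≠ 0 := by
      by_contra hcon
      push Not at hcon
      exact hm (funext hcon)
    obtain ⟨i, hi⟩ := h1
    have h2 : m i ≤ ∑ i, m i := Finset.single_le_sum (fun _ _ => Nat.zero_le _) (Finset.mem_univ i)
    have h3 : ∑ i, (P i).natDegree * (m i + 1) =
        ∑ i, (P i).natDegree * m i + ∑ i, (P i).natDegree := by
      rw [← Finset.sum_add_distrib]
      apply Finset.sum_congr rfl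
      intro i _
      ring
    have h4 : ∑ i, 2 * m i ≤ ∑ i, (P i).natDegree * m i :=
      Finset.sum_le_sum (fun i _ => Nat.mul_le_mul_right _ (hd i))
    rw [← Finset.mul_sum] at h4
    omega

end Func

end Many

section Cyc

open MvPolynomial

/-- the linear parts of the cyclic system -/
noncomputable def Lc (N : ℕ) (sh : ℕ → Fin N) (a : ℕ → ℂ) (j : Fin N) : MvPolynomial (Fin N) ℂ :=
  MvPolynomial.X (sh (j + 1)) + a j • MvPolynomial.X (sh (j + N - 1))

lemma lowD_X {σ : Type*} (i : σ) : LowD 2 (MvPolynomial.X i : MvPolynomial σ ℂ) := by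
  rw [MvPolynomial.X]
  apply lowD_monomial
  rw [Finsupp.degree_single]
  norm_num

lemma lowD_Lc (N : ℕ) (sh : ℕ → Fin N) (a : ℕ → ℂ) (j : Fin N) : LowD 2 (Lc N sh a j) := by
  unfold Lc
  refine (lowD_X _).add ?_
  rw [MvPolynomial.smul_eq_C_mul]
  have := LowD.mul (j := 0) (lowD_C (σ := Fin N) (a j)) (lowD_X (sh (j + N - 1)))
  rwa [zero_add] at this

/-- the universal solution of the cyclic system and the residue functional -/
theorem exists_rho (N : ℕ) (hN : 1 ≤ N) (P : ℕ → Polynomial ℂ) (a : ℕ → ℂ)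
    (hP : ∀ i, (P i).Monic) (hd : ∀ i, 2 ≤ (P i).natDegree) :
    ∃ (A : Type) (_ : CommRing A) (_ : Algebra ℂ A) (x : ℕ → A) (ρ : A →ₗ[ℂ] ℂ),
      IsSol N P a x ∧ Algebra.adjoin ℂ (Set.range x) = ⊤ ∧ IsRho N P x ρ := by
  classical
  set sh : ℕ → Fin N := fun i => ⟨i % N, Nat.mod_lt _ hN⟩ with hsh
  have hshv : ∀ j : Fin N, sh (j : ℕ) = j := fun j => Fin.ext (Nat.mod_eq_of_lt j.2)
  set Q : Fin N → Polynomial ℂ := fun j => P j with hQ
  have hQm : ∀ j, (Q j).Monic := fun j => hP j
  have hQd : ∀ j, 2 ≤ (Q j).natDegree := fun j => hd j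
  set L : Fin N → MvPolynomial (Fin N) ℂ := Lc N sh a with hL
  have hLl : ∀ j, LowD 2 (L j) := lowD_Lc N sh a
  set E : Fin N → MvPolynomial (Fin N) ℂ := fun j =>
    Polynomial.aeval (MvPolynomial.X j : MvPolynomial (Fin N) ℂ) (Q j) - L j with hE
  set I : Ideal (MvPolynomial (Fin N) ℂ) := Ideal.span (Set.range E) with hI
  set r0 := rho0 Q hQm L hQd hLl with hr0
  have hker : I.restrictScalars ℂ ≤ LinearMap.ker r0 := by
    intro g hg
    rw [Submodule.restrictScalars_mem] at hg
    rw [LinearMap.mem_ker]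
    induction hg using Submodule.span_induction with
    | mem y hy =>
      obtain ⟨j, rfl⟩ := hy
      have := rho0_ideal Q hQm L hQd hLl j 1
      rw [mul_one] at this
      exact this
    | zero => exact map_zero _
    | add y z _ _ h h' => rw [map_add, h, h', add_zero]
    | smul c y hy h =>
      -- every multiple of an element of the span is killed
      have h2 : ∀ z ∈ Ideal.span (Set.range E), ∀ c : MvPolynomial (Fin N) ℂ, r0 (c * z) = 0 := by
        intro z hz
        induction hz using Submodule.span_induction with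
        | mem y hy =>
          intro c
          obtain ⟨j, rfl⟩ := hy
          rw [mul_comm]
          exact rho0_ideal Q hQm L hQd hLl j c
        | zero => intro c; rw [mul_zero, map_zero]
        | add y z _ _ h h' => intro c; rw [mul_add, map_add, h c, h' c, add_zero]
        | smul c' y _ h => intro c; rw [smul_eq_mul, ← mul_assoc]; exact h _
      rw [smul_eq_mul]
      exact h2 y hy c
  refine ⟨MvPolynomial (Fin N) ℂ ⧸ I, inferInstance, inferInstance,
    fun i => Ideal.Quotient.mk I (MvPolynomial.X (sh i)),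
    (I.restrictScalars ℂ).liftQ r0 hker, ⟨?_, ?_⟩, ?_, ?_⟩
  · intro i
    have : sh (i + N) = sh i := by
      apply Fin.ext
      simp [hsh]
    simp only [this]
  · intro i hi
    have e0 : sh i = ⟨i, hi⟩ := Fin.ext (Nat.mod_eq_of_lt hi)
    have e1 : Ideal.Quotient.mk I (E ⟨i, hi⟩) = 0 :=
      Ideal.Quotient.eq_zero_iff_mem.mpr (Ideal.subset_span ⟨_, rfl⟩)
    have e2 : Ideal.Quotient.mk I (Polynomial.aeval
        (MvPolynomial.X (⟨i, hi⟩ : Fin N) : MvPolynomial (Fin N) ℂ) (P i)) =
        Polynomial.aeval (Ideal.Quotient.mk I (MvPolynomial.X (⟨i, hi⟩ : Fin N))) (P i) := by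
      have := Polynomial.aeval_algHom_apply (Ideal.Quotient.mkₐ ℂ I)
        (MvPolynomial.X (⟨i, hi⟩ : Fin N)) (P i)
      exact this.symm
    have e3 : Ideal.Quotient.mk I (L ⟨i, hi⟩) =
        Ideal.Quotient.mk I (MvPolynomial.X (sh (i + 1))) +
          a i • Ideal.Quotient.mk I (MvPolynomial.X (sh (i + N - 1))) := by
      rw [hL]
      unfold Lc
      rw [map_add]
      rfl
    rw [hE] at e1
    simp only [map_sub] at e1
    rw [sub_eq_zero] at e1
    simp only [e0]
    rw [← e3, ← e2]
    exact e1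
  · rw [eq_top_iff]
    intro y _
    obtain ⟨p, rfl⟩ := Ideal.Quotient.mk_surjective y
    induction p using MvPolynomial.induction_on with
    | C c =>
      have : Ideal.Quotient.mk I (MvPolynomial.C c) =
          algebraMap ℂ (MvPolynomial (Fin N) ℂ ⧸ I) c := rfl
      rw [this]
      exact Subalgebra.algebraMap_mem _ _
    | add p q hp hq =>
      rw [map_add]
      exact Subalgebra.add_mem _ (hp trivial) (hq trivial)
    | mul_X p j hp =>
      rw [map_mul]
      refine Subalgebra.mul_mem _ (hp trivial) (Algebra.subset_adjoin ⟨(j : ℕ), ?_⟩)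
      simp only [hshv]
  · intro β hβ
    have e1 : (∏ i : Fin N, (Ideal.Quotient.mk I (MvPolynomial.X (sh (i : ℕ)))) ^ β i :
        MvPolynomial (Fin N) ℂ ⧸ I) = Ideal.Quotient.mk I (monomial β 1) := by
      simp only [hshv]
      rw [MvPolynomial.monomial_eq, map_mul, MvPolynomial.C_1, map_one, one_mul,
        Finsupp.prod_fintype _ _ (fun i => pow_zero _), map_prod]
      simp only [map_pow]
    have htop : topw Q = top N P := rfl
    rw [e1]
    have e2 := rho0_low Q hQm L hQd hLl β (by rw [htop]; exact hβ)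
    rw [htop] at e2
    exact e2

end Cyc

end Pool.Agent.SAD
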