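import Mathlib
import Pool.Agent.SAD.Defs
import Pool.Agent.SAD.Rho
import Pool.Agent.SAD.Tools

set_option autoImplicit false

/-!
# SAD / Core: a periodic point with a large trace, and scaling to monic polynomials
-/

namespace Pool.Agent.SAD

open Finset Polynomial

/-- the three values of the residue functional -/
def ValAt (N : ℕ) (P : ℕ → ℂ[X]) (a : ℕ → ℂ) : Prop :=
  ∀ (A : Type) [CommRing A] [Algebra ℂ A] (x : ℕ → A), IsSol N P a x →
    ∀ ρ : A →ₗ[ℂ] ℂ, IsRho N P x ρ → ρ 1 = 0 ∧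
      ρ (TT N P a x) = ∏ i ∈ range N, ((P i).natDegree : ℂ) ∧
      ρ (TT N P a x ^ 2) = (mprod (fun i => VV (P i) (a i)) N).trace

/-- images of solutions -/
lemma IsSol.map {A B : Type*} [CommRing A] [Algebra ℂ A] [CommRing B] [Algebra ℂ B]
    (φ : A →ₐ[ℂ] B) {N : ℕ} {P : ℕ → ℂ[X]} {a : ℕ → ℂ} {x : ℕ → A} (h : IsSol N P a x) :
    IsSol N P a (fun i => φ (x i)) := by
  refine ⟨fun i => by simp only [h.1 i], fun i hi => ?_⟩
  rw [Polynomial.aeval_algHom_apply, h.2 i hi, map_add, map_smul]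

lemma map_TT {A B : Type*} [CommRing A] [Algebra ℂ A] [CommRing B] [Algebra ℂ B]
    (φ : A →ₐ[ℂ] B) (N : ℕ) (P : ℕ → ℂ[X]) (a : ℕ → ℂ) (x : ℕ → A) :
    φ (TT N P a x) = TT N P a (fun i => φ (x i)) := by
  unfold TT
  have e1 := map_tr2 (φ : A →+* B) (fun i => aeval (x i) (derivative (P i)))
    (fun i => algebraMap ℂ A (a i)) N
  have e2 : (fun k => (φ : A →+* B) (aeval (x k) (derivative (P k)))) =
      fun i => aeval (φ (x i)) (derivative (P i)) := by
    funext k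
    exact (Polynomial.aeval_algHom_apply φ (x k) (derivative (P k))).symm
  have e3 : (fun k => (φ : A →+* B) (algebraMap ℂ A (a k))) = fun i => algebraMap ℂ B (a i) := by
    funext k
    exact φ.commutes (a k)
  rw [e2, e3] at e1
  exact e1

/-- a solution with a large trace, from the values of the functional and the growth -/
theorem core_of (N : ℕ) (hN : 1 ≤ N) (P : ℕ → ℂ[X]) (a : ℕ → ℂ) (hP : ∀ i, (P i).Monic)
    (hd : ∀ i, 2 ≤ (P i).natDegree) (hval : ValAt N P a)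
    (hg : (1 + ‖∏ i ∈ range N, a i‖) * ∏ i ∈ range N, ((P i).natDegree : ℝ) <
      ‖(mprod (fun i => VV (P i) (a i)) N).trace -
        (1 + ∏ i ∈ range N, a i) * ∏ i ∈ range N, ((P i).natDegree : ℂ)‖) :
    ∃ x : ℕ → ℂ, IsSol N P a x ∧ 1 + ‖∏ i ∈ range N, a i‖ < ‖TT N P a x‖ := by
  obtain ⟨A, _, _, x, ρ, hx, hgen, hρ⟩ := exists_rho N hN P a hP hd
  obtain ⟨hfin, htr⟩ := bez N hN P a hP hd x hx hgen ρ hρ
  obtain ⟨v0, v1, v2⟩ := hval A x hx ρ hρ
  set δ : ℂ := ∏ i ∈ range N, a i with hδ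
  have hδA : ∏ i ∈ range N, algebraMap ℂ A (a i) = algebraMap ℂ A δ := by
    rw [hδ, map_prod]
  -- the dimension
  have hdim : (Module.finrank ℂ A : ℂ) = ∏ i ∈ range N, ((P i).natDegree : ℂ) := by
    have h1 := htr 1
    rw [LinearMap.mulLeft_one, LinearMap.trace_id, one_mul, hδA,
      Algebra.algebraMap_eq_smul_one, map_sub, map_sub, map_smul, v0, v1, smul_zero, sub_zero,
      sub_zero] at h1
    exact h1
  have hdimR : (Module.finrank ℂ A : ℝ) = ∏ i ∈ range N, ((P i).natDegree : ℝ) := by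
    have h2 : ((Module.finrank ℂ A : ℝ) : ℂ) = ((∏ i ∈ range N, ((P i).natDegree : ℝ) : ℝ) : ℂ) := by
      push_cast
      exact hdim
    exact_mod_cast h2
  have htT : LinearMap.trace ℂ A (LinearMap.mulLeft ℂ (TT N P a x)) =
      (mprod (fun i => VV (P i) (a i)) N).trace -
        (1 + δ) * ∏ i ∈ range N, ((P i).natDegree : ℂ) := by
    rw [htr, hδA]
    have e1 : TT N P a x * (TT N P a x - 1 - algebraMap ℂ A δ) =
        TT N P a x ^ 2 - TT N P a x - δ • TT N P a x := by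
      rw [Algebra.smul_def]
      ring
    rw [e1, map_sub, map_sub, map_smul, v1, v2, smul_eq_mul]
    ring
  by_contra hcon
  push Not at hcon
  have hall : ∀ φ : A →ₐ[ℂ] ℂ, ‖φ (TT N P a x)‖ ≤ 1 + ‖δ‖ := by
    intro φ
    rw [map_TT]
    exact hcon _ (hx.map φ)
  have h3 := SAD.sad_norm_trace_le (TT N P a x) (1 + ‖δ‖) hall
  rw [htT, hdimR] at h3
  exact absurd hg (not_lt.mpr h3)

end Pool.Agent.SAD
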