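import Mathlib
import Pool.Agent.SAD.Bez
import Pool.Agent.SAD.Defs

/-!
# SAD / Exp: expansion of products of matrices over words, the boundary automaton
-/

set_option autoImplicit false

open Finset

namespace Pool.Agent.SAD

section Expand

variable {S : Type*} [CommRing S] {m : Type*} [Fintype m] [DecidableEq m]

lemma mprod_succ (C : ℕ → Matrix m m S) (n : ℕ) : mprod C (n + 1) = C n * mprod C n := rfl

lemma mprod_zero (C : ℕ → Matrix m m S) : mprod C 0 = 1 := rfl

lemma mprod_congr (C D : ℕ → Matrix m m S) (n : ℕ) (h : ∀ i < n, C i = D i) :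
    mprod C n = mprod D n := by
  induction n with
  | zero => rfl
  | succ n ih => rw [mprod_succ, mprod_succ, ih (fun i hi => h i (by omega)), h n (by omega)]

lemma mprod_add (C : ℕ → Matrix m m S) (n k : ℕ) :
    mprod C (n + k) = mprod (fun i => C (n + i)) k * mprod C n := by
  induction k with
  | zero => rw [mprod_zero, one_mul, add_zero]
  | succ k ih => rw [← add_assoc, mprod_succ, mprod_succ, ih, mul_assoc]

/-- periodic products -/
lemma mprod_mul (C : ℕ → Matrix m m S) (k : ℕ) (hC : ∀ i, C (i + k) = C i) (n : ℕ) :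
    mprod C (n * k) = mprod C k ^ n := by
  have hper : ∀ n i, C (n * k + i) = C i := by
    intro n
    induction n with
    | zero => intro i; rw [zero_mul, zero_add]
    | succ n ih =>
      intro i
      rw [show (n + 1) * k + i = (n * k + i) + k by ring, hC, ih]
  induction n with
  | zero => rw [zero_mul, mprod_zero, pow_zero]
  | succ n ih =>
    rw [show (n + 1) * k = n * k + k by ring, mprod_add, ih, pow_succ']
    congr 1
    exact mprod_congr _ _ k (fun i _ => hper n i)

/-- extension of a word -/
def ext {N : ℕ} (c : Fin N → Fin 3) (i : ℕ) : Fin 3 := if h : i < N then c ⟨i, h⟩ else 0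

lemma ext_snoc_last {N : ℕ} (c : Fin N → Fin 3) (k : Fin 3) :
    ext (Fin.snoc (α := fun _ => Fin 3) c k : Fin (N + 1) → Fin 3) N = k := by
  unfold ext
  rw [dif_pos (Nat.lt_succ_self N)]
  exact Fin.snoc_last (α := fun _ => Fin 3) k c

lemma ext_snoc_lt {N : ℕ} (c : Fin N → Fin 3) (k : Fin 3) {i : ℕ} (hi : i < N) :
    ext (Fin.snoc (α := fun _ => Fin 3) c k : Fin (N + 1) → Fin 3) i = ext c i := by
  unfold ext
  rw [dif_pos (Nat.lt_succ_of_lt hi), dif_pos hi]
  exact Fin.snoc_castSucc (α := fun _ => Fin 3) k c ⟨i, hi⟩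

/-- summation over words -/
lemma sum_words {M : Type*} [AddCommMonoid M] (N : ℕ) (F : (Fin (N + 1) → Fin 3) → M) :
    ∑ c : Fin (N + 1) → Fin 3, F c =
      ∑ k : Fin 3, ∑ c : Fin N → Fin 3, F (Fin.snoc (α := fun _ => Fin 3) c k) := by
  rw [← Fintype.sum_prod_type']
  exact ((Fin.snocEquiv (fun _ : Fin (N + 1) => Fin 3)).sum_comp F).symm

/-- expansion of a product of sums -/
lemma mprod_sum (W : ℕ → Fin 3 → Matrix m m S) (N : ℕ) :
    mprod (fun i => ∑ c : Fin 3, W i c) N =
      ∑ c : Fin N → Fin 3, mprod (fun i => W i (ext c i)) N := by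
  induction N with
  | zero =>
    rw [mprod_zero]
    simp [mprod_zero]
  | succ N ih =>
    rw [mprod_succ, ih, sum_words, Finset.sum_mul]
    apply Finset.sum_congr rfl
    intro k _
    rw [Finset.mul_sum]
    apply Finset.sum_congr rfl
    intro c _
    rw [mprod_succ, ext_snoc_last]
    congr 1
    apply mprod_congr
    intro i hi
    rw [ext_snoc_lt c k hi]

lemma mprod_smul (y : ℕ → S) (W : ℕ → Matrix m m S) (N : ℕ) :
    mprod (fun i => y i • W i) N = (∏ i ∈ range N, y i) • mprod W N := by
  induction N with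
  | zero => rw [mprod_zero, mprod_zero, prod_range_zero, one_smul]
  | succ N ih =>
    rw [mprod_succ, mprod_succ, ih, prod_range_succ, smul_mul_smul_comm, mul_comm]

lemma mprod_map {S' : Type*} [CommRing S'] (f : S →+* S') (W : ℕ → Matrix m m S) (N : ℕ) :
    mprod (fun i => (W i).map f) N = (mprod W N).map f := by
  induction N with
  | zero =>
    rw [mprod_zero, mprod_zero, Matrix.map_one f (map_zero f) (map_one f)]
  | succ N ih => rw [mprod_succ, mprod_succ, ih, Matrix.map_mul]

open scoped Kronecker in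
lemma mprod_kronecker {p : Type*} [Fintype p] [DecidableEq p] (Z : ℕ → Matrix m m S)
    (W : ℕ → Matrix p p S) (N : ℕ) :
    mprod (fun i => Z i ⊗ₖ W i) N = mprod Z N ⊗ₖ mprod W N := by
  induction N with
  | zero => rw [mprod_zero, mprod_zero, mprod_zero, Matrix.one_kronecker_one]
  | succ N ih => rw [mprod_succ, mprod_succ, mprod_succ, ih, Matrix.mul_kronecker_mul]

end Expand

/-! ### the boundary automaton -/

/-- is the letter `0` -/
def e0 (c : Fin 3) : ℕ := if c = 0 then 1 else 0
/-- is the letter `+` -/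
def e1 (c : Fin 3) : ℕ := if c = 1 then 1 else 0
/-- is the letter `-` -/
def e2 (c : Fin 3) : ℕ := if c = 2 then 1 else 0

/-- arrow to the right at a boundary state -/
def Ff : Fin 4 → ℕ := ![0, 1, 1, 0]
/-- arrow to the left at a boundary state -/
def Bb : Fin 4 → ℕ := ![0, 1, 0, 1]

lemma ZZ_eq (c : Fin 3) (s' s : Fin 4) :
    ZZ c s' s = if (Ff s' = e1 c ∧ Bb s = e2 c ∧ Ff s + Bb s' + e0 c = 1) then 1 else 0 := by
  fin_cases c <;> fin_cases s' <;> fin_cases s <;> simp [ZZ, Ff, Bb, e0, e1, e2]

/-- the state with given arrows -/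
def st (f b : Fin 3) : Fin 4 :=
  if f = 1 then (if b = 2 then 1 else 2) else (if b = 2 then 3 else 0)

lemma st_spec (f b : Fin 3) (s : Fin 4) : (Ff s = e1 f ∧ Bb s = e2 b) ↔ s = st f b := by
  fin_cases f <;> fin_cases b <;> fin_cases s <;> simp [Ff, Bb, e1, e2, st]

lemma Ff_st (f b : Fin 3) : Ff (st f b) = e1 f := ((st_spec f b _).2 rfl).1
lemma Bb_st (f b : Fin 3) : Bb (st f b) = e2 b := ((st_spec f b _).2 rfl).2

/-- the conditions on a word -/
def Cnd (c : ℕ → Fin 3) (m : ℕ) (s' s : Fin 4) : Prop :=
  Ff s' = e1 (c m) ∧ Bb s = e2 (c 0) ∧ ∀ j ≤ m,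
    (if j = 0 then Ff s else e1 (c (j - 1))) + (if j = m then Bb s' else e2 (c (j + 1))) +
      e0 (c j) = 1

open Classical in
lemma open_chain (c : ℕ → Fin 3) (m : ℕ) : ∀ s' s : Fin 4,
    mprod (fun i => ZZ (c i)) (m + 1) s' s = if Cnd c m s' s then 1 else 0 := by
  induction m with
  | zero =>
    intro s' s
    rw [mprod_succ, mprod_zero, mul_one, ZZ_eq]
    apply if_congr _ rfl rfl
    unfold Cnd
    constructor
    · rintro ⟨h1, h2, h3⟩
      refine ⟨h1, h2, ?_⟩
      intro j hj
      have : j = 0 := by omega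
      subst this
      simpa using h3
    · rintro ⟨h1, h2, h3⟩
      refine ⟨h1, h2, ?_⟩
      simpa using h3 0 le_rfl
  | succ m ih =>
    intro s' s
    rw [mprod_succ, Matrix.mul_apply, Finset.sum_eq_single (st (c m) (c (m + 1)))]
    · rw [ih, ZZ_eq, Ff_st, Bb_st]
      have hiff : ((Ff s' = e1 (c (m + 1)) ∧ e2 (c (m + 1)) = e2 (c (m + 1)) ∧
          e1 (c m) + Bb s' + e0 (c (m + 1)) = 1) ∧ Cnd c m (st (c m) (c (m + 1))) s) ↔
          Cnd c (m + 1) s' s := by
        unfold Cnd
        rw [Ff_st, Bb_st]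
        constructor
        · rintro ⟨⟨h1, -, h3⟩, -, h5, h6⟩
          refine ⟨h1, h5, ?_⟩
          intro j hj
          rcases Nat.lt_or_ge j (m + 1) with hlt | hge
          · have h7 := h6 j (by omega)
            rw [if_neg (show ¬ j = m + 1 by omega)]
            by_cases hjm : j = m
            · subst hjm
              rw [if_pos rfl] at h7
              exact h7
            · rw [if_neg hjm] at h7
              exact h7
          · have hj' : j = m + 1 := by omega
            subst hj'
            rw [if_neg (Nat.succ_ne_zero m), if_pos rfl, Nat.add_sub_cancel]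
            exact h3
        · rintro ⟨h1, h2, h3⟩
          have h4 := h3 (m + 1) le_rfl
          rw [if_neg (Nat.succ_ne_zero m), if_pos rfl, Nat.add_sub_cancel] at h4
          refine ⟨⟨h1, rfl, h4⟩, rfl, h2, ?_⟩
          intro j hj
          have h7 := h3 j (by omega)
          rw [if_neg (show ¬ j = m + 1 by omega)] at h7
          by_cases hjm : j = m
          · subst hjm
            rw [if_pos rfl]
            exact h7
          · rw [if_neg hjm]
            exact h7
      by_cases hA : (Ff s' = e1 (c (m + 1)) ∧ e2 (c (m + 1)) = e2 (c (m + 1)) ∧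
          e1 (c m) + Bb s' + e0 (c (m + 1)) = 1)
      · rw [if_pos hA, one_mul]
        apply if_congr _ rfl rfl
        rw [← hiff]
        exact ⟨fun h => ⟨hA, h⟩, fun h => h.2⟩
      · rw [if_neg hA, zero_mul, if_neg]
        intro h
        exact hA (hiff.2 h).1
    · intro t _ ht
      rw [ih, ZZ_eq]
      by_cases h1 : Cnd c m t s
      · rw [if_neg, zero_mul]
        rintro ⟨-, h2, -⟩
        exact ht ((st_spec _ _ _).1 ⟨h1.1, h2⟩)
      · rw [if_neg h1, mul_zero]
    · intro h
      exact absurd (mem_univ _) h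

/-- every site is chosen exactly once -/
def Once (N : ℕ) (c : ℕ → Fin 3) : Prop :=
  ∀ j < N, e0 (c j) + e1 (c (if j = 0 then N - 1 else j - 1)) +
    e2 (c (if j + 1 = N then 0 else j + 1)) = 1

open Classical in
/-- the trace of the automaton -/
lemma trace_ZZ (N : ℕ) (hN : 1 ≤ N) (c : ℕ → Fin 3) :
    (mprod (fun i => ZZ (c i)) N).trace = if Once N c then 1 else 0 := by
  obtain ⟨m, rfl⟩ : ∃ m, N = m + 1 := ⟨N - 1, by omega⟩
  rw [Matrix.trace]
  simp only [Matrix.diag_apply]
  rw [Finset.sum_eq_single (st (c m) (c 0))]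
  · rw [open_chain]
    apply if_congr _ rfl rfl
    unfold Cnd Once
    rw [Ff_st, Bb_st]
    have key : ∀ j ≤ m, (if j = 0 then e1 (c m) else e1 (c (j - 1))) +
        (if j = m then e2 (c 0) else e2 (c (j + 1))) + e0 (c j) =
        e0 (c j) + e1 (c (if j = 0 then m + 1 - 1 else j - 1)) +
          e2 (c (if j + 1 = m + 1 then 0 else j + 1)) := by
      intro j _
      have k1 : (if j = 0 then e1 (c m) else e1 (c (j - 1))) =
          e1 (c (if j = 0 then m + 1 - 1 else j - 1)) := by
        by_cases h : j = 0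
        · rw [if_pos h, if_pos h, Nat.add_sub_cancel]
        · rw [if_neg h, if_neg h]
      have k2 : (if j = m then e2 (c 0) else e2 (c (j + 1))) =
          e2 (c (if j + 1 = m + 1 then 0 else j + 1)) := by
        by_cases h : j = m
        · rw [if_pos h, if_pos (by omega)]
        · rw [if_neg h, if_neg (by omega)]
      rw [k1, k2]
      ring
    constructor
    · rintro ⟨-, -, h⟩ j hj
      rw [← key j (by omega)]
      exact h j (by omega)
    · intro h
      refine ⟨rfl, rfl, ?_⟩
      intro j hj
      rw [key j hj]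
      exact h j (by omega)
  · intro s _ hs
    rw [open_chain, if_neg]
    rintro ⟨h1, h2, -⟩
    exact hs ((st_spec _ _ _).1 ⟨h1, h2⟩)
  · intro h
    exact absurd (mem_univ _) h

/-- the site chosen by a letter -/
def tgt (N i : ℕ) (c : Fin 3) : ℕ :=
  if c = 0 then i else if c = 1 then (if i + 1 = N then 0 else i + 1) else
    (if i = 0 then N - 1 else i - 1)

lemma tgt_lt (N i : ℕ) (hi : i < N) (c : Fin 3) : tgt N i c < N := by
  unfold tgt
  split_ifs <;> omega

/-- the number of choices of a site -/
lemma count_tgt (N : ℕ) (c : ℕ → Fin 3) (j : ℕ) (hj : j < N) :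
    ∑ i ∈ range N, (if tgt N i (c i) = j then 1 else 0) =
      e0 (c j) + e1 (c (if j = 0 then N - 1 else j - 1)) +
        e2 (c (if j + 1 = N then 0 else j + 1)) := by
  set pr : ℕ := if j = 0 then N - 1 else j - 1 with hpr
  set su : ℕ := if j + 1 = N then 0 else j + 1 with hsu
  have hprN : pr < N := by
    rw [hpr]
    split_ifs <;> omega
  have hsuN : su < N := by
    rw [hsu]
    split_ifs <;> omega
  have h1 : ∀ i ∈ range N, (if tgt N i (c i) = j then 1 else 0) =
      (if i = j then e0 (c i) else 0) + (if i = pr then e1 (c i) else 0) +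
      (if i = su then e2 (c i) else 0) := by
    intro i hi
    have hi' := mem_range.1 hi
    have hc : c i = 0 ∨ c i = 1 ∨ c i = 2 := by
      generalize c i = z
      fin_cases z <;> simp
    have k1 : ((if i + 1 = N then 0 else i + 1) = j) ↔ i = pr := by
      rw [hpr]
      split_ifs <;> omega
    have k2 : ((if i = 0 then N - 1 else i - 1) = j) ↔ i = su := by
      rw [hsu]
      split_ifs <;> omega
    rcases hc with h | h | h
    · rw [h]
      have t0 : tgt N i 0 = i := rfl
      rw [t0, show e0 0 = 1 from rfl, show e1 0 = 0 from rfl, show e2 0 = 0 from rfl, ite_self,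
        ite_self, add_zero, add_zero]
    · rw [h]
      have t0 : tgt N i 1 = if i + 1 = N then 0 else i + 1 := rfl
      rw [t0, show e0 1 = 0 from rfl, show e1 1 = 1 from rfl, show e2 1 = 0 from rfl, ite_self,
        ite_self, add_zero, zero_add]
      exact if_congr k1 rfl rfl
    · rw [h]
      have t0 : tgt N i 2 = if i = 0 then N - 1 else i - 1 := rfl
      rw [t0, show e0 2 = 0 from rfl, show e1 2 = 0 from rfl, show e2 2 = 1 from rfl, ite_self,
        ite_self, zero_add, zero_add]
      exact if_congr k2 rfl rfl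
  rw [Finset.sum_congr rfl h1, Finset.sum_add_distrib, Finset.sum_add_distrib,
    Finset.sum_ite_eq', Finset.sum_ite_eq', Finset.sum_ite_eq',
    if_pos (mem_range.2 hj), if_pos (mem_range.2 hprN), if_pos (mem_range.2 hsuN)]

end Pool.Agent.SAD
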