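import Mathlib
import Pool.Agent.SAD.Defs
import Pool.Agent.SAD.Bez

set_option autoImplicit false

/-!
# SAD / Scale: reduction to monic polynomials

For `k`-periodic data with degrees at least `2` there is a `k`-periodic sequence `s i ≠ 0` with
`s (i+1) = c i * s i ^ d i`, `c i` the leading coefficients.  `x i = s i * y i` conjugates the
cyclic system to one with monic polynomials, with the same trace and determinant.
-/

namespace Pool.Agent.SAD

open Finset Polynomial

/-- the scaling sequence -/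
noncomputable def sq (P : ℕ → ℂ[X]) (s : ℂ) : ℕ → ℂ
  | 0 => s
  | i + 1 => (P i).leadingCoeff * sq P s i ^ (P i).natDegree

lemma sq_form (P : ℕ → ℂ[X]) (hd : ∀ i, 2 ≤ (P i).natDegree) :
    ∀ k, ∃ (C : ℂ) (D : ℕ), C ≠ 0 ∧ 1 ≤ D ∧ (1 ≤ k → 2 ≤ D) ∧ ∀ s, sq P s k = C * s ^ D := by
  intro k
  induction k with
  | zero => exact ⟨1, 1, one_ne_zero, le_rfl, by omega, fun s => by simp [sq]⟩
  | succ k ih =>
    obtain ⟨C, D, hC, hD, -, h⟩ := ih
    have hl : (P k).leadingCoeff ≠ 0 := by
      intro h0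
      rw [leadingCoeff_eq_zero] at h0
      have := hd k
      rw [h0, natDegree_zero] at this
      omega
    have h2 : 2 ≤ D * (P k).natDegree := by
      calc 2 = 1 * 2 := rfl
        _ ≤ D * (P k).natDegree := Nat.mul_le_mul hD (hd k)
    refine ⟨(P k).leadingCoeff * C ^ (P k).natDegree, D * (P k).natDegree,
      mul_ne_zero hl (pow_ne_zero _ hC), by omega, fun _ => h2, fun s => ?_⟩
    rw [sq, h, mul_pow, ← pow_mul]
    ring

lemma exists_sq (k : ℕ) (hk : 1 ≤ k) (P : ℕ → ℂ[X]) (hPk : ∀ i, P (i + k) = P i)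
    (hd : ∀ i, 2 ≤ (P i).natDegree) :
    ∃ s : ℕ → ℂ, (∀ i, s i ≠ 0) ∧ (∀ i, s (i + k) = s i) ∧
      ∀ i, s (i + 1) = (P i).leadingCoeff * s i ^ (P i).natDegree := by
  obtain ⟨C, D, hC, -, hD, h⟩ := sq_form P hd k
  have hD2 := hD hk
  obtain ⟨z, hz⟩ := IsAlgClosed.exists_pow_nat_eq (C⁻¹) (show 0 < D - 1 by omega)
  have hz0 : z ≠ 0 := by
    intro h0
    rw [h0, zero_pow (by omega)] at hz
    exact inv_ne_zero hC hz.symm
  have hfix : sq P z k = z := by
    rw [h]
    have : z ^ D = z ^ (D - 1) * z := by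
      rw [← pow_succ]
      congr 1
      omega
    rw [this, hz, ← mul_assoc, mul_inv_cancel₀ hC, one_mul]
  have hne : ∀ i, sq P z i ≠ 0 := by
    intro i
    obtain ⟨C', D', hC', -, -, h'⟩ := sq_form P hd i
    rw [h']
    exact mul_ne_zero hC' (pow_ne_zero _ hz0)
  refine ⟨sq P z, hne, ?_, fun i => rfl⟩
  intro i
  induction i with
  | zero =>
    rw [zero_add]
    exact hfix
  | succ i ih =>
    have e : i + 1 + k = (i + k) + 1 := by ring
    rw [e, sq, ih, hPk i, sq]

lemma periodic_mul {α : Type*} (k : ℕ) (s : ℕ → α) (hs : ∀ i, s (i + k) = s i) (n : ℕ) :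
    ∀ i, s (i + n * k) = s i := by
  induction n with
  | zero => intro i; simp
  | succ n ih =>
    intro i
    rw [Nat.succ_mul, ← add_assoc, hs, ih]

lemma prod_shift_one (N : ℕ) (s : ℕ → ℂ) (hs : ∀ i, s (i + N) = s i) :
    ∏ i ∈ range N, s (i + 1) = ∏ i ∈ range N, s i := by
  have h1 := Finset.prod_range_succ (fun i => s i) N
  have h2 := Finset.prod_range_succ' (fun i => s i) N
  have h3 : s N = s 0 := by
    have := hs 0
    rwa [zero_add] at this
  by_cases h0 : s 0 = 0
  · rcases Nat.eq_zero_or_pos N with hN | hN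
    · subst hN; simp
    · rw [Finset.prod_eq_zero (Finset.mem_range.mpr hN) h0]
      apply Finset.prod_eq_zero (i := N - 1) (Finset.mem_range.mpr (by omega))
      rw [show N - 1 + 1 = N by omega, h3, h0]
  · rw [h1, h3] at h2
    exact (mul_right_cancel₀ h0 h2).symm

lemma prod_shift (N : ℕ) (s : ℕ → ℂ) (hs : ∀ i, s (i + N) = s i) (j : ℕ) :
    ∏ i ∈ range N, s (i + j) = ∏ i ∈ range N, s i := by
  induction j with
  | zero => simp
  | succ j ih =>
    rw [← ih]
    have := prod_shift_one N (fun i => s (i + j)) (by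
      intro i
      have e : i + N + j = (i + j) + N := by ring
      simp only [e, hs])
    have e2 : ∀ i, i + (j + 1) = i + 1 + j := fun i => by ring
    simp only [e2]
    exact this

/-- the scaled polynomials -/
noncomputable def Qs (P : ℕ → ℂ[X]) (s : ℕ → ℂ) (i : ℕ) : ℂ[X] :=
  C (s (i + 1))⁻¹ * (P i).comp (C (s i) * X)

lemma Qs_natDegree (P : ℕ → ℂ[X]) (s : ℕ → ℂ) (hs : ∀ i, s i ≠ 0) (i : ℕ) :
    (Qs P s i).natDegree = (P i).natDegree := by
  rw [Qs, natDegree_C_mul (inv_ne_zero (hs (i + 1))), natDegree_comp, natDegree_C_mul_X _ (hs i),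
    mul_one]

lemma Qs_monic (P : ℕ → ℂ[X]) (s : ℕ → ℂ) (hs : ∀ i, s i ≠ 0)
    (hrec : ∀ i, s (i + 1) = (P i).leadingCoeff * s i ^ (P i).natDegree) (i : ℕ) :
    (Qs P s i).Monic := by
  rw [Monic, Qs, leadingCoeff_mul, leadingCoeff_C, leadingCoeff_comp, leadingCoeff_mul,
    leadingCoeff_C, leadingCoeff_X, mul_one, ← hrec, inv_mul_cancel₀ (hs (i + 1))]
  rw [natDegree_C_mul_X _ (hs i)]
  exact one_ne_zero

lemma Qs_eval (P : ℕ → ℂ[X]) (s : ℕ → ℂ) (i : ℕ) (y : ℂ) :
    aeval y (Qs P s i) = (s (i + 1))⁻¹ * aeval (s i * y) (P i) := by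
  simp [Qs, Polynomial.aeval_def, Polynomial.eval₂_comp]

lemma Qs_deriv (P : ℕ → ℂ[X]) (s : ℕ → ℂ) (i : ℕ) (y : ℂ) :
    aeval y (derivative (Qs P s i)) =
      (s (i + 1))⁻¹ * (s i * aeval (s i * y) (derivative (P i))) := by
  simp [Qs, Polynomial.aeval_def, Polynomial.eval₂_comp, derivative_mul, derivative_comp]

/-- reduction to monic polynomials -/
theorem scale (k : ℕ) (hk : 1 ≤ k) (P : ℕ → ℂ[X]) (a : ℕ → ℂ) (hPk : ∀ i, P (i + k) = P i)
    (hak : ∀ i, a (i + k) = a i) (hd : ∀ i, 2 ≤ (P i).natDegree) :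
    ∃ (Q : ℕ → ℂ[X]) (b : ℕ → ℂ), (∀ i, Q (i + k) = Q i) ∧ (∀ i, b (i + k) = b i) ∧
      (∀ i, (Q i).Monic) ∧ (∀ i, 2 ≤ (Q i).natDegree) ∧
      ∀ n, 1 ≤ n → (∏ i ∈ range (n * k), b i = ∏ i ∈ range (n * k), a i) ∧
        ∀ y : ℕ → ℂ, IsSol (n * k) Q b y →
          ∃ x : ℕ → ℂ, IsSol (n * k) P a x ∧ TT (n * k) P a x = TT (n * k) Q b y := by
  obtain ⟨s, hs0, hsk, hrec⟩ := exists_sq k hk P hPk hd
  have hsn := periodic_mul k s hsk
  refine ⟨Qs P s, fun i => a i * s (i + k - 1) / s (i + 1), ?_, ?_, Qs_monic P s hs0 hrec,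
    fun i => by rw [Qs_natDegree P s hs0]; exact hd i, ?_⟩
  · intro i
    unfold Qs
    rw [hPk, hsk, show i + k + 1 = i + 1 + k by ring, hsk]
  · intro i
    have e1 : i + k + k - 1 = i + k - 1 + k := by omega
    have e2 : i + k + 1 = i + 1 + k := by ring
    simp only [e1, e2, hak, hsk]
  · intro n hn
    have hN : k ≤ n * k := Nat.le_mul_of_pos_left k hn
    have hNper : ∀ i, s (i + n * k) = s i := hsn n
    refine ⟨?_, ?_⟩
    · rw [Finset.prod_div_distrib, Finset.prod_mul_distrib]
      have e1 : ∏ i ∈ range (n * k), s (i + k - 1) = ∏ i ∈ range (n * k), s i := by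
        have := prod_shift (n * k) s hNper (k - 1)
        rw [← this]
        apply Finset.prod_congr rfl
        intro i _
        congr 1
        omega
      rw [e1, prod_shift_one (n * k) s hNper]
      have h0 : ∏ i ∈ range (n * k), s i ≠ 0 := Finset.prod_ne_zero_iff.mpr (fun i _ => hs0 i)
      rw [mul_div_assoc, div_self h0, mul_one]
    · intro y hy
      obtain ⟨hper, hrel⟩ := hy
      refine ⟨fun i => s i * y i, ⟨?_, ?_⟩, ?_⟩
      · intro i
        simp only [hNper, hper]
      · intro i hi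
        have h1 := hrel i hi
        rw [Qs_eval, smul_eq_mul] at h1
        have e1 : s (i + n * k - 1) = s (i + k - 1) := by
          have := hsn (n - 1) (i + k - 1)
          rw [← this]
          congr 1
          have : n * k = (n - 1) * k + k := by
            conv_lhs => rw [show n = (n - 1) + 1 by omega]
            ring
          omega
        have h2 : s (i + 1) ≠ 0 := hs0 _
        rw [inv_mul_eq_iff_eq_mul₀ h2] at h1
        simp only [smul_eq_mul]
        rw [e1, h1]
        field_simp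
      · -- the traces
        have key : ∀ m, ∀ p q : ℕ → ℂ, ∀ b : ℕ → ℂ,
            (∀ i, q i = (s (i + 1))⁻¹ * (s i * p i)) → (∀ i, b i = a i * s (i + k - 1) / s (i + 1)) →
            cprod q b m 0 0 = cprod p a m 0 0 * s 0 / s m ∧
            cprod q b m 0 1 = cprod p a m 0 1 * s (k - 1) / s m ∧
            cprod q b m 1 0 = cprod p a m 1 0 * s 0 / s (m + k - 1) ∧
            cprod q b m 1 1 = cprod p a m 1 1 * s (k - 1) / s (m + k - 1) := by
          intro m p q b hq hb
          induction m with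
          | zero =>
            have h1 := hs0 0
            have h2 := hs0 (k - 1)
            simp [h1, h2]
          | succ m ih =>
            obtain ⟨i1, i2, i3, i4⟩ := ih
            have h1 := hs0 m
            have h2 := hs0 (m + 1)
            have h3 := hs0 (m + k - 1)
            have e1 : s (m + 1 + k - 1) = s m := by
              rw [show m + 1 + k - 1 = m + k by omega, hsk]
            rw [cprod_succ_00, cprod_succ_01, cprod_succ_10, cprod_succ_11, i1, i2, i3, i4, hq, hb,
              cprod_succ_00, cprod_succ_01, cprod_succ_10, cprod_succ_11, e1]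
            refine ⟨?_, ?_, rfl, rfl⟩
            · field_simp
            · field_simp
        have hk2 := key (n * k) (fun i => aeval (s i * y i) (derivative (P i)))
          (fun i => aeval (y i) (derivative (Qs P s i)))
          (fun i => a i * s (i + k - 1) / s (i + 1)) (fun i => Qs_deriv P s i (y i)) (fun i => rfl)
        obtain ⟨k1, -, -, k4⟩ := hk2
        have e0 : s (n * k) = s 0 := by
          have := hNper 0
          rwa [zero_add] at this
        have e1 : s (n * k + k - 1) = s (k - 1) := by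
          have := hNper (k - 1)
          rw [← this]
          congr 1
          omega
        rw [e0, mul_div_assoc, div_self (hs0 0), mul_one] at k1
        rw [e1, mul_div_assoc, div_self (hs0 _), mul_one] at k4
        unfold TT tr2
        simp only [Algebra.algebraMap_self, RingHom.id_apply]
        rw [k1, k4]

end Pool.Agent.SAD
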