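import Mathlib
import Pool.Agent.SAD.Trace
import Pool.Agent.SAD.Defs
import Pool.Agent.SAD.Exp

/-!
# SAD / Val: the value of the residue functional on the square of the trace
-/

set_option autoImplicit false

set_option linter.unusedSectionVars false

open Finset

namespace Pool.Agent.SAD

/-! ### symmetric squares -/

section Sq

variable {S : Type*} [CommRing S]

/-- symmetric square of a matrix -/
def sqm (M : Matrix (Fin 2) (Fin 2) S) : Matrix (Fin 3) (Fin 3) S :=
  !![M 0 0 ^ 2, M 0 0 * M 0 1, M 0 1 ^ 2;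
    2 * (M 0 0 * M 1 0), M 0 0 * M 1 1 + M 0 1 * M 1 0, 2 * (M 0 1 * M 1 1);
    M 1 0 ^ 2, M 1 0 * M 1 1, M 1 1 ^ 2]

/-- symmetric square of an elementary matrix -/
def S3 (p a : S) : Matrix (Fin 3) (Fin 3) S :=
  !![p ^ 2, -(a * p), a ^ 2; 2 * p, -a, 0; 1, 0, 0]

lemma sqm_one : sqm (1 : Matrix (Fin 2) (Fin 2) S) = 1 := by
  ext i j
  fin_cases i <;> fin_cases j <;> simp [sqm]

lemma sqm_mul (M K : Matrix (Fin 2) (Fin 2) S) : sqm (M * K) = sqm M * sqm K := by
  ext i j
  fin_cases i <;> fin_cases j <;>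
    simp [sqm, Matrix.mul_apply, Fin.sum_univ_two, Fin.sum_univ_three] <;> ring

lemma sqm_cm (p a : S) : sqm (cm p a) = S3 p a := by
  ext i j
  fin_cases i <;> fin_cases j <;> simp [sqm, cm, S3, mul_comm]

lemma mprod_S3 (p a : ℕ → S) (n : ℕ) :
    mprod (fun i => S3 (p i) (a i)) n = sqm (cprod p a n) := by
  induction n with
  | zero => rw [mprod_zero, cprod_zero, sqm_one]
  | succ n ih => rw [mprod_succ, ih, cprod_succ, sqm_mul, sqm_cm]

lemma tr2_sq (p a : ℕ → S) (n : ℕ) :
    tr2 p a n ^ 2 = (mprod (fun i => S3 (p i) (a i)) n).trace + ∏ i ∈ range n, a i := by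
  rw [mprod_S3, ← det_cprod, tr2, Matrix.trace_fin_three]
  simp only [sqm, Matrix.of_apply, Matrix.cons_val_zero, Matrix.cons_val_one, Matrix.cons_val]
  ring

end Sq

/-! ### the degree filtration -/

section Filt

variable {A : Type*} [CommRing A] [Algebra ℂ A] {σ : Type*}

/-- the monomial with exponent `β` -/
noncomputable def mon (x : σ → A) (β : σ →₀ ℕ) : A := β.prod (fun j e => x j ^ e)

lemma mon_add (x : σ → A) (β γ : σ →₀ ℕ) : mon x (β + γ) = mon x β * mon x γ := by
  classical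
  unfold mon
  exact Finsupp.prod_add_index' (fun _ => pow_zero _) (fun _ _ _ => pow_add _ _ _)

lemma mon_single (x : σ → A) (j : σ) (e : ℕ) : mon x (Finsupp.single j e) = x j ^ e := by
  unfold mon
  exact Finsupp.prod_single_index (pow_zero _)

lemma mon_zero (x : σ → A) : mon x 0 = 1 := by
  unfold mon
  exact Finsupp.prod_zero_index

lemma mon_sum (x : σ → A) {ι : Type*} (s : Finset ι) (β : ι → σ →₀ ℕ) :
    mon x (∑ i ∈ s, β i) = ∏ i ∈ s, mon x (β i) := by
  classical
  induction s using Finset.induction_on with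
  | empty => rw [sum_empty, prod_empty, mon_zero]
  | insert i s hi ih => rw [sum_insert hi, prod_insert hi, mon_add, ih]

/-- span of the monomials of degree less than `k` -/
def LT (x : σ → A) (k : ℕ) : Submodule ℂ A :=
  Submodule.span ℂ {m | ∃ β : σ →₀ ℕ, β.degree < k ∧ mon x β = m}

lemma mon_mem (x : σ → A) {k : ℕ} (β : σ →₀ ℕ) (h : β.degree < k) : mon x β ∈ LT x k :=
  Submodule.subset_span ⟨β, h, rfl⟩

lemma LT_mono (x : σ → A) {j k : ℕ} (h : j ≤ k) : LT x j ≤ LT x k := by
  apply Submodule.span_mono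
  rintro m ⟨β, hβ, rfl⟩
  exact ⟨β, lt_of_lt_of_le hβ h, rfl⟩

lemma LT_mul (x : σ → A) {j k : ℕ} {u v : A} (hu : u ∈ LT x (j + 1)) (hv : v ∈ LT x k) :
    u * v ∈ LT x (j + k) := by
  have h1 : u * v ∈ LT x (j + 1) * LT x k := Submodule.mul_mem_mul hu hv
  refine (?_ : LT x (j + 1) * LT x k ≤ LT x (j + k)) h1
  unfold LT
  rw [Submodule.span_mul_span]
  apply Submodule.span_le.2
  rintro m ⟨_, ⟨β, hβ, rfl⟩, _, ⟨γ, hγ, rfl⟩, rfl⟩
  apply Submodule.subset_span
  refine ⟨β + γ, ?_, mon_add x β γ⟩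
  rw [map_add]
  omega

lemma LT_mul' (x : σ → A) {j k : ℕ} {u v : A} (hu : u ∈ LT x j) (hv : v ∈ LT x (k + 1)) :
    u * v ∈ LT x (j + k) := by
  rw [mul_comm, add_comm]
  exact LT_mul x hv hu

lemma LT_alg (x : σ → A) (c : ℂ) : algebraMap ℂ A c ∈ LT x 1 := by
  rw [Algebra.algebraMap_eq_smul_one, ← mon_zero x]
  apply Submodule.smul_mem
  apply mon_mem
  simp

lemma LT_one (x : σ → A) : (1 : A) ∈ LT x 1 := by
  have := LT_alg x 1
  rwa [map_one] at this

lemma LT_pow (x : σ → A) (j : σ) (e : ℕ) : x j ^ e ∈ LT x (e + 1) := by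
  rw [← mon_single]
  apply mon_mem
  rw [Finsupp.degree_single]
  omega

lemma LT_x (x : σ → A) (j : σ) : x j ∈ LT x 2 := by
  have := LT_pow x j 1
  rwa [pow_one] at this

lemma LT_aeval (x : σ → A) (j : σ) (p : Polynomial ℂ) (k : ℕ)
    (h : ∀ i, k ≤ i → p.coeff i = 0) : Polynomial.aeval (x j) p ∈ LT x k := by
  rw [Polynomial.aeval_eq_sum_range]
  apply Submodule.sum_mem
  intro i _
  by_cases hi : k ≤ i
  · rw [h i hi, zero_smul]
    exact Submodule.zero_mem _
  · apply Submodule.smul_mem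
    exact LT_mono x (by omega) (LT_pow x j i)

/-- products of matrices modulo lower degree -/
lemma mprod_diff (x : σ → A) {m : Type*} [Fintype m] [DecidableEq m] (G H : ℕ → Matrix m m A)
    (e : ℕ → ℕ) (n : ℕ) (h1 : ∀ i < n, ∀ r s, (G i r s - H i r s) ∈ LT x (e i))
    (h2 : ∀ i < n, ∀ r s, H i r s ∈ LT x (e i + 1)) :
    (∀ r s, mprod G n r s - mprod H n r s ∈ LT x (∑ i ∈ range n, e i)) ∧
      (∀ r s, mprod H n r s ∈ LT x (∑ i ∈ range n, e i + 1)) := by
  induction n with
  | zero =>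
    constructor
    · intro r s
      rw [mprod_zero, mprod_zero, sub_self]
      exact Submodule.zero_mem _
    · intro r s
      rw [mprod_zero, Matrix.one_apply]
      split_ifs
      · simpa using LT_one x
      · exact Submodule.zero_mem _
  | succ n ih =>
    obtain ⟨i1, i2⟩ := ih (fun i hi => h1 i (by omega)) (fun i hi => h2 i (by omega))
    have hG : ∀ r s, mprod G n r s ∈ LT x (∑ i ∈ range n, e i + 1) := by
      intro r s
      have := Submodule.add_mem _ (LT_mono x (Nat.le_succ _) (i1 r s)) (i2 r s)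
      rwa [sub_add_cancel] at this
    constructor
    · intro r s
      rw [mprod_succ, mprod_succ, Matrix.mul_apply, Matrix.mul_apply, ← sum_sub_distrib]
      apply Submodule.sum_mem
      intro t _
      have h3 : G n r t * mprod G n t s - H n r t * mprod H n t s =
          (G n r t - H n r t) * mprod G n t s + H n r t * (mprod G n t s - mprod H n t s) := by
        ring
      rw [h3, sum_range_succ, add_comm (∑ i ∈ range n, e i)]
      apply Submodule.add_mem
      · exact LT_mul' x (h1 n (Nat.lt_succ_self n) r t) (hG t s)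
      · exact LT_mul x (h2 n (Nat.lt_succ_self n) r t) (i1 t s)
    · intro r s
      rw [mprod_succ, Matrix.mul_apply]
      apply Submodule.sum_mem
      intro t _
      rw [sum_range_succ, add_comm (∑ i ∈ range n, e i), add_assoc]
      exact LT_mul x (h2 n (Nat.lt_succ_self n) r t) (i2 t s)

end Filt

section Site

open Polynomial

lemma sg_spec (P : ℂ[X]) (hP : P.Monic) (hd : 2 ≤ P.natDegree) :
    ∃ R Q : ℂ[X], derivative P ^ 2 = R + P * Q ∧
      (∀ i, P.natDegree - 1 ≤ i → (R - C (sg P) * X ^ (P.natDegree - 1)).coeff i = 0) ∧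
      (∀ i, P.natDegree - 2 ≤ i →
        (Q - C ((P.natDegree : ℂ) ^ 2) * X ^ (P.natDegree - 2)).coeff i = 0) := by
  have hcf : (derivative P).coeff (P.natDegree - 1) = (P.natDegree : ℂ) := by
    rw [coeff_derivative]
    have h1 : P.natDegree - 1 + 1 = P.natDegree := by omega
    rw [h1, hP.coeff_natDegree, one_mul]
    have h2 : ((P.natDegree - 1 + 1 : ℕ) : ℂ) = (P.natDegree : ℂ) := by rw [h1]
    rw [← h2]
    push_cast
    ring
  have hdeg : (derivative P).natDegree = P.natDegree - 1 := by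
    apply le_antisymm (natDegree_derivative_le P)
    apply le_natDegree_of_ne_zero
    rw [hcf]
    exact_mod_cast (by omega : P.natDegree ≠ 0)
  have hlc : (derivative P).leadingCoeff = (P.natDegree : ℂ) := by
    rw [leadingCoeff, hdeg, hcf]
  have hd2 : (derivative P ^ 2).natDegree = 2 * (P.natDegree - 1) := by
    rw [natDegree_pow, hdeg]
  have hlc2 : (derivative P ^ 2).leadingCoeff = (P.natDegree : ℂ) ^ 2 := by
    rw [leadingCoeff_pow, hlc]
  have hne : derivative P ^ 2 ≠ 0 := by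
    intro h
    rw [h, leadingCoeff_zero] at hlc2
    have h3 : (P.natDegree : ℂ) = 0 := by
      have := hlc2.symm
      exact pow_eq_zero_iff (two_ne_zero) |>.1 this
    have h4 : P.natDegree = 0 := by exact_mod_cast h3
    omega
  have hQd : ((derivative P ^ 2) /ₘ P).natDegree = P.natDegree - 2 := by
    rw [natDegree_divByMonic _ hP, hd2]
    omega
  have hQl : ((derivative P ^ 2) /ₘ P).leadingCoeff = (P.natDegree : ℂ) ^ 2 := by
    rw [leadingCoeff_divByMonic_of_monic hP, hlc2]
    rw [degree_eq_natDegree hne, degree_eq_natDegree hP.ne_zero, hd2]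
    exact_mod_cast (by omega : P.natDegree ≤ 2 * (P.natDegree - 1))
  refine ⟨(derivative P ^ 2) %ₘ P, (derivative P ^ 2) /ₘ P, (modByMonic_add_div _ _).symm, ?_, ?_⟩
  · intro i hi
    rw [coeff_sub, coeff_C_mul, coeff_X_pow]
    by_cases h : i = P.natDegree - 1
    · rw [if_pos h, mul_one, h, sg, sub_self]
    · rw [if_neg h, mul_zero, sub_zero]
      apply coeff_eq_zero_of_degree_lt
      refine lt_of_lt_of_le (degree_modByMonic_lt _ hP) ?_
      rw [degree_eq_natDegree hP.ne_zero]
      exact_mod_cast (by omega : P.natDegree ≤ i)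
  · intro i hi
    rw [coeff_sub, coeff_C_mul, coeff_X_pow]
    by_cases h : i = P.natDegree - 2
    · rw [if_pos h, mul_one, h, ← hQl, leadingCoeff, hQd, sub_self]
    · rw [if_neg h, mul_zero, sub_zero]
      apply coeff_eq_zero_of_natDegree_lt
      rw [hQd]
      omega

lemma der_spec (P : ℂ[X]) (hP : P.Monic) (hd : 2 ≤ P.natDegree) (i : ℕ)
    (hi : P.natDegree - 1 ≤ i) :
    (derivative P - C (P.natDegree : ℂ) * X ^ (P.natDegree - 1)).coeff i = 0 := by
  rw [coeff_sub, coeff_C_mul, coeff_X_pow, coeff_derivative]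
  by_cases h : i = P.natDegree - 1
  · have h1 : P.natDegree - 1 + 1 = P.natDegree := by omega
    rw [if_pos h, mul_one, h, h1, hP.coeff_natDegree, one_mul]
    have h2 : ((P.natDegree - 1 + 1 : ℕ) : ℂ) = (P.natDegree : ℂ) := by rw [h1]
    rw [← h2]
    push_cast
    ring
  · rw [if_neg h, mul_zero, sub_zero, coeff_eq_zero_of_natDegree_lt (by omega), zero_mul]

variable {A : Type*} [CommRing A] [Algebra ℂ A] {σ : Type*}

/-- the leading part of the symmetric square of the matrix of a site -/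
noncomputable def Hm (x : A) (y : Fin 3 → A) (s d a : ℂ) (n : ℕ) : Matrix (Fin 3) (Fin 3) A :=
  x ^ n • ∑ c : Fin 3, y c • (WW s d a c).map (algebraMap ℂ A)

lemma Hm_eq (x : A) (y : Fin 3 → A) (s d a : ℂ) (n : ℕ) :
    Hm x y s d a n = !![x ^ n * (y 0 * algebraMap ℂ A s + y 1 * algebraMap ℂ A (d ^ 2) +
        y 2 * algebraMap ℂ A (a * d ^ 2)), x ^ n * (y 0 * algebraMap ℂ A (-(a * d))), 0;
      x ^ n * (y 0 * algebraMap ℂ A (2 * d)), 0, 0; 0, 0, 0] := by
  unfold Hm
  rw [Fin.sum_univ_three]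
  ext i j
  fin_cases i <;> fin_cases j <;>
    simp only [WW, Matrix.smul_apply, Matrix.add_apply, Matrix.map_apply, Matrix.of_apply,
      Matrix.cons_val', Matrix.cons_val_zero, Matrix.cons_val_one, Matrix.cons_val,
      Matrix.cons_val_fin_one, smul_eq_mul, map_zero, mul_zero, add_zero, Fin.isValue,
      Fin.zero_eta, Fin.mk_one, Fin.reduceFinMk]

lemma site (x : σ → A) (j jp jm : σ) (P : ℂ[X]) (a : ℂ) (hP : P.Monic) (hd : 2 ≤ P.natDegree)
    (hrel : aeval (x j) P = x jp + a • x jm) :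
    (∀ r s, (S3 (aeval (x j) (derivative P)) (algebraMap ℂ A a) r s -
      Hm (x j) ![x j, x jp, x jm] (sg P) P.natDegree a (P.natDegree - 2) r s) ∈
        LT x (P.natDegree - 1)) ∧
    (∀ r s, Hm (x j) ![x j, x jp, x jm] (sg P) P.natDegree a (P.natDegree - 2) r s ∈
        LT x (P.natDegree - 1 + 1)) := by
  obtain ⟨R, Q, hRQ, hR, hQ⟩ := sg_spec P hP hd
  set d := P.natDegree with hdd
  have hc : ∀ c : ℂ, algebraMap ℂ A c ∈ LT x (d - 1) := fun c => LT_mono x (by omega) (LT_alg x c)
  have hone : (1 : A) ∈ LT x (d - 1) := LT_mono x (by omega) (LT_one x)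
  -- the derivative
  have hder : aeval (x j) (derivative P) - x j ^ (d - 2) * (x j * algebraMap ℂ A (d : ℂ)) ∈
      LT x (d - 1) := by
    have h1 := LT_aeval x j (derivative P - C (d : ℂ) * X ^ (d - 1)) (d - 1)
      (der_spec P hP hd)
    rw [map_sub, map_mul, aeval_C, map_pow, aeval_X] at h1
    have h2 : x j ^ (d - 2) * (x j * algebraMap ℂ A (d : ℂ)) =
        algebraMap ℂ A (d : ℂ) * x j ^ (d - 1) := by
      have h3 : d - 1 = d - 2 + 1 := by omega
      rw [h3, pow_succ]
      ring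
    rw [h2]
    exact h1
  have hsmul : ∀ (c : ℂ) (u : A) (k : ℕ), u ∈ LT x k → algebraMap ℂ A c * u ∈ LT x k := by
    intro c u k hu
    rw [← Algebra.smul_def]
    exact Submodule.smul_mem _ _ hu
  have h9 : ∀ u v : A, u = v → u ∈ LT x (d - 1) → v ∈ LT x (d - 1) := by
    rintro u v rfl h
    exact h
  -- the square
  have hsq : aeval (x j) (derivative P) ^ 2 - x j ^ (d - 2) * (x j * algebraMap ℂ A (sg P) +
      x jp * algebraMap ℂ A ((d : ℂ) ^ 2) + x jm * algebraMap ℂ A (a * (d : ℂ) ^ 2)) ∈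
      LT x (d - 1) := by
    have h1 := LT_aeval x j (R - C (sg P) * X ^ (d - 1)) (d - 1) hR
    have h2 := LT_aeval x j (Q - C ((d : ℂ) ^ 2) * X ^ (d - 2)) (d - 2) hQ
    rw [map_sub, map_mul, aeval_C, map_pow, aeval_X] at h1
    rw [map_sub, map_mul, aeval_C, map_pow (aeval (x j)), aeval_X] at h2
    have h3 : aeval (x j) (derivative P) ^ 2 = aeval (x j) R +
        (x jp + algebraMap ℂ A a * x jm) * aeval (x j) Q := by
      rw [← map_pow, hRQ, map_add, map_mul, hrel, Algebra.smul_def]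
    have h4 : d - 1 = d - 2 + 1 := by omega
    have h5 := LT_mul' x h2 (LT_x x jp : x jp ∈ LT x (1 + 1))
    have h6 := hsmul a _ _ (LT_mul' x h2 (LT_x x jm : x jm ∈ LT x (1 + 1)))
    rw [← h4] at h5 h6
    have h7 := Submodule.add_mem _ h1 (Submodule.add_mem _ h5 h6)
    have h8 : x j ^ (d - 1) = x j ^ (d - 2) * x j := by rw [h4, pow_succ]
    rw [h3]
    rw [h8] at h7
    rw [map_mul]
    refine h9 _ _ ?_ h7
    ring
  -- membership of the leading part
  have hxx : ∀ (i : σ) (c : ℂ), x j ^ (d - 2) * (x i * algebraMap ℂ A c) ∈ LT x (d - 1 + 1) := by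
    intro i c
    have h1 : x j ^ (d - 2) ∈ LT x (d - 2 + 1) := LT_pow x j (d - 2)
    have h2 : x i * algebraMap ℂ A c ∈ LT x 2 := by
      rw [mul_comm]
      exact hsmul c _ _ (LT_x x i)
    have h3 := LT_mul x h1 h2
    have h4 : d - 2 + 2 = d - 1 + 1 := by omega
    rw [h4] at h3
    exact h3
  constructor
  · intro r s
    rw [Hm_eq]
    fin_cases r <;> fin_cases s <;>
      simp only [S3, Matrix.of_apply, Matrix.cons_val', Matrix.cons_val_zero,
        Matrix.cons_val_one, Matrix.cons_val, Matrix.cons_val_fin_one, Fin.isValue,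
        Fin.zero_eta, Fin.mk_one, Fin.reduceFinMk, sub_zero]
    · exact hsq
    · have h1 := hsmul (-a) _ _ hder
      refine h9 _ _ ?_ h1
      rw [map_neg, map_neg, map_mul]
      ring
    · have := hc (a ^ 2)
      rwa [map_pow] at this
    · have h1 := hsmul 2 _ _ hder
      refine h9 _ _ ?_ h1
      rw [map_mul, map_ofNat]
      ring
    · have := hc (-a)
      rwa [map_neg] at this
    · exact Submodule.zero_mem _
    · exact hone
    · exact Submodule.zero_mem _
    · exact Submodule.zero_mem _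
  · intro r s
    rw [Hm_eq]
    fin_cases r <;> fin_cases s <;>
      simp only [Matrix.of_apply, Matrix.cons_val', Matrix.cons_val_zero,
        Matrix.cons_val_one, Matrix.cons_val, Matrix.cons_val_fin_one, Fin.isValue,
        Fin.zero_eta, Fin.mk_one, Fin.reduceFinMk]
    · rw [mul_add, mul_add]
      exact Submodule.add_mem _ (Submodule.add_mem _ (hxx j _) (hxx jp _)) (hxx jm _)
    · exact hxx j _
    · exact Submodule.zero_mem _
    · exact hxx j _
    all_goals exact Submodule.zero_mem _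

end Site

section Main

open Polynomial

variable {A : Type*} [CommRing A] [Algebra ℂ A]

lemma mon_eq (N : ℕ) (x : ℕ → A) (β : Fin N →₀ ℕ) :
    mon (fun j : Fin N => x j) β = ∏ i : Fin N, x i ^ β i := by
  unfold mon
  rw [Finsupp.prod_fintype]
  intro i
  exact pow_zero _

lemma top_degree (N : ℕ) (P : ℕ → ℂ[X]) :
    (top N P).degree = ∑ i ∈ range N, ((P i).natDegree - 1) := by
  rw [Finsupp.degree_eq_sum, ← Fin.sum_univ_eq_sum_range]
  rfl

lemma rho_LT {N : ℕ} {P : ℕ → ℂ[X]} {x : ℕ → A} {ρ : A →ₗ[ℂ] ℂ} (hρ : IsRho N P x ρ) {u : A}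
    (hu : u ∈ LT (fun j : Fin N => x j) (top N P).degree) : ρ u = 0 := by
  have h : LT (fun j : Fin N => x j) (top N P).degree ≤ LinearMap.ker ρ := by
    apply Submodule.span_le.2
    rintro m ⟨β, hβ, rfl⟩
    rw [SetLike.mem_coe, LinearMap.mem_ker, mon_eq, hρ β hβ.le, if_neg]
    rintro rfl
    exact lt_irrefl _ hβ
  exact h hu

theorem rho_one (N : ℕ) (hN : 1 ≤ N) (P : ℕ → ℂ[X]) (hd : ∀ i, 2 ≤ (P i).natDegree)
    (x : ℕ → A) (ρ : A →ₗ[ℂ] ℂ) (hρ : IsRho N P x ρ) : ρ 1 = 0 := by
  apply rho_LT hρ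
  refine LT_mono _ ?_ (LT_one _)
  rw [top_degree]
  obtain ⟨m, rfl⟩ : ∃ m, N = m + 1 := ⟨N - 1, by omega⟩
  rw [sum_range_succ]
  have := hd m
  omega

open Classical in
lemma rho_word (N : ℕ) (P : ℕ → ℂ[X]) (hd : ∀ i, 2 ≤ (P i).natDegree)
    (x : ℕ → A) (ρ : A →ₗ[ℂ] ℂ) (hρ : IsRho N P x ρ) (c : ℕ → Fin 3) :
    ρ (∏ i ∈ range N, (x i ^ ((P i).natDegree - 2) * x (tgt N i (c i)))) =
      if Once N c then 1 else 0 := by
  set β : Fin N →₀ ℕ := ∑ i : Fin N, (Finsupp.single i ((P i).natDegree - 2) +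
    Finsupp.single (⟨tgt N i (c i), tgt_lt N i i.2 _⟩ : Fin N) 1) with hβ
  have h1 : ∏ i ∈ range N, (x i ^ ((P i).natDegree - 2) * x (tgt N i (c i))) =
      ∏ i : Fin N, x i ^ β i := by
    rw [← mon_eq, hβ, mon_sum,
      ← Fin.prod_univ_eq_prod_range (fun i => x i ^ ((P i).natDegree - 2) * x (tgt N i (c i))) N]
    apply Finset.prod_congr rfl
    intro i _
    rw [mon_add, mon_single, mon_single, pow_one]
  have h2 : β.degree = (top N P).degree := by
    rw [hβ, map_sum, top_degree, ← Fin.sum_univ_eq_sum_range]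
    apply Finset.sum_congr rfl
    intro i _
    rw [map_add, Finsupp.degree_single, Finsupp.degree_single]
    have := hd i
    omega
  rw [h1, hρ β h2.le]
  apply if_congr _ rfl rfl
  have h3 : ∀ j : Fin N, β j = (P j).natDegree - 2 + (e0 (c j) +
      e1 (c (if (j : ℕ) = 0 then N - 1 else j - 1)) +
      e2 (c (if (j : ℕ) + 1 = N then 0 else j + 1))) := by
    intro j
    rw [hβ, Finsupp.finsetSum_apply]
    simp only [Finsupp.add_apply]
    rw [Finset.sum_add_distrib, Finset.sum_eq_single j, Finsupp.single_eq_same]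
    · congr 1
      rw [← count_tgt N c j j.2,
        ← Fin.sum_univ_eq_sum_range (fun i => if tgt N i (c i) = (j : ℕ) then 1 else 0)]
      apply Finset.sum_congr rfl
      intro i _
      rw [Finsupp.single_apply]
      apply if_congr _ rfl rfl
      rw [Fin.ext_iff]
    · intro i _ hij
      exact Finsupp.single_eq_of_ne' hij
    · intro h
      exact absurd (mem_univ _) h
  constructor
  · intro h j hj
    have h4 := h3 ⟨j, hj⟩
    have h5 : β ⟨j, hj⟩ = (P j).natDegree - 1 := by
      rw [h]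
      rfl
    rw [h5] at h4
    have := hd j
    simp only at h4
    omega
  · intro h
    ext j
    rw [h3 j, h j j.2]
    have h5 : top N P j = (P j).natDegree - 1 := rfl
    rw [h5]
    have := hd j
    omega

lemma tgt_one {N : ℕ} {x : ℕ → A} (hx : ∀ i, x (i + N) = x i) (i : ℕ) :
    x (tgt N i 1) = x (i + 1) := by
  have t0 : tgt N i 1 = if i + 1 = N then 0 else i + 1 := rfl
  rw [t0]
  split_ifs with h
  · rw [h, ← hx 0, zero_add]
  · rfl

lemma tgt_two {N : ℕ} (hN : 1 ≤ N) {x : ℕ → A} (hx : ∀ i, x (i + N) = x i) (i : ℕ) :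
    x (tgt N i 2) = x (i + N - 1) := by
  have t0 : tgt N i 2 = if i = 0 then N - 1 else i - 1 := rfl
  rw [t0]
  split_ifs with h
  · rw [h, zero_add]
  · rw [← hx (i - 1)]
    congr 1
    omega

lemma trace_map' {S S' m : Type*} [CommRing S] [CommRing S'] [Fintype m] (f : S →+* S')
    (M : Matrix m m S) : (M.map f).trace = f M.trace := by
  rw [Matrix.trace, Matrix.trace, map_sum]
  rfl

open Classical in
/-- the value of the residue functional on the square of the trace -/
theorem rho_TT_sq (N : ℕ) (hN : 1 ≤ N) (P : ℕ → ℂ[X]) (a : ℕ → ℂ) (hP : ∀ i, (P i).Monic)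
    (hd : ∀ i, 2 ≤ (P i).natDegree) (x : ℕ → A) (hx : IsSol N P a x)
    (ρ : A →ₗ[ℂ] ℂ) (hρ : IsRho N P x ρ) :
    ρ (TT N P a x ^ 2) = (mprod (fun i => VV (P i) (a i)) N).trace := by
  obtain ⟨hper, hrel⟩ := hx
  set G : ℕ → Matrix (Fin 3) (Fin 3) A := fun i =>
    S3 (aeval (x i) (derivative (P i))) (algebraMap ℂ A (a i)) with hG
  set H : ℕ → Matrix (Fin 3) (Fin 3) A := fun i =>
    Hm (x i) (fun c => x (tgt N i c)) (sg (P i)) (P i).natDegree (a i) ((P i).natDegree - 2)
    with hH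
  -- reduction to the leading parts
  have hsite : ∀ i < N, (∀ r s, (G i r s - H i r s) ∈
      LT (fun j : Fin N => x j) ((P i).natDegree - 1)) ∧
      (∀ r s, H i r s ∈ LT (fun j : Fin N => x j) ((P i).natDegree - 1 + 1)) := by
    intro i hi
    have h1 := site (fun j : Fin N => x j) ⟨i, hi⟩ ⟨tgt N i 1, tgt_lt N i hi 1⟩
      ⟨tgt N i 2, tgt_lt N i hi 2⟩ (P i) (a i) (hP i) (hd i) (by
        change aeval (x i) (P i) = x (tgt N i 1) + a i • x (tgt N i 2)
        rw [tgt_one hper, tgt_two hN hper]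
        exact hrel i hi)
    have h2 : (![x i, x (tgt N i 1), x (tgt N i 2)] : Fin 3 → A) =
        fun c => x (tgt N i c) := by
      funext c
      fin_cases c <;> rfl
    have h3 : (![(fun j : Fin N => x j) ⟨i, hi⟩, (fun j : Fin N => x j)
        ⟨tgt N i 1, tgt_lt N i hi 1⟩, (fun j : Fin N => x j) ⟨tgt N i 2, tgt_lt N i hi 2⟩] :
        Fin 3 → A) = fun c => x (tgt N i c) := h2
    rw [h3] at h1
    exact h1
  have hdiff := (mprod_diff (fun j : Fin N => x j) G H (fun i => (P i).natDegree - 1) N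
    (fun i hi => (hsite i hi).1) (fun i hi => (hsite i hi).2)).1
  have hρtr : ρ (mprod G N).trace = ρ (mprod H N).trace := by
    rw [← sub_eq_zero, ← map_sub, Matrix.trace, Matrix.trace, ← Finset.sum_sub_distrib]
    apply rho_LT hρ
    rw [top_degree]
    apply Submodule.sum_mem
    intro r _
    exact hdiff r r
  have hsq : TT N P a x ^ 2 = (mprod G N).trace +
      algebraMap ℂ A (∏ i ∈ range N, a i) := by
    rw [TT, tr2_sq, map_prod]
  have hρ1 : ρ (algebraMap ℂ A (∏ i ∈ range N, a i)) = 0 := by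
    rw [Algebra.algebraMap_eq_smul_one, map_smul, rho_one N hN P hd x ρ hρ, smul_zero]
  rw [hsq, map_add, hρ1, add_zero, hρtr]
  -- expansion of the left side
  have hL : mprod H N = ∑ c : Fin N → Fin 3, ((∏ i ∈ range N, (x i ^ ((P i).natDegree - 2) *
      x (tgt N i (ext c i)))) • (mprod (fun i => WW (sg (P i)) (P i).natDegree (a i)
        (ext c i)) N).map (algebraMap ℂ A)) := by
    have h1 : H = fun i => x i ^ ((P i).natDegree - 2) • ∑ c : Fin 3, x (tgt N i c) •
        (WW (sg (P i)) (P i).natDegree (a i) c).map (algebraMap ℂ A) := rfl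
    rw [h1, mprod_smul, mprod_sum (fun i c => x (tgt N i c) •
        (WW (sg (P i)) (P i).natDegree (a i) c).map (algebraMap ℂ A)), Finset.smul_sum]
    apply Finset.sum_congr rfl
    intro c _
    rw [mprod_smul (fun i => x (tgt N i (ext c i))), smul_smul, ← Finset.prod_mul_distrib,
      mprod_map]
  have hR : (mprod (fun i => VV (P i) (a i)) N).trace = ∑ c : Fin N → Fin 3,
      (if Once N (ext c) then 1 else 0) *
        (mprod (fun i => WW (sg (P i)) (P i).natDegree (a i) (ext c i)) N).trace := by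
    unfold VV
    rw [mprod_sum (fun i c => Matrix.kroneckerMap (fun u v => u * v) (ZZ c)
      (WW (sg (P i)) (P i).natDegree (a i) c)), Matrix.trace_sum]
    apply Finset.sum_congr rfl
    intro c _
    rw [mprod_kronecker (fun i => ZZ (ext c i)), Matrix.trace_kronecker, trace_ZZ N hN]
  rw [hL, hR, Matrix.trace_sum, map_sum]
  apply Finset.sum_congr rfl
  intro c _
  rw [Matrix.trace_smul, trace_map', smul_eq_mul, mul_comm, ← Algebra.smul_def, map_smul,
    rho_word N P hd x ρ hρ (ext c), smul_eq_mul, mul_comm]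

/-- the leading part of the matrix of a site -/
noncomputable def Em (d : ℂ) : Matrix (Fin 2) (Fin 2) ℂ := !![d, 0; 0, 0]

lemma mprod_Em (d : ℕ → ℂ) (n : ℕ) :
    mprod (fun i => Em (d i)) (n + 1) = Em (∏ i ∈ range (n + 1), d i) := by
  induction n with
  | zero => rw [mprod_succ, mprod_zero, mul_one, prod_range_one]
  | succ n ih =>
    rw [mprod_succ, ih, prod_range_succ _ (n + 1), mul_comm (∏ i ∈ range (n + 1), d i)]
    ext i j
    fin_cases i <;> fin_cases j <;> simp [Em, Matrix.mul_apply, Fin.sum_univ_two]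

/-- the value of the residue functional on the trace -/
theorem rho_TT (N : ℕ) (hN : 1 ≤ N) (P : ℕ → ℂ[X]) (a : ℕ → ℂ) (hP : ∀ i, (P i).Monic)
    (hd : ∀ i, 2 ≤ (P i).natDegree) (x : ℕ → A)
    (ρ : A →ₗ[ℂ] ℂ) (hρ : IsRho N P x ρ) :
    ρ (TT N P a x) = ∏ i ∈ range N, ((P i).natDegree : ℂ) := by
  set G : ℕ → Matrix (Fin 2) (Fin 2) A := fun i =>
    cm (aeval (x i) (derivative (P i))) (algebraMap ℂ A (a i)) with hG
  set H : ℕ → Matrix (Fin 2) (Fin 2) A := fun i =>
    x i ^ ((P i).natDegree - 1) • (Em ((P i).natDegree : ℂ)).map (algebraMap ℂ A) with hH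
  have h9 : ∀ (k : ℕ) (u v : A), u = v → u ∈ LT (fun j : Fin N => x j) k →
      v ∈ LT (fun j : Fin N => x j) k := by
    rintro k u v rfl h
    exact h
  have hG1 : ∀ i < N, ∀ r s, (G i r s - H i r s) ∈
      LT (fun j : Fin N => x j) ((P i).natDegree - 1) := by
    intro i hi r s
    have hdi := hd i
    have hder := LT_aeval (fun j : Fin N => x j) ⟨i, hi⟩ (derivative (P i) -
      C ((P i).natDegree : ℂ) * X ^ ((P i).natDegree - 1)) ((P i).natDegree - 1)
      (der_spec (P i) (hP i) (hd i))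
    rw [map_sub, map_mul, aeval_C, map_pow, aeval_X] at hder
    have hal := LT_mono (fun j : Fin N => x j) (show 1 ≤ (P i).natDegree - 1 by omega)
      (LT_alg _ (-(a i)))
    have hon := LT_mono (fun j : Fin N => x j) (show 1 ≤ (P i).natDegree - 1 by omega)
      (LT_one _)
    fin_cases r <;> fin_cases s
    · refine h9 _ _ _ ?_ hder
      simp [hG, hH, cm, Em, mul_comm]
    · refine h9 _ _ _ ?_ hal
      simp [hG, hH, cm, Em]
    · refine h9 _ _ _ ?_ hon
      simp [hG, hH, cm, Em]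
    · refine h9 _ _ _ ?_ (Submodule.zero_mem _)
      simp [hG, hH, cm, Em]
  have hH1 : ∀ i < N, ∀ r s, H i r s ∈ LT (fun j : Fin N => x j) ((P i).natDegree - 1 + 1) := by
    intro i hi r s
    have h1 : H i r s = Em ((P i).natDegree : ℂ) r s • x i ^ ((P i).natDegree - 1) := by
      rw [Algebra.smul_def, mul_comm]
      rfl
    rw [h1]
    apply Submodule.smul_mem
    exact LT_pow (fun j : Fin N => x j) ⟨i, hi⟩ _
  have hdiff := (mprod_diff (fun j : Fin N => x j) G H (fun i => (P i).natDegree - 1) N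
    hG1 hH1).1
  have hT : TT N P a x = (mprod G N).trace := by
    rw [TT, tr2_eq]
    rfl
  have hρtr : ρ (mprod G N).trace = ρ (mprod H N).trace := by
    rw [← sub_eq_zero, ← map_sub, Matrix.trace, Matrix.trace, ← Finset.sum_sub_distrib]
    apply rho_LT hρ
    rw [top_degree]
    apply Submodule.sum_mem
    intro r _
    exact hdiff r r
  have htop : ρ (∏ i ∈ range N, x i ^ ((P i).natDegree - 1)) = 1 := by
    have h1 := hρ (top N P) le_rfl
    rw [if_pos rfl] at h1
    rw [← h1, ← Fin.prod_univ_eq_prod_range (fun i => x i ^ ((P i).natDegree - 1)) N]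
    rfl
  obtain ⟨m, rfl⟩ : ∃ m, N = m + 1 := ⟨N - 1, by omega⟩
  rw [hT, hρtr, hH, mprod_smul (fun i => x i ^ ((P i).natDegree - 1)), mprod_map, mprod_Em,
    Matrix.trace_smul, trace_map', smul_eq_mul, mul_comm, ← Algebra.smul_def, map_smul, htop,
    smul_eq_mul, mul_one]
  simp [Em, Matrix.trace_fin_two]

end Main

end Pool.Agent.SAD
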