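import Mathlib
import Pool.Agent.SAD.Core
import Pool.Agent.SAD.Scale
import Pool.Agent.SAD.Val

/-!
# SAD / Fin: periodic solutions with a large trace
-/

set_option autoImplicit false

namespace Pool.Agent.SAD

open Finset Polynomial

theorem valAt (N : ℕ) (hN : 1 ≤ N) (P : ℕ → ℂ[X]) (a : ℕ → ℂ) (hP : ∀ i, (P i).Monic)
    (hd : ∀ i, 2 ≤ (P i).natDegree) : ValAt N P a := by
  intro A _ _ x hx ρ hρ
  exact ⟨rho_one N hN P hd x ρ hρ, rho_TT N hN P a hP hd x ρ hρ,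
    rho_TT_sq N hN P a hP hd x hx ρ hρ⟩

/-- the growth inequality -/
def GrowAt (k : ℕ) (P : ℕ → ℂ[X]) (a : ℕ → ℂ) : Prop :=
  ∃ n ≥ 1, (1 + ‖∏ i ∈ range (n * k), a i‖) * ∏ i ∈ range (n * k), ((P i).natDegree : ℝ) <
    ‖(mprod (fun i => VV (P i) (a i)) (n * k)).trace -
      (1 + ∏ i ∈ range (n * k), a i) * ∏ i ∈ range (n * k), ((P i).natDegree : ℂ)‖

theorem core (k : ℕ) (hk : 1 ≤ k) (P : ℕ → ℂ[X]) (a : ℕ → ℂ) (hP : ∀ i, (P i).Monic)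
    (hd : ∀ i, 2 ≤ (P i).natDegree) (hg : GrowAt k P a) :
    ∃ n ≥ 1, ∃ x : ℕ → ℂ, IsSol (n * k) P a x ∧
      1 + ‖∏ i ∈ range (n * k), a i‖ < ‖TT (n * k) P a x‖ := by
  obtain ⟨n, hn, hg⟩ := hg
  have hN : 1 ≤ n * k := Nat.mul_pos hn hk
  obtain ⟨x, hx⟩ := core_of (n * k) hN P a hP hd (valAt (n * k) hN P a hP hd) hg
  exact ⟨n, hn, x, hx⟩

theorem core'_of (hG : ∀ (k : ℕ) (_ : 1 ≤ k) (P : ℕ → ℂ[X]) (a : ℕ → ℂ)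
      (_ : ∀ i, P (i + k) = P i) (_ : ∀ i, a (i + k) = a i) (_ : ∀ i, 2 ≤ (P i).natDegree),
      GrowAt k P a) (k : ℕ) (hk : 1 ≤ k) (P : ℕ → ℂ[X]) (a : ℕ → ℂ)
    (hPk : ∀ i, P (i + k) = P i) (hak : ∀ i, a (i + k) = a i)
    (hd : ∀ i, 2 ≤ (P i).natDegree) :
    ∃ n ≥ 1, ∃ x : ℕ → ℂ, IsSol (n * k) P a x ∧
      1 + ‖∏ i ∈ range (n * k), a i‖ < ‖TT (n * k) P a x‖ := by
  obtain ⟨Q, b, hQk, hbk, hQ, hQd, h⟩ := scale k hk P a hPk hak hd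
  obtain ⟨n, hn, y, hy, hT⟩ := core k hk Q b hQ hQd (hG k hk Q b hQk hbk hQd)
  obtain ⟨hprod, hsol⟩ := h n hn
  obtain ⟨x, hx, hxT⟩ := hsol y hy
  refine ⟨n, hn, x, hx, ?_⟩
  rw [hxT, ← hprod]
  exact hT

end Pool.Agent.SAD
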