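import Mathlib
import Pool.Agent.SAD.Defs
import Pool.Agent.SAD.Exp
import Pool.Agent.SAD.Tools

/-!
# SAD / Grow: growth of the trace sum

The automaton of the transfer matrices `VV` splits into the blocks `{0, 1}`, `{2}`, `{3}`; the last
two give the eigenvalues `D²` and `δ D²` of the product over a period.
-/

set_option autoImplicit false

open Finset Polynomial

namespace Pool.Agent.SAD

/-- the inclusion of the first block -/
def blk (p : Fin 2 × Fin 3) : Fin 4 × Fin 3 := (Fin.castLE (by omega) p.1, p.2)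

/-- the first block of the transfer matrix -/
noncomputable def MM (P : ℂ[X]) (a : ℂ) : Matrix (Fin 2 × Fin 3) (Fin 2 × Fin 3) ℂ :=
  (VV P a).submatrix blk blk

/-- the matrix unit -/
def E00 : Matrix (Fin 3) (Fin 3) ℂ := !![1, 0, 0; 0, 0, 0; 0, 0, 0]

lemma E00_mul : E00 * E00 = E00 := by
  ext i j
  fin_cases i <;> fin_cases j <;> simp [E00, Matrix.mul_apply, Fin.sum_univ_three]

lemma E00_trace : E00.trace = 1 := by
  simp [E00, Matrix.trace, Fin.sum_univ_three]

lemma mprod_E00 (n : ℕ) (hn : 1 ≤ n) : mprod (fun _ => E00) n = E00 := by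
  induction n with
  | zero => omega
  | succ n ih =>
    rw [mprod_succ]
    rcases Nat.eq_zero_or_pos n with h | h
    · subst h
      rw [mprod_zero, mul_one]
    · rw [ih h, E00_mul]

lemma trace_W (c : ℕ → ℂ) (n : ℕ) (hn : 1 ≤ n) :
    (mprod (fun i => c i • E00) n).trace = ∏ i ∈ range n, c i := by
  rw [mprod_smul, mprod_E00 n hn, Matrix.trace_smul, E00_trace, smul_eq_mul, mul_one]

lemma WW_one (s d a : ℂ) : WW s d a 1 = (d ^ 2) • E00 := by
  ext i j
  fin_cases i <;> fin_cases j <;> simp [WW, E00]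

lemma WW_two (s d a : ℂ) : WW s d a 2 = (a * d ^ 2) • E00 := by
  ext i j
  fin_cases i <;> fin_cases j <;> simp [WW, E00]

lemma VV_apply (P : ℂ[X]) (a : ℂ) (s' s : Fin 4) (x' x : Fin 3) :
    VV P a (s', x') (s, x) = ZZ 0 s' s * WW (sg P) P.natDegree a 0 x' x +
      ZZ 1 s' s * WW (sg P) P.natDegree a 1 x' x +
      ZZ 2 s' s * WW (sg P) P.natDegree a 2 x' x := by
  unfold VV
  rw [Fin.sum_univ_three, Matrix.add_apply, Matrix.add_apply, Matrix.kroneckerMap_apply,
    Matrix.kroneckerMap_apply, Matrix.kroneckerMap_apply]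

/-- block structure of the entries -/
lemma mprod_VV (P : ℕ → ℂ[X]) (a : ℕ → ℂ) (n : ℕ) (x' x : Fin 3) :
    (∀ s' s : Fin 2, mprod (fun i => VV (P i) (a i)) n (blk (s', x')) (blk (s, x)) =
      mprod (fun i => MM (P i) (a i)) n (s', x') (s, x)) ∧
    mprod (fun i => VV (P i) (a i)) n (2, x') (2, x) =
      mprod (fun i => (((P i).natDegree : ℂ) ^ 2) • E00) n x' x ∧
    mprod (fun i => VV (P i) (a i)) n (3, x') (3, x) =
      mprod (fun i => (a i * ((P i).natDegree : ℂ) ^ 2) • E00) n x' x ∧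
    (∀ s : Fin 2, mprod (fun i => VV (P i) (a i)) n (2, x') (blk (s, x)) = 0) ∧
    (∀ s : Fin 2, mprod (fun i => VV (P i) (a i)) n (3, x') (blk (s, x)) = 0) ∧
    (∀ s' : Fin 2, mprod (fun i => VV (P i) (a i)) n (blk (s', x')) (2, x) = 0) ∧
    (∀ s' : Fin 2, mprod (fun i => VV (P i) (a i)) n (blk (s', x')) (3, x) = 0) ∧
    mprod (fun i => VV (P i) (a i)) n (2, x') (3, x) = 0 ∧
    mprod (fun i => VV (P i) (a i)) n (3, x') (2, x) = 0 := by
  induction n generalizing x' x with
  | zero =>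
    simp only [mprod_zero, Matrix.one_apply]
    have e2 : ∀ s : Fin 2, ((2 : Fin 4), x') ≠ blk (s, x) := by
      intro s
      fin_cases s <;> simp [blk]
    have e3 : ∀ s : Fin 2, ((3 : Fin 4), x') ≠ blk (s, x) := by
      intro s
      fin_cases s <;> simp [blk]
    have e2' : ∀ s : Fin 2, blk (s, x') ≠ ((2 : Fin 4), x) := by
      intro s
      fin_cases s <;> simp [blk]
    have e3' : ∀ s : Fin 2, blk (s, x') ≠ ((3 : Fin 4), x) := by
      intro s
      fin_cases s <;> simp [blk]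
    refine ⟨?_, ?_, ?_, fun s => if_neg (e2 s), fun s => if_neg (e3 s), fun s => if_neg (e2' s),
      fun s => if_neg (e3' s), ?_, ?_⟩
    · intro s' s
      by_cases h : (s', x') = (s, x)
      · rw [h]
        simp
      · rw [if_neg h, if_neg]
        intro h2
        apply h
        unfold blk at h2
        rw [Prod.mk.injEq] at h2 ⊢
        exact ⟨Fin.castLE_injective _ h2.1, h2.2⟩
    · simp
    · simp
    · simp
    · simp
  | succ n ih =>
    have hsum : ∀ (f : Fin 4 × Fin 3 → ℂ), ∑ j, f j =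
        ∑ j : Fin 2 × Fin 3, f (blk j) + ∑ y : Fin 3, f (2, y) + ∑ y : Fin 3, f (3, y) := by
      intro f
      rw [Fintype.sum_prod_type, Fin.sum_univ_four, Fintype.sum_prod_type, Fin.sum_univ_two]
      rfl
    have hV : ∀ y : Fin 3,
        (∀ s : Fin 2, VV (P n) (a n) (2, x') (blk (s, y)) = 0) ∧
        (∀ s : Fin 2, VV (P n) (a n) (3, x') (blk (s, y)) = 0) ∧
        (∀ s' : Fin 2, VV (P n) (a n) (blk (s', x')) (2, y) = 0) ∧
        (∀ s' : Fin 2, VV (P n) (a n) (blk (s', x')) (3, y) = 0) ∧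
        VV (P n) (a n) (2, x') (3, y) = 0 ∧ VV (P n) (a n) (3, x') (2, y) = 0 ∧
        VV (P n) (a n) (2, x') (2, y) = ((((P n).natDegree : ℂ) ^ 2) • E00) x' y ∧
        VV (P n) (a n) (3, x') (3, y) = ((a n * ((P n).natDegree : ℂ) ^ 2) • E00) x' y := by
      intro y
      rw [← WW_one (sg (P n)) _ (a n), ← WW_two (sg (P n)) _ (a n)]
      refine ⟨?_, ?_, ?_, ?_, ?_, ?_, ?_, ?_⟩
      · intro s
        fin_cases s <;> simp [blk, VV_apply, ZZ]
      · intro s
        fin_cases s <;> simp [blk, VV_apply, ZZ]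
      · intro s
        fin_cases s <;> simp [blk, VV_apply, ZZ]
      · intro s
        fin_cases s <;> simp [blk, VV_apply, ZZ]
      · simp [VV_apply, ZZ]
      · simp [VV_apply, ZZ]
      · simp [VV_apply, ZZ]
      · simp [VV_apply, ZZ]
    refine ⟨?_, ?_, ?_, ?_, ?_, ?_, ?_, ?_, ?_⟩
    · intro s' s
      rw [mprod_succ, mprod_succ, Matrix.mul_apply, Matrix.mul_apply, hsum]
      have z1 : ∑ y : Fin 3, VV (P n) (a n) (blk (s', x')) (2, y) *
          mprod (fun i => VV (P i) (a i)) n (2, y) (blk (s, x)) = 0 :=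
        Finset.sum_eq_zero fun y _ => by rw [(hV y).2.2.1 s', zero_mul]
      have z2 : ∑ y : Fin 3, VV (P n) (a n) (blk (s', x')) (3, y) *
          mprod (fun i => VV (P i) (a i)) n (3, y) (blk (s, x)) = 0 :=
        Finset.sum_eq_zero fun y _ => by rw [(hV y).2.2.2.1 s', zero_mul]
      rw [z1, z2, add_zero, add_zero]
      apply Finset.sum_congr rfl
      rintro ⟨t, y⟩ _
      rw [(ih y x).1 t s]
      rfl
    · rw [mprod_succ, mprod_succ, Matrix.mul_apply, Matrix.mul_apply, hsum]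
      have z1 : ∑ j : Fin 2 × Fin 3, VV (P n) (a n) (2, x') (blk j) *
          mprod (fun i => VV (P i) (a i)) n (blk j) (2, x) = 0 :=
        Finset.sum_eq_zero fun j _ => by rw [(hV j.2).1 j.1, zero_mul]
      have z2 : ∑ y : Fin 3, VV (P n) (a n) (2, x') (3, y) *
          mprod (fun i => VV (P i) (a i)) n (3, y) (2, x) = 0 :=
        Finset.sum_eq_zero fun y _ => by rw [(hV y).2.2.2.2.1, zero_mul]
      rw [z1, z2, add_zero, zero_add]
      apply Finset.sum_congr rfl
      intro y _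
      rw [(ih y x).2.1, (hV y).2.2.2.2.2.2.1]
    · rw [mprod_succ, mprod_succ, Matrix.mul_apply, Matrix.mul_apply, hsum]
      have z1 : ∑ j : Fin 2 × Fin 3, VV (P n) (a n) (3, x') (blk j) *
          mprod (fun i => VV (P i) (a i)) n (blk j) (3, x) = 0 :=
        Finset.sum_eq_zero fun j _ => by rw [(hV j.2).2.1 j.1, zero_mul]
      have z2 : ∑ y : Fin 3, VV (P n) (a n) (3, x') (2, y) *
          mprod (fun i => VV (P i) (a i)) n (2, y) (3, x) = 0 :=
        Finset.sum_eq_zero fun y _ => by rw [(hV y).2.2.2.2.2.1, zero_mul]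
      rw [z1, z2, add_zero, zero_add]
      apply Finset.sum_congr rfl
      intro y _
      rw [(ih y x).2.2.1, (hV y).2.2.2.2.2.2.2]
    · intro s
      rw [mprod_succ, Matrix.mul_apply, hsum]
      have z1 : ∑ j : Fin 2 × Fin 3, VV (P n) (a n) (2, x') (blk j) *
          mprod (fun i => VV (P i) (a i)) n (blk j) (blk (s, x)) = 0 :=
        Finset.sum_eq_zero fun j _ => by rw [(hV j.2).1 j.1, zero_mul]
      have z2 : ∑ y : Fin 3, VV (P n) (a n) (2, x') (2, y) *
          mprod (fun i => VV (P i) (a i)) n (2, y) (blk (s, x)) = 0 :=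
        Finset.sum_eq_zero fun y _ => by rw [(ih y x).2.2.2.1 s, mul_zero]
      have z3 : ∑ y : Fin 3, VV (P n) (a n) (2, x') (3, y) *
          mprod (fun i => VV (P i) (a i)) n (3, y) (blk (s, x)) = 0 :=
        Finset.sum_eq_zero fun y _ => by rw [(hV y).2.2.2.2.1, zero_mul]
      rw [z1, z2, z3, add_zero, add_zero]
    · intro s
      rw [mprod_succ, Matrix.mul_apply, hsum]
      have z1 : ∑ j : Fin 2 × Fin 3, VV (P n) (a n) (3, x') (blk j) *
          mprod (fun i => VV (P i) (a i)) n (blk j) (blk (s, x)) = 0 :=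
        Finset.sum_eq_zero fun j _ => by rw [(hV j.2).2.1 j.1, zero_mul]
      have z2 : ∑ y : Fin 3, VV (P n) (a n) (3, x') (2, y) *
          mprod (fun i => VV (P i) (a i)) n (2, y) (blk (s, x)) = 0 :=
        Finset.sum_eq_zero fun y _ => by rw [(hV y).2.2.2.2.2.1, zero_mul]
      have z3 : ∑ y : Fin 3, VV (P n) (a n) (3, x') (3, y) *
          mprod (fun i => VV (P i) (a i)) n (3, y) (blk (s, x)) = 0 :=
        Finset.sum_eq_zero fun y _ => by rw [(ih y x).2.2.2.2.1 s, mul_zero]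
      rw [z1, z2, z3, add_zero, add_zero]
    · intro s
      rw [mprod_succ, Matrix.mul_apply, hsum]
      have z1 : ∑ j : Fin 2 × Fin 3, VV (P n) (a n) (blk (s, x')) (blk j) *
          mprod (fun i => VV (P i) (a i)) n (blk j) (2, x) = 0 :=
        Finset.sum_eq_zero fun j _ => by rw [(ih j.2 x).2.2.2.2.2.1 j.1, mul_zero]
      have z2 : ∑ y : Fin 3, VV (P n) (a n) (blk (s, x')) (2, y) *
          mprod (fun i => VV (P i) (a i)) n (2, y) (2, x) = 0 :=
        Finset.sum_eq_zero fun y _ => by rw [(hV y).2.2.1 s, zero_mul]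
      have z3 : ∑ y : Fin 3, VV (P n) (a n) (blk (s, x')) (3, y) *
          mprod (fun i => VV (P i) (a i)) n (3, y) (2, x) = 0 :=
        Finset.sum_eq_zero fun y _ => by rw [(hV y).2.2.2.1 s, zero_mul]
      rw [z1, z2, z3, add_zero, add_zero]
    · intro s
      rw [mprod_succ, Matrix.mul_apply, hsum]
      have z1 : ∑ j : Fin 2 × Fin 3, VV (P n) (a n) (blk (s, x')) (blk j) *
          mprod (fun i => VV (P i) (a i)) n (blk j) (3, x) = 0 :=
        Finset.sum_eq_zero fun j _ => by rw [(ih j.2 x).2.2.2.2.2.2.1 j.1, mul_zero]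
      have z2 : ∑ y : Fin 3, VV (P n) (a n) (blk (s, x')) (2, y) *
          mprod (fun i => VV (P i) (a i)) n (2, y) (3, x) = 0 :=
        Finset.sum_eq_zero fun y _ => by rw [(hV y).2.2.1 s, zero_mul]
      have z3 : ∑ y : Fin 3, VV (P n) (a n) (blk (s, x')) (3, y) *
          mprod (fun i => VV (P i) (a i)) n (3, y) (3, x) = 0 :=
        Finset.sum_eq_zero fun y _ => by rw [(hV y).2.2.2.1 s, zero_mul]
      rw [z1, z2, z3, add_zero, add_zero]
    · rw [mprod_succ, Matrix.mul_apply, hsum]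
      have z1 : ∑ j : Fin 2 × Fin 3, VV (P n) (a n) (2, x') (blk j) *
          mprod (fun i => VV (P i) (a i)) n (blk j) (3, x) = 0 :=
        Finset.sum_eq_zero fun j _ => by rw [(hV j.2).1 j.1, zero_mul]
      have z2 : ∑ y : Fin 3, VV (P n) (a n) (2, x') (2, y) *
          mprod (fun i => VV (P i) (a i)) n (2, y) (3, x) = 0 :=
        Finset.sum_eq_zero fun y _ => by rw [(ih y x).2.2.2.2.2.2.2.1, mul_zero]
      have z3 : ∑ y : Fin 3, VV (P n) (a n) (2, x') (3, y) *
          mprod (fun i => VV (P i) (a i)) n (3, y) (3, x) = 0 :=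
        Finset.sum_eq_zero fun y _ => by rw [(hV y).2.2.2.2.1, zero_mul]
      rw [z1, z2, z3, add_zero, add_zero]
    · rw [mprod_succ, Matrix.mul_apply, hsum]
      have z1 : ∑ j : Fin 2 × Fin 3, VV (P n) (a n) (3, x') (blk j) *
          mprod (fun i => VV (P i) (a i)) n (blk j) (2, x) = 0 :=
        Finset.sum_eq_zero fun j _ => by rw [(hV j.2).2.1 j.1, zero_mul]
      have z2 : ∑ y : Fin 3, VV (P n) (a n) (3, x') (2, y) *
          mprod (fun i => VV (P i) (a i)) n (2, y) (2, x) = 0 :=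
        Finset.sum_eq_zero fun y _ => by rw [(hV y).2.2.2.2.2.1, zero_mul]
      have z3 : ∑ y : Fin 3, VV (P n) (a n) (3, x') (3, y) *
          mprod (fun i => VV (P i) (a i)) n (3, y) (2, x) = 0 :=
        Finset.sum_eq_zero fun y _ => by rw [(ih y x).2.2.2.2.2.2.2.2, mul_zero]
      rw [z1, z2, z3, add_zero, add_zero]

lemma trace_VV (P : ℕ → ℂ[X]) (a : ℕ → ℂ) (n : ℕ) (hn : 1 ≤ n) :
    (mprod (fun i => VV (P i) (a i)) n).trace = (mprod (fun i => MM (P i) (a i)) n).trace +
      ∏ i ∈ range n, ((P i).natDegree : ℂ) ^ 2 +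
      ∏ i ∈ range n, (a i * ((P i).natDegree : ℂ) ^ 2) := by
  rw [← trace_W _ n hn, ← trace_W _ n hn]
  unfold Matrix.trace
  rw [Fintype.sum_prod_type, Fin.sum_univ_four, Fintype.sum_prod_type, Fin.sum_univ_two]
  simp only [Matrix.diag_apply]
  congr 1
  · congr 1
    · congr 1
      · apply Finset.sum_congr rfl
        intro y _
        exact (mprod_VV P a n y y).1 0 0
      · apply Finset.sum_congr rfl
        intro y _
        exact (mprod_VV P a n y y).1 1 1
    · apply Finset.sum_congr rfl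
      intro y _
      exact (mprod_VV P a n y y).2.1
  · apply Finset.sum_congr rfl
    intro y _
    exact (mprod_VV P a n y y).2.2.1

/-- products of periodic sequences -/
lemma prod_periodic {R : Type*} [CommMonoid R] (f : ℕ → R) (k : ℕ) (hf : ∀ i, f (i + k) = f i)
    (n : ℕ) : ∏ i ∈ range (n * k), f i = (∏ i ∈ range k, f i) ^ n := by
  have hper : ∀ n i, f (n * k + i) = f i := by
    intro n
    induction n with
    | zero => intro i; rw [zero_mul, zero_add]
    | succ n ih =>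
      intro i
      rw [show (n + 1) * k + i = (n * k + i) + k by ring, hf, ih]
  induction n with
  | zero => rw [zero_mul, prod_range_zero, pow_zero]
  | succ n ih =>
    rw [show (n + 1) * k = n * k + k by ring, prod_range_add, ih, pow_succ]
    congr 1
    exact prod_congr rfl fun i _ => hper n i

theorem grow (k : ℕ) (hk : 1 ≤ k) (P : ℕ → ℂ[X]) (a : ℕ → ℂ) (hPk : ∀ i, P (i + k) = P i)
    (hak : ∀ i, a (i + k) = a i) (hd : ∀ i, 2 ≤ (P i).natDegree) :
    ∃ n ≥ 1, (1 + ‖∏ i ∈ range (n * k), a i‖) * ∏ i ∈ range (n * k), ((P i).natDegree : ℝ) <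
      ‖(mprod (fun i => VV (P i) (a i)) (n * k)).trace -
        (1 + ∏ i ∈ range (n * k), a i) * ∏ i ∈ range (n * k), ((P i).natDegree : ℂ)‖ := by
  set D : ℕ := ∏ i ∈ range k, (P i).natDegree with hD
  set δ : ℂ := ∏ i ∈ range k, a i with hδ
  have hD2 : 2 ≤ D := by
    have h1 : 2 ^ 1 ≤ 2 ^ k := Nat.pow_le_pow_right (by norm_num) hk
    have h2 : 2 ^ k ≤ D := by
      calc 2 ^ k = ∏ i ∈ range k, 2 := by rw [prod_const, card_range]
        _ ≤ D := Finset.prod_le_prod' fun i _ => hd i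
    omega
  obtain ⟨n, hn, h⟩ := _root_.SAD.sad_concl D hD2 δ (mprod (fun i => MM (P i) (a i)) k) 1
  refine ⟨n, hn, ?_⟩
  have hnk : 1 ≤ n * k := Nat.mul_pos hn hk
  have e1 : ∏ i ∈ range (n * k), a i = δ ^ n := prod_periodic a k hak n
  have e2 : ∏ i ∈ range (n * k), ((P i).natDegree : ℂ) = (D : ℂ) ^ n := by
    rw [prod_periodic (fun i => ((P i).natDegree : ℂ)) k (fun i => by
      rw [hPk]) n, hD]
    push_cast
    rfl
  have e3 : ∏ i ∈ range (n * k), ((P i).natDegree : ℝ) = (D : ℝ) ^ n := by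
    rw [prod_periodic (fun i => ((P i).natDegree : ℝ)) k (fun i => by
      rw [hPk]) n, hD]
    push_cast
    rfl
  have e4 : mprod (fun i => MM (P i) (a i)) (n * k) =
      mprod (fun i => MM (P i) (a i)) k ^ n :=
    mprod_mul (fun i => MM (P i) (a i)) k (fun i => by
      rw [hPk, hak]) n
  have e5 : ∏ i ∈ range (n * k), ((P i).natDegree : ℂ) ^ 2 = (D : ℂ) ^ (2 * n) := by
    rw [prod_pow, e2, ← pow_mul, mul_comm]
  have e6 : ∏ i ∈ range (n * k), (a i * ((P i).natDegree : ℂ) ^ 2) =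
      δ ^ n * (D : ℂ) ^ (2 * n) := by
    rw [prod_mul_distrib, e1, e5]
  rw [trace_VV P a (n * k) hnk, e1, e2, e3, e4, e5, e6, norm_pow]
  have e7 : (mprod (fun i => MM (P i) (a i)) k ^ n).trace + (D : ℂ) ^ (2 * n) +
      δ ^ n * (D : ℂ) ^ (2 * n) - (1 + δ ^ n) * (D : ℂ) ^ n =
      (1 + δ ^ n) * ((D : ℂ) ^ (2 * n) - (D : ℂ) ^ n) +
        (mprod (fun i => MM (P i) (a i)) k ^ n).trace := by ring
  rw [e7]
  exact h

end Pool.Agent.SAD
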