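import Pool.Agent.HQ.HDefs
import Pool.Agent.HQ.HA
import Pool.Agent.SAD.Fin
import Pool.Agent.SAD.Grow
import Pool.Agent.SAD.Tools

/-!
# SAD / Hen: every generalized Henon map has a saddle periodic point
-/

set_option autoImplicit false

namespace Pool.Agent.SAD

open Finset Polynomial Pool.Agent.HQ

/-- the composition `h (m-1) ∘ ... ∘ h 0` -/
noncomputable def hp (h : ℕ → Equiv.Perm E) : ℕ → Equiv.Perm E
  | 0 => 1
  | m + 1 => h m * hp h m

lemma hp_succ (h : ℕ → Equiv.Perm E) (m : ℕ) : hp h (m + 1) = h m * hp h m := rfl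

lemma hp_add (h : ℕ → Equiv.Perm E) (m n : ℕ) :
    hp h (m + n) = hp (fun i => h (i + m)) n * hp h m := by
  induction n with
  | zero => simp [hp]
  | succ n ih =>
    rw [← add_assoc, hp_succ, hp_succ, ih, mul_assoc, add_comm n m]

lemma hp_period (h : ℕ → Equiv.Perm E) (k : ℕ) (hk : ∀ i, h (i + k) = h i) (n : ℕ) :
    hp h (n * k) = hp h k ^ n := by
  induction n with
  | zero => simp [hp]
  | succ n ih =>
    have h1 : (fun i => h (i + n * k)) = h := by
      funext i
      exact periodic_mul k h hk n i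
    rw [Nat.succ_mul, hp_add, h1, ih, pow_succ']

/-- the ordered product over the reversed list is `henon` -/
lemma hp_henon (L : List (ℂˣ × Polynomial ℂ)) (h : ℕ → Equiv.Perm E)
    (hh : ∀ i (hi : i < L.length), h i =
      hen (L.reverse[i]'(by rw [List.length_reverse]; exact hi)).1
        (L.reverse[i]'(by rw [List.length_reverse]; exact hi)).2) :
    hp h L.length = henon L := by
  induction L with
  | nil => simp [hp, henon]
  | cons q L ih =>
    have h1 : hp h L.length = henon L := by
      apply ih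
      intro i hi
      have h2 := hh i (by rw [List.length_cons]; omega)
      rw [h2]
      have h3 : (q :: L).reverse[i]'(by rw [List.length_reverse, List.length_cons]; omega) =
          L.reverse[i]'(by rw [List.length_reverse]; exact hi) := by
        simp only [List.reverse_cons]
        rw [List.getElem_append_left]
      rw [h3]
    have h4 := hh L.length (by rw [List.length_cons]; omega)
    have h5 : (q :: L).reverse[L.length]'(by rw [List.length_reverse, List.length_cons]; omega) =
        q := by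
      simp only [List.reverse_cons]
      rw [List.getElem_append_right (by rw [List.length_reverse])]
      simp
    rw [h5] at h4
    rw [List.length_cons, hp_succ, h1, h4]
    simp [henon]

/-- derivative of a Henon map -/
lemma hen_hasFDerivAt (u : ℂˣ) (P : Polynomial ℂ) (z : E) :
    ∃ L : E →L[ℂ] E, HasFDerivAt (⇑(hen u P)) L z ∧
      ∀ w : E, L w = ((derivative P).eval z.1 * w.1 + u * w.2, w.1) := by
  have h1 : HasFDerivAt (fun z : E => z.1) (ContinuousLinearMap.fst ℂ ℂ ℂ) z :=
    hasFDerivAt_fst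
  have h2 : HasFDerivAt (fun z : E => z.2) (ContinuousLinearMap.snd ℂ ℂ ℂ) z :=
    hasFDerivAt_snd
  have h3 : HasFDerivAt (fun z : E => P.eval z.1)
      ((derivative P).eval z.1 • ContinuousLinearMap.fst ℂ ℂ ℂ) z :=
    (P.hasDerivAt z.1).comp_hasFDerivAt z h1
  have h4 : HasFDerivAt (fun z : E => (u : ℂ) * z.2) ((u : ℂ) • ContinuousLinearMap.snd ℂ ℂ ℂ) z :=
    h2.const_mul (u : ℂ)
  refine ⟨((u : ℂ) • ContinuousLinearMap.snd ℂ ℂ ℂ +
      (derivative P).eval z.1 • ContinuousLinearMap.fst ℂ ℂ ℂ).prod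
        (ContinuousLinearMap.fst ℂ ℂ ℂ), (h4.add h3).prodMk h1, ?_⟩
  intro w
  refine Prod.ext ?_ ?_
  · simp
    ring
  · simp

/-- the derivative of the composition along the orbit of a solution -/
lemma hp_deriv (N : ℕ) (P : ℕ → ℂ[X]) (u : ℕ → ℂˣ) (x : ℕ → ℂ)
    (hx : IsSol N P (fun i => -(u i : ℂ)) x) (h : ℕ → Equiv.Perm E)
    (hh : ∀ i, h i = hen (u i) (P i)) :
    ∀ m ≤ N, (hp h m) (x 0, x (N - 1)) = (x m, x (m + N - 1)) ∧
      ∃ L : E →L[ℂ] E, HasFDerivAt (⇑(hp h m)) L (x 0, x (N - 1)) ∧
        ∀ w : E, L w =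
          (cprod (fun i => aeval (x i) (derivative (P i))) (fun i => -(u i : ℂ)) m 0 0 * w.1 +
            cprod (fun i => aeval (x i) (derivative (P i))) (fun i => -(u i : ℂ)) m 0 1 * w.2,
           cprod (fun i => aeval (x i) (derivative (P i))) (fun i => -(u i : ℂ)) m 1 0 * w.1 +
            cprod (fun i => aeval (x i) (derivative (P i))) (fun i => -(u i : ℂ)) m 1 1 * w.2) := by
  intro m
  induction m with
  | zero =>
    intro _
    refine ⟨?_, ContinuousLinearMap.id ℂ E, ?_, ?_⟩
    · rw [zero_add]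
      rfl
    · exact hasFDerivAt_id _
    · intro w
      simp
  | succ m ih =>
    intro hm
    obtain ⟨h1, L, hL, hLw⟩ := ih (by omega)
    obtain ⟨hper, hrel⟩ := hx
    have hr := hrel m (by omega)
    rw [Polynomial.coe_aeval_eq_eval, smul_eq_mul] at hr
    obtain ⟨L', hL', hLw'⟩ := hen_hasFDerivAt (u m) (P m) (x m, x (m + N - 1))
    refine ⟨?_, L'.comp L, ?_, ?_⟩
    · rw [hp_succ, Equiv.Perm.mul_apply, h1, hh m]
      refine Prod.ext ?_ ?_
      · change (u m : ℂ) * x (m + N - 1) + (P m).eval (x m) = x (m + 1)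
        rw [hr]
        ring
      · change x m = x (m + 1 + N - 1)
        rw [show m + 1 + N - 1 = m + N by omega, hper]
    · have h2 : HasFDerivAt (⇑(h m)) L' ((hp h m) (x 0, x (N - 1))) := by
        rw [h1, hh m]
        exact hL'
      have h3 := h2.comp (x 0, x (N - 1)) hL
      exact h3
    · intro w
      rw [ContinuousLinearMap.comp_apply, hLw', hLw, cprod_succ_00, cprod_succ_01, cprod_succ_10,
        cprod_succ_11]
      refine Prod.ext ?_ ?_
      · simp only [Polynomial.coe_aeval_eq_eval]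
        ring
      · rfl

/-- a root of the characteristic polynomial is an eigenvalue -/
lemma eig_of_root (A : E →L[ℂ] E) (a b c d l : ℂ)
    (hA : ∀ w : E, A w = (a * w.1 + b * w.2, c * w.1 + d * w.2))
    (hl : l * l - (a + d) * l + (a * d - b * c) = 0) :
    Module.End.HasEigenvalue A.toLinearMap l := by
  have hdet : (!![a - l, b; c, d - l] : Matrix (Fin 2) (Fin 2) ℂ).det = 0 := by
    rw [Matrix.det_fin_two_of]
    linear_combination hl
  obtain ⟨v, hv, hMv⟩ := Matrix.exists_mulVec_eq_zero_iff.mpr hdet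
  have e0 := congrFun hMv 0
  have e1 := congrFun hMv 1
  simp [Matrix.mulVec, dotProduct, Fin.sum_univ_two] at e0 e1
  refine Module.End.hasEigenvalue_of_hasEigenvector (x := ((v 0, v 1) : E)) ⟨?_, ?_⟩
  · rw [Module.End.mem_eigenspace_iff]
    change A (v 0, v 1) = l • ((v 0, v 1) : E)
    rw [hA]
    refine Prod.ext ?_ ?_
    · change a * v 0 + b * v 1 = l * v 0
      linear_combination e0
    · change c * v 0 + d * v 1 = l * v 1
      linear_combination e1
  · intro h0
    apply hv
    have h1 : v 0 = 0 := congrArg Prod.fst h0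
    have h2 : v 1 = 0 := congrArg Prod.snd h0
    funext i
    fin_cases i
    · exact h1
    · exact h2

/-- a linear map of the plane with large trace has eigenvalues inside and outside of the disc -/
lemma eig_saddle (A : E →L[ℂ] E) (a b c d : ℂ)
    (hA : ∀ w : E, A w = (a * w.1 + b * w.2, c * w.1 + d * w.2))
    (ht : 1 + ‖a * d - b * c‖ < ‖a + d‖) :
    ∃ l m : ℂ, 1 < ‖l‖ ∧ ‖m‖ < 1 ∧ Module.End.HasEigenvalue A.toLinearMap l ∧
      Module.End.HasEigenvalue A.toLinearMap m := by
  obtain ⟨s, hs⟩ := IsAlgClosed.exists_pow_nat_eq ((a + d) ^ 2 - 4 * (a * d - b * c))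
    (show 0 < 2 by norm_num)
  set l : ℂ := (a + d + s) / 2 with hl
  set m : ℂ := (a + d - s) / 2 with hm
  have hsum : l + m = a + d := by
    rw [hl, hm]
    ring
  have hprod : l * m = a * d - b * c := by
    rw [hl, hm]
    linear_combination (-1 / 4) * hs
  have hnot : ¬ ((1 ≤ ‖l‖ ∧ 1 ≤ ‖m‖) ∨ (‖l‖ ≤ 1 ∧ ‖m‖ ≤ 1)) := by
    intro h
    have h1 := SAD.sad_eig l m h
    rw [hsum, hprod] at h1
    linarith
  have el : Module.End.HasEigenvalue A.toLinearMap l := by
    apply eig_of_root A a b c d l hA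
    rw [← hsum, ← hprod]
    ring
  have em : Module.End.HasEigenvalue A.toLinearMap m := by
    apply eig_of_root A a b c d m hA
    rw [← hsum, ← hprod]
    ring
  rw [not_or, not_and_or, not_and_or] at hnot
  push Not at hnot
  obtain ⟨h1, h2⟩ := hnot
  rcases h2 with h2 | h2
  · rcases h1 with h1 | h1
    · linarith
    · exact ⟨l, m, h2, h1, el, em⟩
  · rcases h1 with h1 | h1
    · exact ⟨m, l, h2, h1, em, el⟩
    · linarith

/-- every generalized Henon map has a saddle periodic point -/
theorem exists_saddle (L : List (ℂˣ × Polynomial ℂ)) (hL : Adm L) : (Sad (henon L)).Nonempty := by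
  obtain ⟨hne, hdeg⟩ := hL
  set k := L.length with hk
  have hk1 : 1 ≤ k := List.length_pos_iff.mpr hne
  -- the periodic data
  have hlt : ∀ i, i % k < L.reverse.length := by
    intro i
    rw [List.length_reverse]
    exact Nat.mod_lt _ hk1
  set u : ℕ → ℂˣ := fun i => (L.reverse[i % k]'(hlt i)).1 with hu
  set P : ℕ → ℂ[X] := fun i => (L.reverse[i % k]'(hlt i)).2 with hP
  set h : ℕ → Equiv.Perm E := fun i => hen (u i) (P i) with hh
  have hmod : ∀ i, (i + k) % k = i % k := fun i => Nat.add_mod_right i k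
  have hPk : ∀ i, P (i + k) = P i := by
    intro i
    simp only [hP, hmod]
  have huk : ∀ i, u (i + k) = u i := by
    intro i
    simp only [hu, hmod]
  have hd : ∀ i, 2 ≤ (P i).natDegree := by
    intro i
    apply hdeg
    have := List.getElem_mem (hlt i)
    exact List.mem_reverse.mp this
  have hhenon : hp h k = henon L := by
    apply hp_henon
    intro i hi
    simp only [hh, hu, hP]
    have : i % k = i := Nat.mod_eq_of_lt hi
    simp only [this]
  obtain ⟨n, hn, x, hx, hT⟩ := core'_of (fun k hk P a hPk hak hd => grow k hk P a hPk hak hd)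
    k hk1 P (fun i => -(u i : ℂ)) hPk (fun i => by simp only [huk]) hd
  set N := n * k with hN
  have hN1 : 1 ≤ N := Nat.mul_pos hn hk1
  obtain ⟨hz, A, hA, hAw⟩ := hp_deriv N P u x hx h (fun i => rfl) N le_rfl
  have hpow : hp h N = (henon L) ^ n := by
    rw [hN, hp_period h k (fun i => by simp only [hh, hPk, huk]) n, hhenon]
  have hzz : (hp h N) (x 0, x (N - 1)) = (x 0, x (N - 1)) := by
    rw [hz]
    have e1 : x N = x 0 := by
      have := hx.1 0
      rwa [zero_add] at this
    have e2 : x (N + N - 1) = x (N - 1) := by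
      have := hx.1 (N - 1)
      rw [← this]
      congr 1
      omega
    rw [e1, e2]
  have hdet := det_cprod (fun i => aeval (x i) (derivative (P i))) (fun i => -(u i : ℂ)) N
  have hTT : TT N P (fun i => -(u i : ℂ)) x =
      cprod (fun i => aeval (x i) (derivative (P i))) (fun i => -(u i : ℂ)) N 0 0 +
      cprod (fun i => aeval (x i) (derivative (P i))) (fun i => -(u i : ℂ)) N 1 1 := rfl
  obtain ⟨l, m, hl, hm, el, em⟩ := eig_saddle A _ _ _ _ hAw (by
    rw [hdet, ← hTT]
    exact hT)
  refine ⟨(x 0, x (N - 1)), n, hn, ?_, l, m, hl, hm, ?_, ?_⟩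
  · rw [← hpow]
    exact hzz
  · rw [← hpow, hA.fderiv]
    exact el
  · rw [← hpow, hA.fderiv]
    exact em

end Pool.Agent.SAD
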